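import Pool.Agent.Work.MP_6ac3f6_an.PF.MirB

-- merged part: Pool.Agent.Work.MP_6ac3f6_an.PF.Meas
section
/-!
# Continuity and measurability

All functions are continuous on the open disc; a set of the form z in the disc and u z ≤ v z is
measurable (ContinuousOn.. restrict, or closed in the open disc).
-/

set_option autoImplicit false

namespace Pool.Agent.Work.MP_6ac3f6_an.PF

open Complex Metric Set Filter Topology Real MeasureTheory ComplexConjugate

variable {f : ℂ → ℂ}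

lemma continuousOn_bt : ContinuousOn bt (ball 0 1) := by
  refine ContinuousOn.inv₀ (by fun_prop) fun z hz => ?_
  have h := mem_ball_zero_iff.1 hz
  have h0 := norm_nonneg z
  nlinarith

lemma Cl.an1 (hf : Cl f 0 1) : AnalyticOnNhd ℂ (deriv f) (ball 0 1) :=
  hf.an.deriv

lemma Cl.an2 (hf : Cl f 0 1) : AnalyticOnNhd ℂ (deriv (deriv f)) (ball 0 1) :=
  hf.an.deriv.deriv

lemma Cl.cont_kk (hf : Cl f 0 1) : ContinuousOn (kk f) (ball 0 1) :=
  (hf.an.continuousOn.norm.mul continuousOn_bt).log fun z hz =>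
    (mul_pos (norm_pos_iff.2 (hf.2.1 z hz)) (bt_pos hz)).ne'

lemma Cl.cont_yy (hf : Cl f 0 1) : ContinuousOn (yy f) (ball 0 1) :=
  ((hf.an1.continuousOn.sub continuousOn_const).norm.log fun z hz =>
    norm_ne_zero_iff.2 (sub_ne_zero.2 (hf.2.2 z hz))).sub hf.cont_kk

lemma Cl.cont_km (hf : Cl f 0 1) : ContinuousOn (km f) (ball 0 1) :=
  hf.cont_kk.neg.sup continuousOn_const

lemma Meas_ll : Continuous fun w : ℂ => Real.log (1 + Real.log (1 + ‖w‖ ^ 2)) := by
  have h : Continuous fun w : ℂ => Real.log (1 + ‖w‖ ^ 2) :=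
    Continuous.log (by fun_prop) fun w => by positivity
  refine (continuous_const.add h).log fun w => ?_
  exact (add_pos_of_pos_of_nonneg one_pos
    (Real.log_nonneg (le_add_of_nonneg_right (sq_nonneg ‖w‖)))).ne'

lemma continuous_lphi : Continuous lphi := by
  have h : Continuous fun w : ℂ => Real.log (1 + ‖w‖ ^ 2) :=
    Continuous.log (by fun_prop) fun w => by positivity
  exact (continuous_const.add (h.div_const 2)).sub Meas_ll

lemma Cl.cont_err (hf : Cl f 0 1) : ContinuousOn (err f) (ball 0 1) := by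
  have h0 := hf.an.continuousOn
  have h1 := hf.an1.continuousOn
  have h2 := hf.an2.continuousOn
  have hb : ∀ z ∈ ball (0 : ℂ) 1, bt z ≠ 0 := fun z hz => (bt_pos hz).ne'
  exact (((continuousOn_const.add (continuous_posLog.comp_continuousOn
    ((h2.div h0 hf.2.1).norm.div (continuousOn_bt.pow 2) fun z hz => pow_ne_zero 2 (hb z hz)))).add
    (continuous_posLog.comp_continuousOn ((h1.div h0 hf.2.1).norm.div continuousOn_bt hb))).add
    (continuous_posLog.comp_continuousOn ((h2.div (h1.sub continuousOn_const)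
      fun z hz => sub_ne_zero.2 (hf.2.2 z hz)).norm.div continuousOn_bt hb))).add
    (Meas_ll.comp_continuousOn h1)

lemma circleIntegrable_of_cont {u : ℂ → ℝ} (hu : ContinuousOn u (ball 0 1)) {r : ℝ} (h0 : 0 ≤ r)
    (h1 : r < 1) : CircleIntegrable u 0 r :=
  (hu.mono (sphere_subset_ball h1)).circleIntegrable h0

lemma meas_le {u v : ℂ → ℝ} (hu : ContinuousOn u (ball 0 1)) (hv : ContinuousOn v (ball 0 1)) :
    MeasurableSet {z | z ∈ ball (0 : ℂ) 1 ∧ u z ≤ v z} := by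
  have h : IsOpen (ball (0 : ℂ) 1 ∩ (fun z => u z - v z) ⁻¹' Ioi 0) :=
    (hu.sub hv).isOpen_inter_preimage isOpen_ball isOpen_Ioi
  have e : {z | z ∈ ball (0 : ℂ) 1 ∧ u z ≤ v z} =
      ball (0 : ℂ) 1 \ (ball (0 : ℂ) 1 ∩ (fun z => u z - v z) ⁻¹' Ioi 0) := by
    ext z
    simp only [mem_ofPred_eq, Set.mem_sdiff, mem_inter_iff, mem_preimage, mem_Ioi, sub_pos, not_and,
      not_lt]
    exact ⟨fun k => ⟨k.1, fun _ => k.2⟩, fun k => ⟨k.1, k.2 k.1⟩⟩
  rw [e]
  exact measurableSet_ball.diff h.measurableSet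

lemma Meas_and {p q : ℂ → Prop} (hp : MeasurableSet {z | z ∈ ball (0 : ℂ) 1 ∧ p z})
    (hq : MeasurableSet {z | z ∈ ball (0 : ℂ) 1 ∧ q z}) :
    MeasurableSet {z | z ∈ ball (0 : ℂ) 1 ∧ p z ∧ q z} := by
  have e : {z | z ∈ ball (0 : ℂ) 1 ∧ p z ∧ q z} =
      {z | z ∈ ball (0 : ℂ) 1 ∧ p z} ∩ {z | z ∈ ball (0 : ℂ) 1 ∧ q z} :=
    Set.ext fun z => ⟨fun k => ⟨⟨k.1, k.2.1⟩, k.1, k.2.2⟩, fun k => ⟨k.1.1, k.1.2, k.2.2⟩⟩
  rw [e]
  exact hp.inter hq

lemma Cl.meas_SA (hf : Cl f 0 1) (k1 : ℝ) : MeasurableSet (SA k1 f) :=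
  Meas_and (meas_le hf.cont_kk.abs continuousOn_const)
    (meas_le ((continuousOn_const.mul continuousOn_bt).mul hf.an.continuousOn.norm)
      hf.an1.continuousOn.norm)

lemma Cl.meas_Bad (hf : Cl f 0 1) (c0 : ℝ) : MeasurableSet (Bad c0 f) := by
  have h1 := hf.an1.continuousOn
  have h2 := hf.an2.continuousOn
  have h3 : ContinuousOn (fun z => lphi (deriv f z)) (ball 0 1) :=
    continuous_lphi.comp_continuousOn h1
  have hb := continuousOn_bt
  refine Meas_and (meas_le (h2.norm.pow 2) ?_) (meas_le continuousOn_const (by fun_prop))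
  unfold qq
  fun_prop

lemma Cl.meas_Band (hf : Cl f 0 1) (c k0 : ℝ) : MeasurableSet (Band c k0 f) :=
  Meas_and (meas_le continuousOn_const hf.cont_kk)
    (Meas_and (meas_le (continuousOn_const.mul hf.cont_kk).neg hf.cont_yy)
      (meas_le hf.cont_yy ((continuousOn_const.mul hf.cont_kk).neg.div_const 2)))

lemma Cl.meas_SS (hf : Cl f 0 1) (c k0 k3 : ℝ) : MeasurableSet (SS c k0 k3 f) :=
  Meas_and (meas_le continuousOn_const hf.cont_kk)
    (Meas_and (meas_le hf.cont_kk continuousOn_const)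
      (meas_le hf.cont_yy (continuousOn_const.mul hf.cont_kk).neg))

lemma Meas_log {A : ℝ → ℂ} {a : ℂ} {s : ℝ} (h : HasDerivAt A a s) (h0 : A s ≠ 0) :
    HasDerivAt (fun x => Real.log ‖A x‖) (a / A s).re s := by
  have k := (h.norm_sq.log (pow_ne_zero 2 (norm_ne_zero_iff.2 h0))).div_const 2
  have e : (fun x => Real.log ‖A x‖) = fun x => Real.log (‖A x‖ ^ 2) / 2 := by
    funext x
    rw [Real.log_pow]
    push_cast
    ring
  rw [e]
  refine k.congr_deriv ?_
  rw [Complex.inner, Complex.div_re, Complex.normSq_eq_norm_sq, Complex.mul_re, Complex.conj_re,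
    Complex.conj_im]
  ring

/-- derivative of `kk` along a line -/
lemma Cl.hasDerivAt_kk (hf : Cl f 0 1) {γ : ℝ → ℂ} {v : ℂ} {s : ℝ} (hγ : HasDerivAt γ v s)
    (hs : γ s ∈ ball (0 : ℂ) 1) : HasDerivAt (fun x => kk f (γ x))
      ((deriv f (γ s) / f (γ s) * v).re + 2 * bt (γ s) * (conj (γ s) * v).re) s := by
  have h1 : HasDerivAt (fun x => f (γ x)) (v • deriv f (γ s)) s :=
    (hf.an _ hs).differentiableAt.hasDerivAt.scomp s hγ
  have hp : 1 - ‖γ s‖ ^ 2 ≠ 0 := fun k => (bt_pos hs).ne' (by rw [bt, k, inv_zero])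
  have h2 := (Meas_log h1 (hf.2.1 _ hs)).fun_sub ((hγ.norm_sq.const_sub 1).log hp)
  refine (h2.congr_of_eventuallyEq ?_).congr_deriv ?_
  · filter_upwards [hγ.continuousAt.preimage_mem_nhds (isOpen_ball.mem_nhds hs)] with x hx
    rw [kk, Real.log_mul (norm_ne_zero_iff.2 (hf.2.1 _ hx)) (bt_pos hx).ne', bt, Real.log_inv,
      ← sub_eq_add_neg]
  · rw [Complex.inner, smul_eq_mul, mul_comm v, mul_div_right_comm, mul_comm v, bt]
    ring

/-- derivative of `log ‖f' - 1‖` along a line -/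
lemma Cl.hasDerivAt_xi (hf : Cl f 0 1) {γ : ℝ → ℂ} {v : ℂ} {s : ℝ} (hγ : HasDerivAt γ v s)
    (hs : γ s ∈ ball (0 : ℂ) 1) : HasDerivAt (fun x => Real.log ‖deriv f (γ x) - 1‖)
      ((deriv (deriv f) (γ s) / (deriv f (γ s) - 1) * v).re) s := by
  have h1 : HasDerivAt (fun x => deriv f (γ x)) (v • deriv (deriv f) (γ s)) s :=
    (hf.an1 _ hs).differentiableAt.hasDerivAt.scomp s hγ
  refine (Meas_log (h1.sub_const 1) (sub_ne_zero.2 (hf.2.2 _ hs))).congr_deriv ?_
  rw [smul_eq_mul, mul_comm v, mul_div_right_comm]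

end Pool.Agent.Work.MP_6ac3f6_an.PF
end

-- merged part: Pool.Agent.Work.MP_6ac3f6_an.PF.Err
section
/-!
# The error term is small in the mean

On the circle of radius r, 1 / bt = 1 - r^2 ≤ 2 (1 - r), so the three middle terms are bounded by
constants plus the integrands of mk g 2, mk g 1, mk g 1 for g = f''/f, f'/f, f''/(f'-1). These are Tame:
Quo f (denominator 1), Quo.tame for f, f' and f' - 1, and f''/f = logDeriv f * logDeriv f' eventually in DD
(Mer.dich for f'). Last term: log x ≤ s x + log (1/s), log (1 + |f'|^2) ≤ log 2 + 2 posLog |f'|, and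
mk f' 0 r ≤ C LL r by Gr.deriv.
-/

set_option autoImplicit false

namespace Pool.Agent.Work.MP_6ac3f6_an.PF

open Complex Metric Set Filter Topology Real MeasureTheory ComplexConjugate

lemma Err_quo {g : ℂ → ℂ} (hg : Gr g) : Quo g :=
  ⟨g, fun _ => 1, hg, Gr.const 1, by simp, Eventually.of_forall fun z => by simp⟩

lemma Err_cont {F : ℂ → ℂ} (ha : ContinuousOn F (ball 0 1)) :
    ContinuousOn (fun z => Real.log (1 + Real.log (1 + ‖F z‖ ^ 2))) (ball 0 1) := by
  have c1 : ContinuousOn (fun z => 1 + ‖F z‖ ^ 2) (ball 0 1) :=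
    continuousOn_const.add (ha.norm.pow 2)
  have c2 : ContinuousOn (fun z => 1 + Real.log (1 + ‖F z‖ ^ 2)) (ball 0 1) :=
    continuousOn_const.add (c1.log fun z _ => by positivity)
  refine c2.log fun z _ => ?_
  have : 0 ≤ Real.log (1 + ‖F z‖ ^ 2) := Real.log_nonneg (by linarith only [norm_nonneg (F z), sq_nonneg ‖F z‖])
  positivity

lemma Err_pt (x : ℝ) {s : ℝ} (hs : 0 < s) :
    Real.log (1 + Real.log (1 + x ^ 2)) ≤ (2 * s - Real.log s) + 2 * s * log⁺ (1 * x) := by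
  have a : Real.log (1 + x ^ 2) ≤ 1 + 2 * log⁺ (1 * x) := by
    rw [one_mul]
    have b := posLog_add (x := 1) (y := x ^ 2)
    rw [posLog_one, posLog_pow] at b
    have c : Real.log (1 + x ^ 2) ≤ log⁺ (1 + x ^ 2) := le_max_right _ _
    have d := Real.log_le_sub_one_of_pos (by norm_num : (0 : ℝ) < 2)
    push_cast at b
    linarith only [b, c, d]
  have p : 0 ≤ Real.log (1 + x ^ 2) := Real.log_nonneg (by linarith only [sq_nonneg x])
  have e := Real.log_le_sub_one_of_pos (show 0 < s * (1 + Real.log (1 + x ^ 2)) by positivity)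
  rw [Real.log_mul hs.ne' (by positivity)] at e
  linarith only [e, hs, a, mul_nonneg_of_nonpos_of_nonpos (le_of_lt (Mathlib.Tactic.Linarith.sub_neg_of_lt hs)) (Mathlib.Tactic.Linarith.sub_nonpos_of_le a)]

lemma Err_last {F : ℂ → ℂ} (hF : Gr F) :
    Sm fun r => circleAverage (fun z => Real.log (1 + Real.log (1 + ‖F z‖ ^ 2))) 0 r := by
  obtain ⟨ha, mF, C, hC⟩ := hF
  intro ε hε
  set s := ε / (4 * (|C| + 1)) with hs
  have s0 : 0 < s := by positivity
  filter_upwards [hC, ev_rng, Sm.const (2 * s - Real.log s) (ε / 2) (by positivity)] with r k hr k'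
  obtain ⟨h1, h2⟩ := hr
  have L0 := LL_nonneg h1 h2
  have cF := Err_cont ha.continuousOn
  have i := (int_mk mF h1 h2 1).const_smul (a := 2 * s)
  have ic := circleIntegrable_const (2 * s - Real.log s) 0 r
  have m := circleAverage_mono (circleIntegrable_of_cont cF (by linarith only [h1, h2]) h2) (ic.add i)
    fun z _ => Err_pt ‖F z‖ s0
  rw [circleAverage_add ic i, circleAverage_const, circleAverage_smul, smul_eq_mul] at m
  have e : circleAverage (fun z => log⁺ (1 * ‖F z‖)) 0 r = mk F 0 r := by rw [mk, pow_zero]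
  have a1 : mk F 0 r ≤ (|C| + 1) * LL r :=
    k.trans (mul_le_mul_of_nonneg_right (by linarith only [h1, h2, le_abs_self C]) L0)
  have a2 := mul_le_mul_of_nonneg_left a1 (by positivity : 0 ≤ 2 * s)
  have a3 : 2 * s * ((|C| + 1) * LL r) = ε / 2 * LL r := by
    rw [hs]
    field_simp
    ring
  rw [e] at m
  linarith only [k', m, a2, a3]

lemma Err_mid {g : ℂ → ℂ} {k : ℕ} (hg : Tame g k) :
    Sm fun r => circleAverage (fun z => log⁺ ((1 - r ^ 2) ^ k * ‖g z‖)) 0 r :=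
  ((Sm.const (log⁺ ((2 : ℝ) ^ k))).add hg.2).mono fun r h1 h2 => by
    refine mk_scale hg.1 h1 h2 (pow_nonneg (by linarith only [h2, h1, mul_nonneg_of_nonpos_of_nonpos (Mathlib.Tactic.Linarith.sub_nonpos_of_le h1) (le_of_lt (Mathlib.Tactic.Linarith.sub_neg_of_lt h2))]) _) ?_
    rw [← mul_pow]
    exact pow_le_pow_left₀ (by linarith only [h2, h1, mul_nonneg_of_nonpos_of_nonpos (Mathlib.Tactic.Linarith.sub_nonpos_of_le h1) (le_of_lt (Mathlib.Tactic.Linarith.sub_neg_of_lt h2))]) (by linarith only [h2, mul_pos_of_neg_of_neg (Mathlib.Tactic.Linarith.sub_neg_of_lt h2) (Mathlib.Tactic.Linarith.sub_neg_of_lt h2)]) _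

lemma err_small {f : ℂ → ℂ} (hf : Cl f 0 1) (hg : Gr f) :
    Sm fun r => circleAverage (err f) 0 r := by
  have t1 := (Err_quo hg).tame
  have t2 : Tame (fun z => deriv (deriv f) z / f z) 2 := by
    rcases hg.deriv.2.1.dich with h | h
    · refine (t1.mul (Err_quo hg.deriv).tame).congr ?_
      filter_upwards [h] with z hz
      rw [Pi.mul_apply, logDeriv_apply, logDeriv_apply]
      field_simp
    · refine ((Tame.const 0).mono (by norm_num)).congr ?_
      filter_upwards [DD_deriv (g := fun _ => 0) h] with z hz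
      rw [hz, deriv_const, zero_div]
  have t3 : Tame (fun z => deriv (deriv f) z / (deriv f z - 1)) 1 := by
    refine (Err_quo (hg.deriv.add (Gr.const (-1)))).tame.congr (Eventually.of_forall fun z => ?_)
    rw [logDeriv_apply, show (deriv f + fun _ => (-1 : ℂ)) = fun z => deriv f z - 1 from
      funext fun z => (sub_eq_add_neg _ _).symm, deriv_sub_const]
  have cF := Err_cont hf.an1.continuousOn
  refine (((((Sm.const 3).add (Err_mid t2)).add (Err_mid t1)).add (Err_mid t3)).add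
    (Err_last hg.deriv)).mono fun r h1 h2 => le_of_eq ?_
  have i0 := circleIntegrable_const (3 : ℝ) 0 r
  have i1 := int_mk t2.1 h1 h2 ((1 - r ^ 2) ^ 2)
  have i2 := int_mk t1.1 h1 h2 ((1 - r ^ 2) ^ 1)
  have i3 := int_mk t3.1 h1 h2 ((1 - r ^ 2) ^ 1)
  have i4 := circleIntegrable_of_cont cF (by linarith only [h1, h2]) h2
  rw [← circleAverage_const (3 : ℝ) 0 r, ← circleAverage_add i0 i1,
    ← circleAverage_add (i0.add i1) i2, ← circleAverage_add ((i0.add i1).add i2) i3,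
    ← circleAverage_add (((i0.add i1).add i2).add i3) i4]
  refine circleAverage_congr_sphere fun z hz => ?_
  rw [abs_of_pos (by linarith only [h1, h2]), mem_sphere_zero_iff_norm] at hz
  simp only [err, bt, hz, Pi.add_apply, logDeriv_apply, inv_pow, div_inv_eq_mul, pow_one, mul_comm]

end Pool.Agent.Work.MP_6ac3f6_an.PF
end

-- merged part: Pool.Agent.Work.MP_6ac3f6_an.PF.Gron
section
/-!
# Growth of `kk` along segments

On the segment from z1 to z we have 1 - |w| ≥ T (convexity of the norm), bt w ≤ 1/T and by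
hasDerivAt_kk the derivative of u s = kk f (z1 + s (z - z1)) - kk f z1 is at most
(C + 2)(1 + |kk|)|z - z1|/T ≤ K (|u| + 1 + |kk f z1|); apply norm_le_gronwallBound_of_norm_deriv_right_le.
-/

set_option autoImplicit false

namespace Pool.Agent.Work.MP_6ac3f6_an.PF

open Complex Metric Set Filter Topology Real MeasureTheory ComplexConjugate

variable {f : ℂ → ℂ} {C : ℝ}

lemma Gron_ld (hf : Mir C f) {z : ℂ} (hz : z ∈ ball (0 : ℂ) 1) :
    ‖deriv f z / f z‖ ≤ C * bt z * (1 + |kk f z|) := by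
  rw [norm_div, div_le_iff₀ (norm_pos_iff.2 (hf.1.2.1 z hz))]
  linarith only [hf, hz, hf.2 z hz]

lemma gron (hC : 1 ≤ C) (hf : Mir C f) {z1 z : ℂ} {τ : ℝ} (hτ : 0 < τ) (h1 : τ ≤ 1 - ‖z1‖)
    (h2 : τ ≤ 1 - ‖z‖) :
    |kk f z - kk f z1| ≤ (1 + |kk f z1|) * (Real.exp ((C + 2) * ‖z - z1‖ / τ) - 1) := by
  by_cases e : z = z1
  · simp [e]
  have n0 : 0 < ‖z - z1‖ := norm_pos_iff.2 (sub_ne_zero.2 e)
  set K := (C + 2) * ‖z - z1‖ / τ with hK
  have K0 : 0 < K := by positivity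
  set γ : ℝ → ℂ := fun s => z1 + (s : ℂ) * (z - z1) with hγ
  have dγ : ∀ s, HasDerivAt γ (z - z1) s := fun s => by
    have := ((Complex.ofRealCLM.hasDerivAt (x := s)).mul_const (z - z1)).const_add z1
    simp only [ofRealCLM_apply, ofReal_one, one_mul] at this
    exact this
  have tγ : ∀ s ∈ Icc (0 : ℝ) 1, τ ≤ 1 - ‖γ s‖ := fun s hs => by
    have e1 : γ s = (1 - s) • z1 + s • z := by
      simp only [hγ, real_smul]
      push_cast
      ring
    have e2 := norm_add_le ((1 - s) • z1) (s • z)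
    rw [norm_smul, norm_smul, Real.norm_of_nonneg (by linarith only [hs, hs.2]),
      Real.norm_of_nonneg hs.1, ← e1] at e2
    linarith only [e2, h1, hs, h2, hs.1, hs.2, mul_nonneg_of_nonpos_of_nonpos (Mathlib.Tactic.Linarith.sub_nonpos_of_le h1) (Mathlib.Tactic.Linarith.sub_nonpos_of_le hs.right), mul_nonneg_of_nonpos_of_nonpos (Mathlib.Tactic.Linarith.sub_nonpos_of_le h2) (Mathlib.Tactic.Linarith.sub_nonpos_of_le hs.left)]
  have bγ : ∀ s ∈ Icc (0 : ℝ) 1, γ s ∈ ball (0 : ℂ) 1 := fun s hs =>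
    mem_ball_zero_iff.2 (by linarith [tγ s hs])
  have d := fun s hs => (hf.1.hasDerivAt_kk (dγ s) (bγ s hs)).sub_const (kk f z1)
  have G := norm_le_gronwallBound_of_norm_deriv_right_le (δ := 0) (K := K)
    (ε := K * (1 + |kk f z1|)) (a := 0) (b := 1)
    (fun s hs => (d s hs).continuousAt.continuousWithinAt)
    (fun s hs => (d s (Ico_subset_Icc_self hs)).hasDerivWithinAt) (by simp [hγ])
    (fun s hs => by
      have hs' := Ico_subset_Icc_self hs
      have b := bγ s hs'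
      have b0 := bt_pos b
      have a1 : |(deriv f (γ s) / f (γ s) * (z - z1)).re| ≤
          C * bt (γ s) * (1 + |kk f (γ s)|) * ‖z - z1‖ := by
        refine (abs_re_le_norm _).trans ?_
        rw [norm_mul]
        exact mul_le_mul_of_nonneg_right (Gron_ld hf b) n0.le
      have a2 : |(conj (γ s) * (z - z1)).re| ≤ ‖z - z1‖ := by
        refine (abs_re_le_norm _).trans ?_
        rw [norm_mul, RCLike.norm_conj]
        exact mul_le_of_le_one_left n0.le (mem_ball_zero_iff.1 b).le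
      have a3 : bt (γ s) * τ ≤ 1 :=
        (mul_le_mul_of_nonneg_left (tγ s hs') b0.le).trans (bt_mul_t_le b)
      have a4 : |kk f (γ s)| ≤ |kk f (γ s) - kk f z1| + |kk f z1| := by
        have := abs_add_le (kk f (γ s) - kk f z1) (kk f z1)
        rwa [sub_add_cancel] at this
      have a5 : (C + 2) * bt (γ s) * ‖z - z1‖ ≤ K := by
        rw [hK, le_div_iff₀ hτ]
        have : 0 ≤ (C + 2) * ‖z - z1‖ := by positivity
        linarith only [a3, this, mul_nonneg_of_nonpos_of_nonpos (Mathlib.Tactic.Linarith.sub_nonpos_of_le a3) (Mathlib.Tactic.Linarith.sub_nonpos_of_le this)]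
      rw [Real.norm_eq_abs, Real.norm_eq_abs]
      refine (abs_add_le _ _).trans ?_
      rw [abs_mul (2 * bt (γ s)), abs_of_pos (by positivity : 0 < 2 * bt (γ s))]
      have a6 := mul_le_mul_of_nonneg_left a2 (by positivity : 0 ≤ 2 * bt (γ s))
      have a7 := abs_nonneg (kk f (γ s))
      have a8 : (C + 2) * bt (γ s) * ‖z - z1‖ * (1 + |kk f (γ s)|) ≤
          K * (1 + (|kk f (γ s) - kk f z1| + |kk f z1|)) :=
        mul_le_mul a5 (by linarith only [a4]) (by linarith only [a7]) K0.le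
      linarith only [a1, a6, a8, b0, n0, a7, mul_nonneg (mul_nonneg b0.le n0.le) a7]) 1 (right_mem_Icc.2 zero_le_one)
  rw [gronwallBound_of_K_ne_0 K0.ne'] at G
  simp only [hγ, ofReal_one, one_mul, add_sub_cancel, zero_mul, zero_add, sub_zero, mul_one,
    Real.norm_eq_abs] at G
  rwa [mul_div_cancel_left₀ _ K0.ne'] at G

lemma gron_near (hC : 1 ≤ C) {R : ℝ} (hR : 1 ≤ R) (K : ℝ) : ∃ K' : ℝ, K ≤ K' ∧
    ∀ f : ℂ → ℂ, Mir C f → ∀ z1 ∈ ball (0 : ℂ) 1, |kk f z1| ≤ K → ∀ z ∈ near R z1,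
      |kk f z| ≤ K' := by
  have E1 : 1 ≤ Real.exp ((C + 2) * R ^ 2) := Real.one_le_exp (by positivity)
  refine ⟨(1 + |K|) * Real.exp ((C + 2) * R ^ 2), by linarith only [E1, le_abs_self K, abs_nonneg K, mul_nonneg_of_nonpos_of_nonpos (Mathlib.Tactic.Linarith.sub_nonpos_of_le E1) (Mathlib.Tactic.Linarith.sub_nonpos_of_le (abs_nonneg K))],
    fun f hf z1 h1 hK z hz => ?_⟩
  have p := t_pos h1
  have R0 : 0 < R := by linarith
  have G := gron hC hf (z1 := z1) (z := z) (τ := (1 - ‖z1‖) / R) (by positivity)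
    (div_le_self p.le hR) ((div_le_iff₀' R0).2 hz.2)
  have e : (C + 2) * ‖z - z1‖ / ((1 - ‖z1‖) / R) ≤ (C + 2) * R ^ 2 := by
    rw [div_le_iff₀ (by positivity)]
    have : (C + 2) * R ^ 2 * ((1 - ‖z1‖) / R) = (C + 2) * (R * (1 - ‖z1‖)) := by field_simp
    rw [this]
    exact mul_le_mul_of_nonneg_left hz.1 (by linarith only [hC])
  have e2 := Real.exp_le_exp.2 e
  have a := abs_add_le (kk f z - kk f z1) (kk f z1)
  rw [sub_add_cancel] at a
  have b := abs_nonneg (kk f z1)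
  have c := hK.trans (le_abs_self K)
  have d : (1 + |kk f z1|) * Real.exp ((C + 2) * ‖z - z1‖ / ((1 - ‖z1‖) / R)) ≤
      (1 + |K|) * Real.exp ((C + 2) * R ^ 2) :=
    mul_le_mul (by linarith only [c]) e2 (Real.exp_pos _).le (by positivity)
  linarith only [G, a, d]

lemma deriv_le (hC : 1 ≤ C) (hf : Mir C f) {z : ℂ} (hz : z ∈ ball (0 : ℂ) 1) {K : ℝ}
    (hK : |kk f z| ≤ K) : ‖deriv f z‖ ≤ C * Real.exp K * (1 + K) := by
  refine (hf.2 z hz).trans ?_
  rw [mul_assoc C, mul_comm (bt z), ← hf.1.exp_kk hz]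
  exact mul_le_mul (mul_le_mul_of_nonneg_left (Real.exp_le_exp.2 ((le_abs_self _).trans hK))
    (by linarith)) (by linarith) (by positivity) (by positivity)

/-- if the derivative is not small then `kk` is bounded below -/
lemma kk_lower (hC : 1 ≤ C) : ∃ K : ℝ, 0 ≤ K ∧ ∀ f : ℂ → ℂ, Mir C f → ∀ z ∈ ball (0 : ℂ) 1,
    1 / 2 ≤ ‖deriv f z‖ → -K ≤ kk f z := by
  refine ⟨8 * C, by linarith only [hC], fun f hf z hz h => ?_⟩
  by_contra hc
  rw [not_le] at hc
  have a := h.trans (hf.2 z hz)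
  rw [mul_assoc C, mul_comm (bt z), ← hf.1.exp_kk hz, abs_of_neg (by linarith only [hC, hc])] at a
  set x := -kk f z with hx
  have e : kk f z = -x := by rw [hx, neg_neg]
  rw [e, Real.exp_neg, mul_assoc, inv_mul_eq_div, ← mul_div_assoc,
    le_div_iff₀ (Real.exp_pos _)] at a
  have b := Real.quadratic_le_exp_of_nonneg (x := x) (by linarith only [hC, hc])
  linarith only [hC, hc, a, b, mul_nonneg_of_nonpos_of_nonpos (Mathlib.Tactic.Linarith.sub_nonpos_of_le hC) (Mathlib.Tactic.Linarith.sub_nonpos_of_le hC), mul_nonneg_of_nonpos_of_nonpos (Mathlib.Tactic.Linarith.sub_nonpos_of_le hC) (le_of_lt (Mathlib.Tactic.Linarith.sub_neg_of_lt hc)), mul_pos_of_neg_of_neg (Mathlib.Tactic.Linarith.sub_neg_of_lt hc) (Mathlib.Tactic.Linarith.sub_neg_of_lt hc)]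

end Pool.Agent.Work.MP_6ac3f6_an.PF
end

-- merged part: Pool.Agent.Work.MP_6ac3f6_an.PF.Climb
section
/-!
# Where the derivative is close to one, `kk` becomes large nearby

Choose 0 < b ≤ 1/4 with log (1/(8b)) ≥ K. t = 1 - |z2|, s = 1 - b^2/2. By kk_lower |kk f z2| ≤ K1 = max K K*.
ball z2 (s t) lies in near R z2 for R = 2/b^2, so |kk| ≤ K' and |f' - 1| ≤ M + 1 there. harnack_log for
f' - 1 on ball z2 (s t): on closedBall z2 ((1-b^2) t), log ((M+1)/|f'-1|) ≥ (b^2/4) log ((M+1)/d) ≥ log (2 (M+1))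
for small d, so |f' - 1| ≤ 1/2. With u of norm one, z2 = |z2| u, the points
z± = z2 + t u ((1 - 2b^2) ± b I) lie in that closed ball, 1 - |z±| ≤ 2 b^2 t (real part against conj u),
|z+ - z-| = 2 b t, and the mean value inequality for f - id gives |f z+ - f z-| ≥ b t. So one of them has
|f| ≥ b t / 2 and |f| bt ≥ |f| / (2 (1 - |z|)) ≥ 1/(8 b).
-/

set_option autoImplicit false

namespace Pool.Agent.Work.MP_6ac3f6_an.PF

open Complex Metric Set Filter Topology Real MeasureTheory ComplexConjugate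

lemma Climb_unit (z : ℂ) : ∃ u : ℂ, ‖u‖ = 1 ∧ z = (‖z‖ : ℂ) * u :=
  ⟨Complex.exp (arg z * I), norm_exp_ofReal_mul_I _, (norm_mul_exp_arg_mul_I z).symm⟩

lemma Climb_pt {z u : ℂ} (hu : ‖u‖ = 1) (e : z = (‖z‖ : ℂ) * u) {t b σ : ℝ} (ht : 0 ≤ t)
    (hb0 : 0 ≤ b) (hb : b ≤ 1 / 4) (hσ : σ ^ 2 = 1) :
    ‖(t : ℂ) * u * (((1 - 2 * b ^ 2 : ℝ) : ℂ) + (σ * b : ℝ) * I)‖ ≤ (1 - b ^ 2) * t ∧
    ‖z‖ + t * (1 - 2 * b ^ 2) ≤
      ‖z + (t : ℂ) * u * (((1 - 2 * b ^ 2 : ℝ) : ℂ) + (σ * b : ℝ) * I)‖ := by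
  constructor
  · rw [norm_mul, norm_mul, hu, Complex.norm_real, Real.norm_of_nonneg ht, mul_one, mul_comm]
    refine mul_le_mul_of_nonneg_right ?_ ht
    rw [norm_add_mul_I]
    refine Real.sqrt_le_iff.2 ⟨by linarith only [hb, hb0, mul_nonneg_of_nonpos_of_nonpos (Mathlib.Tactic.Linarith.sub_nonpos_of_le hb0) (Mathlib.Tactic.Linarith.sub_nonpos_of_le hb)], ?_⟩
    have : b ^ 2 ≤ 1 / 16 := by linarith only [hb, hb0, mul_nonneg_of_nonpos_of_nonpos (Mathlib.Tactic.Linarith.sub_nonpos_of_le hb0) (Mathlib.Tactic.Linarith.sub_nonpos_of_le hb)]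
    rw [mul_pow, hσ]
    linarith only [this, sq_nonneg b, sq_nonneg b, mul_nonneg_of_nonpos_of_nonpos (Mathlib.Tactic.Linarith.sub_nonpos_of_le (sq_nonneg b)) (Mathlib.Tactic.Linarith.sub_nonpos_of_le this)]
  · have e2 : z + (t : ℂ) * u * (((1 - 2 * b ^ 2 : ℝ) : ℂ) + (σ * b : ℝ) * I) =
        u * (((‖z‖ + t * (1 - 2 * b ^ 2) : ℝ) : ℂ) + (t * (σ * b) : ℝ) * I) := by
      nth_rewrite 1 [e]
      push_cast
      ring
    rw [e2, norm_mul, hu, one_mul]
    refine le_trans (le_of_eq ?_) (re_le_norm _)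
    simp only [add_re, ofReal_re, mul_re, I_re, mul_zero, ofReal_im, I_im, mul_one, sub_self,
      add_zero]

lemma climb {C : ℝ} (hC : 1 ≤ C) (K : ℝ) : ∃ δ R K' : ℝ, 0 < δ ∧ δ ≤ 1 / 2 ∧ 1 ≤ R ∧
    ∀ f : ℂ → ℂ, Mir C f → ∀ z2 ∈ ball (0 : ℂ) 1, ‖deriv f z2 - 1‖ ≤ δ → kk f z2 ≤ K →
      ∃ z3 ∈ near R z2, K ≤ kk f z3 ∧ kk f z3 ≤ K' ∧ ‖deriv f z3 - 1‖ ≤ 1 / 2 := by
  obtain ⟨K0, hK0, hlow⟩ := kk_lower hC
  set b := Real.exp (-|K|) / 8 with hb
  have b0 : 0 < b := by positivity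
  have b1 : b ≤ 1 / 4 := by
    have : Real.exp (-|K|) ≤ 1 := Real.exp_le_one_iff.2 (by simp)
    linarith only [hb, b0, this]
  have b2 : b ^ 2 ≤ 1 / 16 := by linarith only [pow_le_pow_left₀ b0.le b1 2]
  have bb : 0 < b ^ 2 := by positivity
  have R1 : 1 ≤ 2 / b ^ 2 := (le_div_iff₀ bb).2 (by linarith only [b2, bb])
  obtain ⟨K', hK', hg⟩ := gron_near hC R1 (max K K0)
  have K'0 : 0 ≤ K' := hK0.trans ((le_max_right _ _).trans hK')
  set M := C * Real.exp K' * (1 + K') + 1 with hM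
  have M1 : 1 ≤ M := by
    have : 0 ≤ C * Real.exp K' * (1 + K') := by positivity
    linarith only [this]
  have L0 : 0 < Real.log (2 * M) := Real.log_pos (by linarith only [b2, bb, M1])
  set δ := min (1 / 2) (Real.exp (-(4 / b ^ 2 * Real.log (2 * M)))) with hδ
  refine ⟨δ, 2 / b ^ 2, K', lt_min (by norm_num) (Real.exp_pos _), min_le_left _ _, R1,
    fun f hf z hz h1 h2 => ?_⟩
  have p := t_pos hz
  set t := 1 - ‖z‖ with ht
  have M0 : 0 < M := by linarith only [M1]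
  have bt2 : 0 < b ^ 2 * t := mul_pos bb p
  have bt3 : b ^ 2 * t ≤ 1 / 16 * t := mul_le_mul_of_nonneg_right b2 p.le
  have k1 : |kk f z| ≤ max K K0 := by
    have : 1 / 2 ≤ ‖deriv f z‖ := by
      have a := norm_sub_norm_le (1 : ℂ) (deriv f z)
      rw [norm_one, norm_sub_rev] at a
      linarith only [a, h1.trans (min_le_left _ _)]
    exact abs_le.2 ⟨by linarith only [hlow f hf z hz this, le_max_right K K0],
      h2.trans (le_max_left _ _)⟩
  have sub : ∀ w ∈ ball z ((1 - b ^ 2 / 2) * t), w ∈ near (2 / b ^ 2) z := fun w hw => by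
    rw [mem_ball_iff_norm] at hw
    have a : ‖w‖ ≤ ‖w - z‖ + ‖z‖ := by
      have := norm_add_le (w - z) z
      rwa [sub_add_cancel] at this
    refine ⟨show ‖w - z‖ ≤ 2 / b ^ 2 * t by
      linarith only [hw, bt2, mul_le_mul_of_nonneg_right R1 p.le], ?_⟩
    rw [div_mul_eq_mul_div, le_div_iff₀ bb, ← ht]
    linarith only [a, hw, ht]
  have subb : ∀ w ∈ ball z ((1 - b ^ 2 / 2) * t), w ∈ ball (0 : ℂ) 1 := fun w hw =>
    near_ball R1 hz (sub w hw)
  have close : ∀ w ∈ closedBall z ((1 - b ^ 2) * t), ‖deriv f w - 1‖ ≤ 1 / 2 := fun w hw => by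
    rw [mem_closedBall_iff_norm] at hw
    have hw' : w ∈ ball z ((1 - b ^ 2 / 2) * t) :=
      mem_ball_iff_norm.2 (by linarith only [hw, bt2])
    have H := harnack_log (g := fun w => deriv f w - 1) (M := M) (c := z) (z := w)
      (fun x hx => ((hf.1.an1 x (subb x hx)).differentiableAt.sub_const 1).differentiableWithinAt)
      (fun x hx => sub_ne_zero.2 (hf.1.2.2 x (subb x hx)))
      (fun x hx => by
        have := deriv_le hC hf (subb x hx) (hg f hf z hz k1 x (sub x hx))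
        have a := norm_sub_le (deriv f x) 1
        rw [norm_one] at a
        linarith only [this, a, hM]) hw'
    have n1 : 0 < ‖deriv f z - 1‖ := norm_pos_iff.2 (sub_ne_zero.2 (hf.1.2.2 z hz))
    have n2 : 0 < ‖deriv f w - 1‖ := norm_pos_iff.2 (sub_ne_zero.2 (hf.1.2.2 w (subb w hw')))
    have a1 : 4 / b ^ 2 * Real.log (2 * M) ≤ Real.log (M / ‖deriv f z - 1‖) := by
      rw [Real.log_div M0.ne' n1.ne']
      have := Real.log_le_log n1 (h1.trans (min_le_right _ _))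
      rw [Real.log_exp] at this
      linarith only [this, Real.log_nonneg M1]
    have a2 : 4 / b ^ 2 * Real.log (2 * M) * (b ^ 2 / 2 * t) ≤
        Real.log (M / ‖deriv f z - 1‖) * ((1 - b ^ 2 / 2) * t - ‖w - z‖) :=
      mul_le_mul a1 (by linarith only [hw]) (by linarith only [bt2]) (le_trans (by positivity) a1)
    have a3 : 4 / b ^ 2 * Real.log (2 * M) * (b ^ 2 / 2 * t) = Real.log (2 * M) * (2 * t) := by
      field_simp
      norm_num
    have a4 : Real.log (2 * M) ≤ Real.log (M / ‖deriv f w - 1‖) := by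
      by_contra hc
      rw [not_le] at hc
      have n3 := norm_nonneg (w - z)
      have q0 : 0 < (1 - b ^ 2 / 2) * t + ‖w - z‖ := by linarith only [bt3, p, n3]
      have q1 : (1 - b ^ 2 / 2) * t + ‖w - z‖ ≤ 2 * t := by linarith only [hw, bt2]
      have q2 := mul_lt_mul_of_pos_right hc q0
      have q3 := mul_le_mul_of_nonneg_left q1 L0.le
      linarith only [H, a2, a3, q2, q3]
    rw [Real.log_le_log_iff (by linarith only [M0]) (div_pos M0 n2), le_div_iff₀ n2] at a4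
    exact le_of_mul_le_mul_left (by linarith only [a4]) M0
  obtain ⟨u, hu, e⟩ := Climb_unit z
  set P : ℝ → ℂ := fun σ => z + (t : ℂ) * u * (((1 - 2 * b ^ 2 : ℝ) : ℂ) + (σ * b : ℝ) * I)
    with hP
  have P1 : ∀ σ : ℝ, σ ^ 2 = 1 → P σ ∈ closedBall z ((1 - b ^ 2) * t) := fun σ hσ => by
    rw [mem_closedBall_iff_norm, hP]
    simp only [add_sub_cancel_left]
    exact (Climb_pt hu e p.le b0.le b1 hσ).1
  have cb : ∀ w ∈ closedBall z ((1 - b ^ 2) * t), w ∈ ball z ((1 - b ^ 2 / 2) * t) :=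
    fun w hw => closedBall_subset_ball (by linarith only [bt2]) hw
  have fin : ∀ σ : ℝ, σ ^ 2 = 1 → b * t / 2 ≤ ‖f (P σ)‖ →
      ∃ z3 ∈ near (2 / b ^ 2) z, K ≤ kk f z3 ∧ kk f z3 ≤ K' ∧ ‖deriv f z3 - 1‖ ≤ 1 / 2 := by
    intro σ hσ h
    have m := cb _ (P1 σ hσ)
    have mb := subb _ m
    refine ⟨P σ, sub _ m, ?_, (le_abs_self _).trans (hg f hf z hz k1 _ (sub _ m)),
      close _ (P1 σ hσ)⟩
    have a1 : 1 - ‖P σ‖ ≤ 2 * b ^ 2 * t := by
      have := (Climb_pt hu e p.le b0.le b1 hσ).2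
      simp only [hP]
      linarith only [this, ht]
    have a2 := one_le_two_bt_mul_t mb
    have a3 := bt_pos mb
    have a4 : 1 ≤ 4 * b ^ 2 * t * bt (P σ) := by
      linarith only [a2, mul_le_mul_of_nonneg_left a1 a3.le]
    have a5 : b * t / 2 * bt (P σ) ≤ Real.exp (kk f (P σ)) := by
      rw [hf.1.exp_kk mb]
      exact mul_le_mul_of_nonneg_right h a3.le
    have a6 : 1 ≤ 8 * b * Real.exp (kk f (P σ)) := by
      linarith only [a4, mul_le_mul_of_nonneg_left a5 b0.le]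
    rw [hb, mul_div_cancel₀ _ (by norm_num), ← Real.exp_add, Real.one_le_exp_iff] at a6
    linarith only [a6, le_abs_self K]
  have mv := (convex_closedBall z ((1 - b ^ 2) * t)).norm_image_sub_le_of_norm_hasDerivWithin_le
    (f := fun w => f w - w) (f' := fun w => deriv f w - 1) (C := 1 / 2)
    (fun x hx => (((hf.1.an x (subb x (cb x hx))).differentiableAt.hasDerivAt).sub
      (hasDerivAt_id x)).hasDerivWithinAt) close (P1 (-1) (by norm_num)) (P1 1 (by norm_num))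
  have nd : ‖P 1 - P (-1)‖ = 2 * b * t := by
    have : P 1 - P (-1) = ((2 * b * t : ℝ) : ℂ) * u * I := by
      simp only [hP]
      push_cast
      ring
    rw [this, norm_mul, norm_mul, hu, norm_I, Complex.norm_real, Real.norm_of_nonneg (by positivity)]
    ring
  have tri : ‖P 1 - P (-1)‖ ≤ ‖f (P 1)‖ + ‖f (P (-1))‖ +
      ‖f (P 1) - P 1 - (f (P (-1)) - P (-1))‖ := by
    have a := norm_sub_le (f (P 1) - f (P (-1))) (f (P 1) - P 1 - (f (P (-1)) - P (-1)))
    rw [show f (P 1) - f (P (-1)) - (f (P 1) - P 1 - (f (P (-1)) - P (-1))) = P 1 - P (-1) by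
      ring] at a
    linarith only [a, norm_sub_le (f (P 1)) (f (P (-1)))]
  rw [nd] at mv tri
  rcases le_total (b * t / 2) ‖f (P 1)‖ with h | h
  · exact fin 1 (by norm_num) h
  · exact fin (-1) (by norm_num) (by linarith only [h, mv, tri])

end Pool.Agent.Work.MP_6ac3f6_an.PF
end

-- merged part: Pool.Agent.Work.MP_6ac3f6_an.PF.Mod
section
/-!
# A uniform modulus of continuity where `kk` is bounded

t = 1 - |z|. ball z (t/2) lies in near 2 z, so |kk| ≤ K' and |f'| ≤ M there (gron_near, deriv_le).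
Cauchy estimates: |f''| ≤ 4 M / t on ball z (t/4), |f'''| ≤ 32 M / t^2 on ball z (t/8); the mean value
inequality on ball z (p t) gives the two bounds for small p (1/t ≤ 2 bt z). For kk use gron with
T = t/2. For p ≤ 1/8: 1 - |w|^2 ≤ 2 (1 - |z|^2).
-/

set_option autoImplicit false

namespace Pool.Agent.Work.MP_6ac3f6_an.PF

open Complex Metric Set Filter Topology Real MeasureTheory ComplexConjugate

lemma Mod_maps {g : ℂ → ℂ} {z : ℂ} {r M : ℝ} (hr : 0 < r) (h : ∀ w ∈ ball z r, ‖g w‖ ≤ M) :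
    MapsTo g (ball z r) (closedBall (g z) (2 * M)) := fun w hw => by
  rw [mem_closedBall, dist_eq_norm]
  linarith only [h, hw, hr, norm_sub_le (g w) (g z), h w hw, h z (mem_ball_self hr)]

lemma Mod_lip {g : ℂ → ℂ} {z w : ℂ} {r M : ℝ} (hr : 0 < r) (hd : DifferentiableOn ℂ g (ball z r))
    (h : ∀ w ∈ ball z r, ‖g w‖ ≤ M) (hw : w ∈ ball z r) : ‖g w - g z‖ ≤ 2 * M / r * ‖w - z‖ := by
  simpa only [dist_eq_norm] using dist_le_div_mul_dist_of_mapsTo_ball hd (Mod_maps hr h) hw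

lemma Mod_der {g : ℂ → ℂ} {z w : ℂ} {r M : ℝ} (hr : 0 < r)
    (hd : DifferentiableOn ℂ g (ball z (r + r))) (h : ∀ w ∈ ball z (r + r), ‖g w‖ ≤ M)
    (hw : w ∈ ball z r) : ‖deriv g w‖ ≤ 2 * M / r := by
  have s : ball w r ⊆ ball z (r + r) := ball_subset_ball' (by linarith only [hw, mem_ball.1 hw])
  exact norm_deriv_le_div_of_mapsTo_ball (hd.mono s) (Mod_maps hr fun u hu => h u (s hu)) hr

lemma Mod_near {z w : ℂ} (hw : w ∈ ball z ((1 - ‖z‖) / 2)) : w ∈ near 2 z := by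
  rw [mem_ball, dist_eq_norm] at hw
  have := norm_nonneg (w - z)
  exact ⟨by linarith only [hw, this], by linarith only [hw, norm_sub_norm_le w z]⟩

lemma modulus {C : ℝ} (hC : 1 ≤ C) (K : ℝ) {κ : ℝ} (hκ : 0 < κ) : ∃ ρ : ℝ, 0 < ρ ∧ ρ ≤ 1 / 8 ∧
    ∀ f : ℂ → ℂ, Mir C f → ∀ z ∈ ball (0 : ℂ) 1, |kk f z| ≤ K →
    ∀ w ∈ ball z (ρ * (1 - ‖z‖)), w ∈ near 2 z ∧ |kk f w - kk f z| ≤ 1 ∧
      ‖deriv f w - deriv f z‖ ≤ κ ∧
      ‖deriv (deriv f) w - deriv (deriv f) z‖ ≤ κ * bt z ∧ bt z ≤ 2 * bt w := by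
  obtain ⟨K', k1, k2⟩ := gron_near hC one_le_two |K|
  have k0 := abs_nonneg K
  obtain ⟨M, hM⟩ : ∃ M, M = C * Real.exp K' * (1 + K') := ⟨_, rfl⟩
  have M0 : 0 < M := hM ▸ mul_pos (mul_pos (by linarith) (Real.exp_pos _)) (by linarith)
  have A0 : 0 < 4 * (1 + |K|) * (C + 2) := mul_pos (by linarith only [k0]) (by linarith)
  obtain ⟨ρ, r0, r1, r2, r3⟩ : ∃ ρ : ℝ, 0 < ρ ∧ ρ ≤ 1 / 8 ∧ ρ * (128 * M) ≤ κ ∧
      ρ * (4 * (1 + |K|) * (C + 2)) ≤ 1 :=
    ⟨min (1 / 8) (min (κ / (128 * M)) (1 / (4 * (1 + |K|) * (C + 2)))), by positivity,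
      min_le_left _ _, (le_div_iff₀ (by positivity)).1 ((min_le_right _ _).trans (min_le_left _ _)),
      (le_div_iff₀ A0).1 ((min_le_right _ _).trans (min_le_right _ _))⟩
  refine ⟨ρ, r0, r1, fun f hf z hz hK w hw => ?_⟩
  have t0 := t_pos hz
  have hK' := hK.trans (le_abs_self K)
  have n1 : ‖w - z‖ < ρ * (1 - ‖z‖) := by rwa [mem_ball, dist_eq_norm] at hw
  have n2 : ρ * (1 - ‖z‖) ≤ (1 - ‖z‖) / 8 := by
    linarith only [mul_le_mul_of_nonneg_right r1 t0.le]
  have t2 : 0 < (1 - ‖z‖) / 2 := half_pos t0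
  have t4 : 0 < (1 - ‖z‖) / 4 := by linarith only [t0]
  have C2 : 0 ≤ C + 2 := by linarith only [hC]
  have w4 : w ∈ ball z ((1 - ‖z‖) / 4) := ball_subset_ball (by linarith only [n2, t0]) hw
  have w2 : w ∈ ball z ((1 - ‖z‖) / 2) := ball_subset_ball (by linarith only [n2, t0]) hw
  have s2 : ball z ((1 - ‖z‖) / 2) ⊆ ball 0 1 := fun u hu => near_ball one_le_two hz (Mod_near hu)
  have b1 : ∀ u ∈ ball z ((1 - ‖z‖) / 2), ‖deriv f u‖ ≤ M := fun u hu =>
    hM ▸ deriv_le hC hf (s2 hu) (k2 f hf z hz hK' u (Mod_near hu))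
  have d1 : DifferentiableOn ℂ (deriv f) (ball z ((1 - ‖z‖) / 2)) :=
    hf.1.an.deriv.differentiableOn.mono s2
  have d2 : DifferentiableOn ℂ (deriv (deriv f)) (ball z ((1 - ‖z‖) / 4)) :=
    (hf.1.an.deriv.deriv.differentiableOn.mono s2).mono (ball_subset_ball (by linarith only [t0]))
  have e4 : (1 - ‖z‖) / 2 = (1 - ‖z‖) / 4 + (1 - ‖z‖) / 4 := by ring
  have b2 : ∀ u ∈ ball z ((1 - ‖z‖) / 4), ‖deriv (deriv f) u‖ ≤ 2 * M / ((1 - ‖z‖) / 4) :=
    fun u hu => Mod_der t4 (e4 ▸ d1) (e4 ▸ b1) hu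
  have a1 := norm_sub_norm_le w z
  have a2 := norm_sub_norm_le z w
  rw [norm_sub_rev] at a2
  refine ⟨Mod_near w2, ?_, ?_, ?_, ?_⟩
  · have g := gron hC hf (z1 := z) (z := w) (τ := (1 - ‖z‖) / 2) t2 (half_le_self t0.le)
      (by linarith only [a1, n1, n2, t0])
    obtain ⟨x, hx⟩ : ∃ x, x = (C + 2) * ‖w - z‖ / ((1 - ‖z‖) / 2) := ⟨_, rfl⟩
    have x0 : 0 ≤ x := hx ▸ div_nonneg (mul_nonneg C2 (norm_nonneg _)) t2.le
    have x1 : x ≤ 2 * (C + 2) * ρ := by
      rw [hx, div_le_iff₀ t2]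
      linarith only [mul_le_mul_of_nonneg_left n1.le C2]
    have x2 : 0 ≤ |K| * ((C + 2) * ρ) := mul_nonneg k0 (mul_nonneg C2 r0.le)
    have x3 := (le_abs_self _).trans (Real.abs_exp_sub_one_le (x := x) (by
      rw [abs_of_nonneg x0]
      linarith only [x1, x2, r3, mul_nonneg C2 r0.le]))
    rw [abs_of_nonneg x0] at x3
    rw [← hx] at g
    have x4 : (1 + |kk f z|) * (Real.exp x - 1) ≤ (1 + |K|) * (2 * (2 * (C + 2) * ρ)) :=
      mul_le_mul (add_le_add le_rfl hK') (by linarith only [x1, x3])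
        (by linarith only [x0, Real.add_one_le_exp x]) (add_nonneg zero_le_one k0)
    linarith only [g, x4, r3]
  · refine (Mod_lip t2 d1 b1 w2).trans ?_
    rw [div_mul_eq_mul_div, div_le_iff₀ t2]
    linarith only [mul_le_mul_of_nonneg_left n1.le M0.le, mul_le_mul_of_nonneg_right r2 t0.le,
      mul_pos (mul_pos r0 M0) t0]
  · refine (Mod_lip t4 d2 b2 w4).trans ?_
    have e : 2 * (2 * M / ((1 - ‖z‖) / 4)) / ((1 - ‖z‖) / 4) * (ρ * (1 - ‖z‖)) =
        ρ * (128 * M) * (1 / (2 * (1 - ‖z‖))) := by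
      field_simp
      ring
    refine (mul_le_mul_of_nonneg_left n1.le (by positivity)).trans ?_
    rw [e]
    refine mul_le_mul r2 ?_ (by positivity) hκ.le
    rw [div_le_iff₀ (by linarith only [t0])]
    linarith only [one_le_two_bt_mul_t hz]
  · have p1 := t_pos (s2 w2)
    have p2 := norm_nonneg z
    have p3 := norm_nonneg w
    have p4 : (1 - ‖w‖) * (1 + ‖w‖) ≤ (9 / 8 * (1 - ‖z‖)) * (9 / 8 * (1 + ‖z‖)) :=
      mul_le_mul (by linarith only [a2, n1, n2]) (by linarith only [a1, n1, n2, p2])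
        (by linarith only [p3]) (by linarith only [t0])
    have p5 : 0 < (1 - ‖z‖) * (1 + ‖z‖) := mul_pos t0 (by linarith only [p2])
    have p6 : 0 < (1 - ‖w‖) * (1 + ‖w‖) := mul_pos p1 (by linarith only [p3])
    unfold bt
    rw [← div_eq_mul_inv, inv_eq_one_div,
      div_le_div_iff₀ (by linarith only [p5]) (by linarith only [p6])]
    linarith only [p4, p5]

end Pool.Agent.Work.MP_6ac3f6_an.PF
end
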