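import Pool.Agent.Work.MP_6ac3f6_an.PF.MirB
import Pool.Agent.Work.MP_6ac3f6_an.PF.Mod

-- merged part: Pool.Agent.Work.MP_6ac3f6_an.PF.LapD
section
/-!
# The weight in the target plane

s = |F|^2, lphi (F w) = Psi (s w) with Psi x = log 2 + m/2 - log (1 + m), m = log (1 + x).
Psi' = (1/2 - 1/(1+m)) / (1+x), Psi'' = -(1/2 - 1/(1+m)) / (1+x)^2 + 1 / ((1+m)^2 (1+x)^2).
With nsq, Lap = 4 |F'|^2 (Psi' + x Psi'') = 4 |F'|^2 ((1/2 - 1/(1+m)) + x / (1+m)^2) / (1+x)^2.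
Use |F|^2 |F-1|^2 ≤ 2 x (1+x), exp (2 lphi) = 4 (1+x) / (1+m)^2 and (1+m)^2 ≤ 2 (1+x) = 2 exp m:
the left side is at most 4 |F'|^2 (1 + 2 (1+x)/(1+m)^2) ≤ 16 |F'|^2 (1+x)/(1+m)^2.
-/

set_option autoImplicit false

namespace Pool.Agent.Work.MP_6ac3f6_an.PF

open Complex Metric Set Filter Topology Real MeasureTheory ComplexConjugate

variable {F : ℂ → ℂ} {z w : ℂ}

lemma LapD_m (w : ℂ) : 0 ≤ Real.log (1 + ‖w‖ ^ 2) :=
  Real.log_nonneg (le_add_of_nonneg_right (sq_nonneg _))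

lemma LapD_s (w : ℂ) : 1 ≤ √(1 + ‖w‖ ^ 2) :=
  Real.le_sqrt_of_sq_le (by linarith only [sq_nonneg ‖w‖])

lemma exp_lphi (w : ℂ) :
    Real.exp (lphi w) = 2 * √(1 + ‖w‖ ^ 2) / (1 + Real.log (1 + ‖w‖ ^ 2)) := by
  have h1 : 0 < 1 + ‖w‖ ^ 2 := by positivity
  have h2 : 0 < 1 + Real.log (1 + ‖w‖ ^ 2) := by linarith [LapD_m w]
  rw [lphi, Real.exp_sub, Real.exp_add, Real.exp_log two_pos, Real.exp_log h2,
    ← Real.log_sqrt h1.le, Real.exp_log (Real.sqrt_pos.2 h1)]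

lemma mul_exp_neg_lphi (w : ℂ) :
    ‖w‖ * Real.exp (-lphi w) = ‖w‖ * (1 + Real.log (1 + ‖w‖ ^ 2)) / (2 * √(1 + ‖w‖ ^ 2)) := by
  rw [Real.exp_neg, exp_lphi, inv_div, mul_div_assoc]

lemma lphi_upper (w : ℂ) :
    ‖w‖ * Real.exp (-lphi w) ≤ (1 + Real.log (1 + ‖w‖ ^ 2)) * min 1 ‖w‖ := by
  have h1 := LapD_m w
  have h2 := LapD_s w
  have h3 : ‖w‖ ≤ √(1 + ‖w‖ ^ 2) := Real.le_sqrt_of_sq_le (by linarith)
  have h0 := norm_nonneg w
  rw [mul_exp_neg_lphi, mul_comm ‖w‖, mul_div_assoc]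
  refine mul_le_mul_of_nonneg_left (le_min ?_ ?_) (by linarith)
  · rw [div_le_one (by linarith)]; linarith
  · exact div_le_self h0 (by linarith)

lemma lphi_lower {M : ℝ} (hw : ‖w‖ ≤ M) : ‖w‖ / (2 * (1 + M)) ≤ ‖w‖ * Real.exp (-lphi w) := by
  have h1 := LapD_m w
  have h2 := LapD_s w
  have h0 := norm_nonneg w
  have h3 : √(1 + ‖w‖ ^ 2) ≤ 1 + M := (Real.sqrt_le_left (by linarith)).2 (by nlinarith)
  rw [mul_exp_neg_lphi]
  exact div_le_div₀ (by positivity) (by nlinarith) (by linarith) (by linarith)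

lemma lphi_large (hw : 1 ≤ ‖w‖) :
    (1 + Real.log (1 + ‖w‖ ^ 2)) / 3 ≤ ‖w‖ * Real.exp (-lphi w) := by
  have h1 := LapD_m w
  have h2 := LapD_s w
  have h3 : √(1 + ‖w‖ ^ 2) ≤ 3 / 2 * ‖w‖ := (Real.sqrt_le_left (by linarith)).2 (by nlinarith)
  rw [mul_exp_neg_lphi, div_le_div_iff₀ (by norm_num) (by linarith)]
  nlinarith

lemma lphi_lap (hF : AnalyticAt ℂ F z) :
    ContDiffAt ℝ 2 (fun w => lphi (F w)) z ∧
    ‖F z‖ ^ 2 * ‖F z - 1‖ ^ 2 * Lap (fun w => lphi (F w)) z ≤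
      4 * Real.exp (2 * lphi (F z)) * ‖deriv F z‖ ^ 2 := by
  obtain ⟨n1, -, -, n2, n3⟩ := nsq hF
  have hm := LapD_m (F z)
  have hE : Real.exp (2 * lphi (F z)) =
      4 * (1 + ‖F z‖ ^ 2) / (1 + Real.log (1 + ‖F z‖ ^ 2)) ^ 2 := by
    rw [two_mul, Real.exp_add, ← sq, exp_lphi, div_pow, mul_pow, Real.sq_sqrt (by positivity)]
    norm_num
  have hP : ‖F z - 1‖ ^ 2 ≤ 2 * (1 + ‖F z‖ ^ 2) := by
    have h1 := norm_sub_le (F z) 1
    rw [norm_one] at h1
    have h2 := pow_le_pow_left₀ (norm_nonneg _) h1 2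
    linarith only [h2, sq_nonneg (‖F z‖ - 1)]
  have hx : 0 ≤ ‖F z‖ ^ 2 := sq_nonneg _
  have p1 : 0 < 1 + ‖F z‖ ^ 2 := by linarith
  have p2 : 0 < 1 + Real.log (1 + ‖F z‖ ^ 2) := by linarith
  have c1 : ContDiffAt ℝ 2 (fun x : ℝ => Real.log (1 + x)) (‖F z‖ ^ 2) :=
    (contDiffAt_const.add contDiffAt_id).log p1.ne'
  have cΦ : ContDiffAt ℝ 2
      (fun x : ℝ => Real.log 2 + Real.log (1 + x) / 2 - Real.log (1 + Real.log (1 + x)))
      (‖F z‖ ^ 2) :=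
    (contDiffAt_const.add (c1.div_const 2)).sub ((contDiffAt_const.add c1).log p2.ne')
  have d0 : ∀ x : ℝ, 0 < 1 + x → HasDerivAt (fun x : ℝ => Real.log (1 + x)) (1 / (1 + x)) x :=
    fun x hx => ((hasDerivAt_id' x).const_add 1).log hx.ne'
  have d1 : ∀ᶠ x in 𝓝 (‖F z‖ ^ 2), HasDerivAt
      (fun x : ℝ => Real.log 2 + Real.log (1 + x) / 2 - Real.log (1 + Real.log (1 + x)))
      ((1 / 2 - (1 + Real.log (1 + x))⁻¹) * (1 + x)⁻¹) x := by
    filter_upwards [(continuousAt_const.add continuousAt_id).eventually (lt_mem_nhds p1),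
      (continuousAt_const.add c1.continuousAt).eventually (lt_mem_nhds p2)] with x h1 h2
    have h1' : 0 < 1 + x := h1
    have h2' : 0 < 1 + Real.log (1 + x) := h2
    refine ((((d0 x h1').div_const 2).const_add (Real.log 2)).fun_sub
      (((d0 x h1').const_add 1).log h2'.ne')).congr_deriv ?_
    field_simp
  have d2 := ((((d0 _ p1).const_add 1).fun_inv p2.ne').const_sub (1 / 2)).fun_mul
    (((hasDerivAt_id' (‖F z‖ ^ 2)).const_add 1).fun_inv p1.ne')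
  refine ⟨ContDiffAt.comp (f := fun w => ‖F w‖ ^ 2) z cΦ n1, ?_⟩
  have hL := Lap_comp' n1 cΦ d1 d2
  have hq := Real.quadratic_le_exp_of_nonneg hm
  rw [Real.exp_log p1] at hq
  change _ * Lap (fun w => Real.log 2 + Real.log (1 + ‖F w‖ ^ 2) / 2 -
    Real.log (1 + Real.log (1 + ‖F w‖ ^ 2))) z ≤ _
  rw [hL, n2, n3, hE]
  have hD := sq_nonneg ‖deriv F z‖
  have hP0 := sq_nonneg ‖F z - 1‖
  generalize ‖deriv F z‖ ^ 2 = D at *
  generalize ‖F z - 1‖ ^ 2 = P at *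
  generalize Real.log (1 + ‖F z‖ ^ 2) = m at *
  generalize ‖F z‖ ^ 2 = x at *
  calc _ = 4 * D * (x * P / (1 + x) ^ 2 * (1 / 2 - (1 + m)⁻¹ + x / (1 + m) ^ 2)) := by
        field_simp; ring
    _ ≤ 4 * D * (x * P / (1 + x) ^ 2 * (1 / 2 + x / (1 + m) ^ 2)) := by
        have : 0 ≤ (1 + m)⁻¹ := by positivity
        gcongr; linarith
    _ ≤ 4 * D * (2 * ((1 + x) / (1 + m) ^ 2 + (1 + x) / (1 + m) ^ 2)) := by
        have a1 : x * P / (1 + x) ^ 2 ≤ 2 := by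
          rw [div_le_iff₀ (pow_pos p1 2)]
          linarith only [mul_le_mul_of_nonneg_left hP hx, hx]
        have a2 : 1 / 2 ≤ (1 + x) / (1 + m) ^ 2 := by
          rw [le_div_iff₀ (pow_pos p2 2)]
          linarith only [hq]
        have a3 : x / (1 + m) ^ 2 ≤ (1 + x) / (1 + m) ^ 2 := by gcongr; linarith
        exact mul_le_mul_of_nonneg_left (mul_le_mul a1 (add_le_add a2 a3) (by positivity)
          (by norm_num)) (by positivity)
    _ = _ := by ring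

end Pool.Agent.Work.MP_6ac3f6_an.PF
end

-- merged part: Pool.Agent.Work.MP_6ac3f6_an.PF.Seg
section
/-!
# A segment which avoids zero and one

w = 1 + d I if Im w1 ≥ 0, else 1 - d I. A point x = (1-s) w1 + s w has |Im x| ≥ s d and
|x - w1| ≤ s (M+2). With s0 = min e d / (2 (M+2)): for s ≤ s0 both |x| and |x - 1| are at least
min e d / 2, for s ≥ s0 at least s0 d. Take 4 eta = min of these numbers and 1.
-/

set_option autoImplicit false

namespace Pool.Agent.Work.MP_6ac3f6_an.PF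

open Complex Metric Set Filter Topology Real MeasureTheory ComplexConjugate

lemma Seg_aux {ε M δ σ : ℝ} (hε : 0 < ε) (hM : 0 ≤ M) (hδ : 0 < δ) (hδ1 : δ ≤ 1) {w1 : ℂ}
    (h1 : ε ≤ ‖w1‖) (h2 : ‖w1‖ ≤ M) (h3 : δ ≤ ‖w1 - 1‖) (hσ : σ = 1 ∨ σ = -1)
    (hs : 0 ≤ σ * w1.im) {x : ℂ} (hx : x ∈ segment ℝ w1 (1 + (σ * δ : ℝ) * I)) :
    min ε δ * δ / (2 * (M + 2)) ≤ ‖x‖ ∧ min ε δ * δ / (2 * (M + 2)) ≤ ‖x - 1‖ ∧ ‖x‖ ≤ M + 2 := by
  have σ1 : |σ| = 1 := by rcases hσ with h | h <;> simp [h]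
  have σ2 : σ * σ = 1 := by rcases hσ with h | h <;> simp [h]
  have nw : ‖(1 + (σ * δ : ℝ) * I : ℂ)‖ ≤ 2 := by
    refine (norm_add_le _ _).trans ?_
    rw [norm_one, norm_mul, norm_I, Complex.norm_real, Real.norm_eq_abs, abs_mul, σ1,
      abs_of_pos hδ]
    linarith
  rw [segment_eq_image'] at hx
  obtain ⟨s, ⟨s0, s1⟩, rfl⟩ := hx
  set w : ℂ := 1 + (σ * δ : ℝ) * I with hw
  have wi : w.im = σ * δ := by simp [hw]
  have n1 : ‖s • (w - w1)‖ ≤ s * (M + 2) := by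
    rw [norm_smul, Real.norm_of_nonneg s0]
    exact mul_le_mul_of_nonneg_left ((norm_sub_le _ _).trans (by linarith)) s0
  have im : s * δ ≤ |(w1 + s • (w - w1)).im| := by
    have e : (w1 + s • (w - w1)).im = (1 - s) * w1.im + s * (σ * δ) := by
      simp only [add_im, smul_im, sub_im, wi, smul_eq_mul]
      ring
    have : s * δ ≤ σ * (w1 + s • (w - w1)).im := by
      rw [e]
      have : σ * (s * (σ * δ)) = s * δ := by
        calc σ * (s * (σ * δ)) = σ * σ * (s * δ) := by ring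
          _ = s * δ := by rw [σ2, one_mul]
      linarith only [this, mul_nonneg (sub_nonneg.2 s1) hs]
    refine this.trans ((le_abs_self _).trans (le_of_eq ?_))
    rw [abs_mul, σ1, one_mul]
  have a1 := im.trans (abs_im_le_norm _)
  have a2 : s * δ ≤ ‖w1 + s • (w - w1) - 1‖ := by
    refine im.trans (le_trans (le_of_eq ?_) (abs_im_le_norm _))
    simp
  have b1 : ‖w1‖ ≤ ‖w1 + s • (w - w1)‖ + ‖s • (w - w1)‖ := by
    have := norm_sub_le (w1 + s • (w - w1)) (s • (w - w1))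
    rwa [add_sub_cancel_right] at this
  have b2 : ‖w1 - 1‖ ≤ ‖w1 + s • (w - w1) - 1‖ + ‖s • (w - w1)‖ := by
    have := norm_sub_le (w1 + s • (w - w1) - 1) (s • (w - w1))
    rwa [show w1 + s • (w - w1) - 1 - s • (w - w1) = w1 - 1 by ring] at this
  have m0 : 0 < min ε δ := lt_min hε hδ
  have m1 := min_le_left ε δ
  have m2 := min_le_right ε δ
  have c : ‖w1 + s • (w - w1)‖ ≤ M + 2 := by
    have e : w1 + s • (w - w1) = (1 - s) • w1 + s • w := by
      simp only [real_smul]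
      push_cast
      ring
    rw [e]
    refine (norm_add_le _ _).trans ?_
    rw [norm_smul, norm_smul, Real.norm_of_nonneg s0, Real.norm_of_nonneg (sub_nonneg.2 s1)]
    linarith only [mul_le_mul_of_nonneg_left h2 (sub_nonneg.2 s1), mul_le_mul_of_nonneg_left nw s0,
      mul_nonneg s0 hM, s1]
  have M2 : 0 < 2 * (M + 2) := by linarith only [hM]
  rw [div_le_iff₀ M2, div_le_iff₀ M2]
  rcases le_total (s * (M + 2)) (min ε δ / 2) with h | h
  · have k : ∀ X : ℝ, min ε δ / 2 ≤ X → min ε δ * δ ≤ X * (2 * (M + 2)) := fun X hX => by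
      linarith only [mul_le_mul_of_nonneg_right hX M2.le, mul_nonneg m0.le hM,
        mul_le_mul_of_nonneg_left hδ1 m0.le, m0]
    exact ⟨k _ (by linarith only [h, h1, b1, n1, m1]), k _ (by linarith only [h, h3, b2, n1, m2]),
      c⟩
  · have k : ∀ X : ℝ, s * δ ≤ X → min ε δ * δ ≤ X * (2 * (M + 2)) := fun X hX => by
      linarith only [mul_le_mul_of_nonneg_right hX M2.le, mul_le_mul_of_nonneg_left h hδ.le]
    exact ⟨k _ a1, k _ a2, c⟩

lemma seg {ε M δ : ℝ} (hε : 0 < ε) (hM : 0 ≤ M) (hδ : 0 < δ) (hδ1 : δ ≤ 1) :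
    ∃ η : ℝ, 0 < η ∧ η ≤ 1 ∧ ∀ w1 : ℂ, ε ≤ ‖w1‖ → ‖w1‖ ≤ M → δ ≤ ‖w1 - 1‖ →
      ∃ w : ℂ, ‖w - 1‖ = δ ∧ ‖w1 - w‖ ≤ M + 2 ∧ ∀ v : ℂ, infDist v (segment ℝ w1 w) ≤ 2 * η →
        η ≤ ‖v‖ ∧ η ≤ ‖v - 1‖ ∧ ‖v‖ ≤ M + 5 := by
  have m0 : 0 < min ε δ := lt_min hε hδ
  have m2 := min_le_right ε δ
  have e1 : min ε δ * δ / (2 * (M + 2)) ≤ 1 := (div_le_one (by positivity)).2 (by nlinarith)
  refine ⟨min ε δ * δ / (2 * (M + 2)) / 3, by positivity, by linarith, fun w1 h1 h2 h3 => ?_⟩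
  obtain ⟨σ, hσ, hs⟩ : ∃ σ : ℝ, (σ = 1 ∨ σ = -1) ∧ 0 ≤ σ * w1.im := by
    rcases le_total 0 w1.im with h | h
    · exact ⟨1, Or.inl rfl, by linarith⟩
    · exact ⟨-1, Or.inr rfl, by linarith⟩
  have σ1 : |σ| = 1 := by rcases hσ with h | h <;> simp [h]
  have nw : ‖((σ * δ : ℝ) * I : ℂ)‖ = δ := by
    rw [norm_mul, norm_I, Complex.norm_real, Real.norm_eq_abs, abs_mul, σ1, abs_of_pos hδ]
    ring
  refine ⟨1 + (σ * δ : ℝ) * I, by rw [add_sub_cancel_left, nw], ?_, fun v hv => ?_⟩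
  · refine (norm_sub_le _ _).trans ?_
    have := norm_add_le (1 : ℂ) ((σ * δ : ℝ) * I)
    rw [nw, norm_one] at this
    linarith
  have hc : IsCompact (segment ℝ w1 (1 + (σ * δ : ℝ) * I)) := by
    rw [segment_eq_image]
    exact isCompact_Icc.image (by fun_prop)
  obtain ⟨x, hx, e⟩ := hc.exists_infDist_eq_dist ⟨w1, left_mem_segment _ _ _⟩ v
  obtain ⟨a1, a2, a3⟩ := Seg_aux hε hM hδ hδ1 h1 h2 h3 hσ hs hx
  rw [e, dist_eq_norm] at hv
  have b1 : ‖x‖ ≤ ‖v‖ + ‖v - x‖ := by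
    have := norm_sub_le v (v - x)
    rwa [sub_sub_cancel] at this
  have b2 : ‖x - 1‖ ≤ ‖v - 1‖ + ‖v - x‖ := by
    have := norm_sub_le (v - 1) (v - x)
    rwa [show v - 1 - (v - x) = x - 1 by ring] at this
  have b3 : ‖v‖ ≤ ‖v - x‖ + ‖x‖ := by
    have := norm_add_le (v - x) x
    rwa [sub_add_cancel] at this
  refine ⟨by linarith, by linarith, by linarith⟩

end Pool.Agent.Work.MP_6ac3f6_an.PF
end

-- merged part: Pool.Agent.Work.MP_6ac3f6_an.PF.Near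
section
/-!
# Near every point of SA there is a disc of Bad or of SS

Constants in this order: climb with K = k0 + 2 gives d, R1, K1. For z1 in SA: |f'| ≥ 2 exp (-k1) =: e
(as bt |f| = exp kk) and |f'| ≤ M (deriv_le). seg gives eta. m = eta^2 / (16 (M + 6)), c0 = min (1/3) (eta / (2 (M+6))).
lift with l = M + 2 gives R0; gron_near gives |kk| ≤ K2 on near R0 z1.
Case A: a point z in near R0 z1 with infDist ≤ eta and |f''| < m bt z. modulus (K2, kappa = min eta m): on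
ball z (p t) we have infDist ≤ 2 eta, so eta ≤ |f'|, |f' - 1|, |f'| ≤ M + 5, |f''| ≤ 4 m bt w, and by lphi_lower
sqrt qq ≥ bt eta^2 / (2 (M+6)) = 8 m bt, so the ball lies in Bad c0.
Case B: a point z2 in near R0 z1 with |f' - 1| ≤ d (z1 itself if |f' z1 - 1| < d). If kk f z2 ≥ k0 + 2 take z3 = z2,
otherwise climb. Then k0 + 2 ≤ kk f z3 ≤ max K1 K2 =: k3 - 1, |f' z3 - 1| ≤ 1/2; modulus with kappa = 1/2
shows that ball z3 (p t3) lies in SS (log |f' - 1| ≤ 0, so yy ≤ -kk ≤ -c kk).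
Use near_trans, near_mono and t1 ≤ R t3 to pass to the radius (p / R) t1.
-/

set_option autoImplicit false

namespace Pool.Agent.Work.MP_6ac3f6_an.PF

open Complex Metric Set Filter Topology Real MeasureTheory ComplexConjugate

lemma Near_ball {R ρ : ℝ} {z z1 : ℂ} (hR : 1 ≤ R) (hρ : 0 < ρ) (h : z ∈ near R z1) :
    ball z (ρ / R * (1 - ‖z1‖)) ⊆ ball z (ρ * (1 - ‖z‖)) := by
  refine ball_subset_ball ?_
  rw [div_mul_eq_mul_div, div_le_iff₀ (by linarith)]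
  nlinarith [h.2]

lemma nearby {C c k0 : ℝ} (k1 : ℝ) (hC : 1 ≤ C) (hc1 : c ≤ 1) (hk0 : 0 ≤ k0) :
    ∃ k3 R ρ c0 : ℝ, 1 ≤ R ∧ 0 < ρ ∧ 0 < c0 ∧ c0 ≤ 1 / 3 ∧ ∀ f : ℂ → ℂ, Mir C f →
      ∀ z1 ∈ SA k1 f, ∃ z3 : ℂ,
        ball z3 (ρ * (1 - ‖z1‖)) ⊆ (Bad c0 f ∪ SS c k0 k3 f) ∩ near R z1 := by
  obtain ⟨δ, R1, K1, δ0, δ1, hR1, hcl⟩ := climb hC (k0 + 2)
  set M := C * Real.exp |k1| * (1 + |k1|) with hM
  have M0 : 0 ≤ M := by positivity
  obtain ⟨η, η0, η1, hseg⟩ := seg (ε := 2 * Real.exp (-k1)) (by positivity) M0 δ0 (by linarith)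
  set m := η ^ 2 / (16 * (M + 6)) with hm
  have m0 : 0 < m := by positivity
  obtain ⟨R0, hR0, hl⟩ := lift (l := M + 2) (by linarith) η0 m0
  obtain ⟨K2, -, hg⟩ := gron_near hC hR0 k1
  obtain ⟨ρ1, ρ10, -, hm1⟩ := modulus hC K2 (lt_min η0 m0)
  obtain ⟨ρ2, ρ20, -, hm2⟩ := modulus hC (max K1 K2) (κ := 1 / 2) (by norm_num)
  set R2 := R0 + R1 * (1 + R0) with hR2
  have r2 : R0 ≤ R2 := le_add_of_nonneg_right
    (mul_nonneg (zero_le_one.trans hR1) (add_nonneg zero_le_one (zero_le_one.trans hR0)))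
  have r3 : 1 ≤ R2 := hR0.trans r2
  have ρ0 : 0 < min ρ1 ρ2 := lt_min ρ10 ρ20
  refine ⟨max K1 K2 + 1, R2 + 2 * (1 + R2), min ρ1 ρ2 / R2, min (1 / 3) (η / (2 * (M + 6))),
    by linarith, by positivity, lt_min (by norm_num) (by positivity), min_le_left _ _,
    fun f hf z1 h1 => ?_⟩
  obtain ⟨b1, a1, a2⟩ := h1
  have caseS : ∀ z3 ∈ near R2 z1, k0 + 2 ≤ kk f z3 → kk f z3 ≤ max K1 K2 →
      ‖deriv f z3 - 1‖ ≤ 1 / 2 → ball z3 (min ρ1 ρ2 / R2 * (1 - ‖z1‖)) ⊆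
        (Bad (min (1 / 3) (η / (2 * (M + 6)))) f ∪ SS c k0 (max K1 K2 + 1) f) ∩
          near (R2 + 2 * (1 + R2)) z1 := by
    intro z3 n3 e1 e2 e3 w hw
    have b3 := near_ball r3 b1 n3
    have hw' : w ∈ ball z3 (ρ2 * (1 - ‖z3‖)) := ball_subset_ball
      (mul_le_mul_of_nonneg_right (min_le_right _ _) (t_pos b3).le) (Near_ball r3 ρ0 n3 hw)
    obtain ⟨c1, c2, c3, -, -⟩ := hm2 f hf z3 b3 (abs_le.2 ⟨by linarith, e2⟩) w hw'
    have bw := near_ball one_le_two b3 c1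
    obtain ⟨c4, c5⟩ := abs_le.1 c2
    refine ⟨Or.inr ⟨bw, by linarith, by linarith, ?_⟩, near_trans r3 one_le_two b1 n3 c1⟩
    have d1 : ‖deriv f w - 1‖ ≤ 1 := by
      linarith [norm_sub_le_norm_sub_add_norm_sub (deriv f w) (deriv f z3) 1]
    have d2 := Real.log_nonpos (norm_nonneg _) d1
    unfold yy
    linarith only [d2, mul_le_of_le_one_left (show 0 ≤ kk f w by linarith only [c4, e1, hk0]) hc1]
  have caseB : ∀ z2 ∈ near R0 z1, ‖deriv f z2 - 1‖ ≤ δ → ∃ z3 : ℂ,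
      ball z3 (min ρ1 ρ2 / R2 * (1 - ‖z1‖)) ⊆
        (Bad (min (1 / 3) (η / (2 * (M + 6)))) f ∪ SS c k0 (max K1 K2 + 1) f) ∩
          near (R2 + 2 * (1 + R2)) z1 := by
    intro z2 n2 e
    rcases le_total (kk f z2) (k0 + 2) with h | h
    · obtain ⟨z3, n3, e1, e2, e3⟩ := hcl f hf z2 (near_ball hR0 b1 n2) e h
      exact ⟨z3, caseS z3 (near_trans hR0 hR1 b1 n2 n3) e1 (e2.trans (le_max_left _ _)) e3⟩
    · exact ⟨z2, caseS z2 (near_mono hR0 r2 b1 n2) h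
        (((le_abs_self _).trans (hg f hf z1 b1 a1 z2 n2)).trans (le_max_right _ _))
        (by linarith)⟩
  rcases le_total ‖deriv f z1 - 1‖ δ with h | h
  · exact caseB z1 (near_self hR0 b1) h
  have l1 : 2 * Real.exp (-k1) ≤ ‖deriv f z1‖ := by
    refine le_trans ?_ a2
    rw [mul_assoc, mul_comm (bt z1), ← hf.1.exp_kk b1]
    linarith [Real.exp_le_exp.2 (abs_le.1 a1).1]
  obtain ⟨w0, s1, s2, s3⟩ := hseg (deriv f z1) l1
    (deriv_le hC hf b1 (a1.trans (le_abs_self _))) h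
  obtain ⟨z, n, e | ⟨e1, e2⟩⟩ := hl (deriv f) hf.1.an1.differentiableOn z1 b1 w0 s2
  · exact caseB z n (by rw [e, s1])
  refine ⟨z, fun w hw => ?_⟩
  have bz := near_ball hR0 b1 n
  have n' := near_mono hR0 r2 b1 n
  have hw' : w ∈ ball z (ρ1 * (1 - ‖z‖)) := ball_subset_ball
    (mul_le_mul_of_nonneg_right (min_le_left _ _) (t_pos bz).le) (Near_ball r3 ρ0 n' hw)
  obtain ⟨c1, -, c3, c4, c5⟩ := hm1 f hf z bz (hg f hf z1 b1 a1 z n) w hw'
  have bw := near_ball one_le_two bz c1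
  have d1 : infDist (deriv f w) (segment ℝ (deriv f z1) w0) ≤ 2 * η := by
    have := infDist_le_infDist_add_dist (s := segment ℝ (deriv f z1) w0) (x := deriv f w)
      (y := deriv f z)
    rw [dist_eq_norm] at this
    linarith [min_le_left η m]
  obtain ⟨t1, t2, t3⟩ := s3 _ d1
  have u1 : η / (2 * (M + 6)) ≤ ‖deriv f w‖ * Real.exp (-lphi (deriv f w)) := by
    refine le_trans ?_ (lphi_lower t3)
    rw [show 1 + (M + 5) = M + 6 by ring]
    exact div_le_div_of_nonneg_right t1 (by positivity)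
  refine ⟨Or.inl ⟨bw, ?_, (min_le_right _ _).trans u1⟩, near_trans r3 one_le_two b1 n' c1⟩
  have β0 := bt_pos bw
  have β1 := bt_pos bz
  have u2 : ‖deriv (deriv f) w‖ ≤ 4 * m * bt w := by
    have a := norm_add_le (deriv (deriv f) w - deriv (deriv f) z) (deriv (deriv f) z)
    rw [sub_add_cancel] at a
    have b := mul_le_mul_of_nonneg_right (min_le_right η m) β1.le
    linarith only [a, b, c4, e2, mul_le_mul_of_nonneg_left c5 m0.le]
  have u3 : 8 * m * bt w ≤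
      bt w * (‖deriv f w‖ * Real.exp (-lphi (deriv f w))) * ‖deriv f w - 1‖ := by
    have : 8 * m * bt w = bt w * (η / (2 * (M + 6))) * η := by
      rw [hm]
      field_simp
      norm_num
    rw [this]
    exact mul_le_mul (mul_le_mul_of_nonneg_left u1 β0.le) t2 η0.le (by positivity)
  have u4 : qq f w =
      (bt w * (‖deriv f w‖ * Real.exp (-lphi (deriv f w))) * ‖deriv f w - 1‖) ^ 2 := by
    unfold qq
    rw [show -2 * lphi (deriv f w) = -lphi (deriv f w) + -lphi (deriv f w) by ring, Real.exp_add]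
    ring
  have u5 := pow_le_pow_left₀ (by positivity) u3 2
  have u6 := pow_le_pow_left₀ (norm_nonneg _) u2 2
  rw [u4]
  unfold pq
  linarith only [u5, u6, sq_nonneg (m * bt w)]

end Pool.Agent.Work.MP_6ac3f6_an.PF
end

-- merged part: Pool.Agent.Work.MP_6ac3f6_an.PF.Band
section
/-!
# The band consists of contracting points

Choose p ≤ 1/8 with exp ((C+2) 2 p) - 1 ≤ 1/4. For k = kk f z ≥ 8, t = 1 - |z| and w in ball z (p t),
gron (T = t/2) gives |kk f w - k| ≤ (1+k)/4, so 0 ≤ kk f w ≤ 2 k, and bt w ≤ 2 bt z.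
H = (f' - 1)/f has no zeros, |H w| ≤ |f'/f| + 1/|f| ≤ bt w (C (1+2k) + 1) ≤ M := 8 C k bt z
(1/|f w| = bt w exp (-kk f w)). cara_log: p t |H'/H| ≤ 2 log (M/|H z|) = 2 (log (8 C k) - y), as
log (|H z| / bt z) = yy f z =: y. With 1/t ≤ 2 bt: |H'/H| ≤ (4/p) bt (log (8 C k) + c k).
f''/(f'-1) = f'/f + H'/H and |f'/f| ≤ bt (exp y + exp (-k)) ≤ 2 bt. Take c = p/64 and k0 so large that
2 + (4/p) log (8 C k) ≤ 3k/16 for k ≥ k0 and exp (-c k0/2) ≤ 1/4.
Bad: |f' - 1| = exp (k + y) ≥ exp (3k/4), so |f'| ≥ exp (3k/4)/2 ≥ 1 and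
l = 1 + log (1 + |f'|^2) ≥ 3k/2 - 1 ≥ k·5/4; by lphi_large sqrt qq ≥ bt |f'-1| l/3, and
|f''| ≤ bt (k/4) |f'-1| gives pq ≤ (9/25) qq.
-/

set_option autoImplicit false

namespace Pool.Agent.Work.MP_6ac3f6_an.PF

open Complex Metric Set Filter Topology Real MeasureTheory ComplexConjugate

lemma Band_bt {z w : ℂ} (hz : z ∈ ball (0 : ℂ) 1) (h : ‖w - z‖ ≤ (1 - ‖z‖) / 8) :
    (1 - ‖z‖) / 2 ≤ 1 - ‖w‖ ∧ bt w ≤ 2 * bt z := by
  have p := t_pos hz
  have a : ‖w‖ ≤ ‖w - z‖ + ‖z‖ := by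
    have := norm_add_le (w - z) z
    rwa [sub_add_cancel] at this
  have n1 := norm_nonneg z
  have n2 := norm_nonneg w
  refine ⟨by linarith, ?_⟩
  unfold bt
  have q : 0 < 1 - ‖w‖ ^ 2 := by nlinarith
  have q' : 0 < 1 - ‖z‖ ^ 2 := by nlinarith
  rw [← div_eq_mul_inv, inv_eq_one_div, div_le_div_iff₀ q q']
  have : ‖w‖ ^ 2 ≤ ((1 - ‖z‖) / 8 + ‖z‖) ^ 2 := pow_le_pow_left₀ n2 (by linarith) 2
  linarith only [p, q, this]

lemma Band_bad {f : ℂ → ℂ} (hf : Cl f 0 1) {z : ℂ} (hz : z ∈ ball (0 : ℂ) 1) (h8 : 8 ≤ kk f z)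
    (hy : -(kk f z / 4) ≤ yy f z)
    (h : ‖deriv (deriv f) z‖ ≤ bt z * (kk f z / 4) * ‖deriv f z - 1‖) : z ∈ Bad (1 / 3) f := by
  set k := kk f z with hk
  have n1 : 0 < ‖deriv f z - 1‖ := norm_pos_iff.2 (sub_ne_zero.2 (hf.2.2 z hz))
  have a1 : Real.exp (3 * k / 4) ≤ ‖deriv f z - 1‖ := by
    rw [← Real.le_log_iff_exp_le n1]
    unfold yy at hy
    linarith
  have a2 : 7 ≤ Real.exp (3 * k / 4) := by linarith [Real.add_one_le_exp (3 * k / 4)]
  have a3 : ‖deriv f z - 1‖ ≤ ‖deriv f z‖ + 1 := by simpa using norm_sub_le (deriv f z) 1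
  have a4 : 5 * k / 4 ≤ 1 + Real.log (1 + ‖deriv f z‖ ^ 2) := by
    have b1 : Real.exp (3 * k / 4) ^ 2 ≤ 2 * (1 + ‖deriv f z‖ ^ 2) := by
      have := pow_le_pow_left₀ (by linarith) (a1.trans a3) 2
      linarith only [this, sq_nonneg (‖deriv f z‖ - 1)]
    have b2 := Real.log_le_log (by positivity) b1
    rw [Real.log_pow, Real.log_exp, Real.log_mul (by norm_num) (by positivity)] at b2
    have b3 := Real.log_le_sub_one_of_pos (by norm_num : (0 : ℝ) < 2)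
    push_cast at b2
    linarith
  have a5 := lphi_large (w := deriv f z) (by linarith)
  have β0 := bt_pos hz
  refine ⟨hz, ?_, by linarith⟩
  have u3 : bt z * (5 * k / 12) * ‖deriv f z - 1‖ ≤
      bt z * (‖deriv f z‖ * Real.exp (-lphi (deriv f z))) * ‖deriv f z - 1‖ :=
    mul_le_mul_of_nonneg_right (mul_le_mul_of_nonneg_left (by linarith) β0.le) n1.le
  have u4 : qq f z =
      (bt z * (‖deriv f z‖ * Real.exp (-lphi (deriv f z))) * ‖deriv f z - 1‖) ^ 2 := by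
    unfold qq
    rw [show -2 * lphi (deriv f z) = -lphi (deriv f z) + -lphi (deriv f z) by ring, Real.exp_add]
    ring
  have u5 := pow_le_pow_left₀ (by positivity) u3 2
  have u6 := pow_le_pow_left₀ (norm_nonneg _) h 2
  rw [u4]
  unfold pq
  linarith only [u5, u6, sq_nonneg (bt z * k * ‖deriv f z - 1‖)]

lemma Band_H {f : ℂ → ℂ} (hf : Cl f 0 1) {z : ℂ} (hz : z ∈ ball (0 : ℂ) 1) :
    ‖(deriv f z - 1) / f z‖ = bt z * Real.exp (yy f z) ∧
      ‖f z‖⁻¹ = bt z * Real.exp (-kk f z) := by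
  have n1 : 0 < ‖deriv f z - 1‖ := norm_pos_iff.2 (sub_ne_zero.2 (hf.2.2 z hz))
  have n2 : 0 < ‖f z‖ := norm_pos_iff.2 (hf.2.1 z hz)
  have β0 := bt_pos hz
  unfold yy
  rw [Real.exp_sub, Real.exp_neg, hf.exp_kk hz, Real.exp_log n1, norm_div]
  constructor <;> field_simp

lemma band {C : ℝ} (hC : 1 ≤ C) : ∃ c k0 : ℝ, 0 < c ∧ c ≤ 1 / 4 ∧ 8 ≤ k0 ∧
    Real.exp (-(c * k0) / 2) ≤ 1 / 4 ∧ ∀ f : ℂ → ℂ, Mir C f → ∀ z ∈ Band c k0 f,
      z ∈ Bad (1 / 3) f ∧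
      ‖deriv (deriv f) z‖ ≤ bt z * (kk f z / 4) * ‖deriv f z - 1‖ := by
  set p := 1 / (16 * (C + 2)) with hp
  have p0 : 0 < p := by positivity
  have p1 : p ≤ 1 / 8 := one_div_le_one_div_of_le (by norm_num) (by linarith)
  have pe : Real.exp ((C + 2) * 2 * p) ≤ 5 / 4 := by
    have e : (C + 2) * 2 * p = 1 / 8 := by
      rw [hp]
      field_simp
      norm_num
    rw [e]
    have := Real.exp_bound_div_one_sub_of_interval' (x := 1 / 8) (by norm_num) (by norm_num)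
    linarith
  set L := Real.log (8 * C * (64 / p)) with hL
  have L0 : 0 ≤ L := Real.log_nonneg (by
    have : 1 ≤ 64 / p := (le_div_iff₀ p0).2 (by linarith)
    exact one_le_mul_of_one_le_of_one_le (by linarith only [hC]) this)
  refine ⟨p / 64, 16 + 32 / p * L + 512 / p, by positivity, by linarith, by
    have : 0 ≤ 32 / p * L := by positivity
    have : 0 ≤ 512 / p := by positivity
    linarith, ?_, fun f hf z hz => ?_⟩
  · have e : -(p / 64 * (16 + 32 / p * L + 512 / p)) / 2 = -(4 + (p / 8 + L / 4)) := by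
      field_simp
      ring
    rw [e, Real.exp_neg, inv_le_comm₀ (Real.exp_pos _) (by norm_num)]
    linarith [Real.add_one_le_exp (4 + (p / 8 + L / 4))]
  obtain ⟨hz, h1, h2, h3⟩ := hz
  set k := kk f z with hk
  have q1 : 0 ≤ 32 / p * L := by positivity
  have q2 : 0 ≤ 512 / p := by positivity
  have k8 : 16 ≤ k := by linarith only [h1, q1, q2]
  have k0 : 0 ≤ k := by linarith only [k8]
  have C0 : 0 ≤ C := zero_le_one.trans hC
  have t0 := t_pos hz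
  have β0 := bt_pos hz
  have loc : ∀ w ∈ ball z (p * (1 - ‖z‖)), w ∈ ball (0 : ℂ) 1 ∧
      ‖(deriv f w - 1) / f w‖ ≤ 8 * C * k * bt z := by
    intro w hw
    rw [mem_ball_iff_norm] at hw
    obtain ⟨a1, a2⟩ := Band_bt hz (w := w)
      (by linarith only [hw, mul_le_mul_of_nonneg_right p1 t0.le])
    have bw : w ∈ ball (0 : ℂ) 1 := mem_ball_zero_iff.2 (by linarith only [a1, t0])
    have G := gron hC hf (z1 := z) (z := w) (τ := (1 - ‖z‖) / 2) (half_pos t0) (half_le_self t0.le)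
      a1
    have e : (C + 2) * ‖w - z‖ / ((1 - ‖z‖) / 2) ≤ (C + 2) * 2 * p := by
      rw [div_le_iff₀ (half_pos t0)]
      linarith only [mul_le_mul_of_nonneg_left hw.le (add_nonneg C0 zero_le_two)]
    have e2 := (Real.exp_le_exp.2 e).trans pe
    rw [← hk, abs_of_nonneg k0] at G
    have G2 : |kk f w - k| ≤ (1 + k) * (1 / 4) :=
      G.trans (mul_le_mul_of_nonneg_left (by linarith only [e2]) (add_nonneg zero_le_one k0))
    obtain ⟨g1, g2⟩ := abs_le.1 G2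
    have kw : 0 ≤ kk f w := by linarith only [g1, k8]
    have b1 := Gron_ld hf bw
    rw [abs_of_nonneg kw] at b1
    have b2 : ‖f w‖⁻¹ ≤ bt w := by
      rw [(Band_H hf.1 bw).2]
      exact mul_le_of_le_one_right (bt_pos bw).le (Real.exp_le_one_iff.2 (neg_nonpos.2 kw))
    have b3 := norm_sub_le (deriv f w / f w) (1 / f w)
    rw [← sub_div, one_div, norm_inv] at b3
    have β1 := bt_pos bw
    have b4 : C * bt w * (1 + kk f w) ≤ C * bt w * (1 + 2 * k) :=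
      mul_le_mul_of_nonneg_left (by linarith only [g2, k8]) (mul_nonneg C0 β1.le)
    have b5 : bt w * (C * (1 + 2 * k) + 1) ≤ 2 * bt z * (4 * C * k) :=
      mul_le_mul a2 (by linarith only [mul_le_mul_of_nonneg_left k8 C0, hC])
        (by linarith only [mul_nonneg C0 k0, C0]) (by linarith only [β0])
    exact ⟨bw, by linarith only [b1, b2, b3, b4, b5]⟩
  have ca := cara_log (g := fun w => (deriv f w - 1) / f w) (c := z) (R := p * (1 - ‖z‖))
    (M := 8 * C * k * bt z) (by positivity)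
    (fun x hx => (((hf.1.an1 x (loc x hx).1).differentiableAt.sub_const 1).div
      (hf.1.an x (loc x hx).1).differentiableAt (hf.1.2.1 x (loc x hx).1)).differentiableWithinAt)
    (fun x hx => div_ne_zero (sub_ne_zero.2 (hf.1.2.2 x (loc x hx).1)) (hf.1.2.1 x (loc x hx).1))
    fun x hx => (loc x hx).2
  have f0 := hf.1.2.1 z hz
  have dH : HasDerivAt (fun w => (deriv f w - 1) / f w)
      ((deriv (deriv f) z * f z - (deriv f z - 1) * deriv f z) / f z ^ 2) z :=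
    ((hf.1.an1 z hz).differentiableAt.hasDerivAt.sub_const 1).div
      (hf.1.an z hz).differentiableAt.hasDerivAt f0
  set H' := deriv (fun w => (deriv f w - 1) / f w) z with hH'
  have id1 : deriv (deriv f) z = H' * f z + (deriv f z - 1) * (deriv f z / f z) := by
    rw [hH', dH.deriv]
    field_simp
    ring
  obtain ⟨e1, e2⟩ := Band_H hf.1 hz
  have l1 : Real.log (8 * C * k * bt z / ‖(deriv f z - 1) / f z‖) ≤ L + p / 64 * k + p / 64 * k := by
    rw [e1, mul_comm (bt z), mul_div_mul_right _ _ β0.ne',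
      Real.log_div (by positivity) (Real.exp_pos _).ne', Real.log_exp]
    have a : 8 * C * k = 8 * C * (64 / p) * (p / 64 * k) := by field_simp
    rw [a, Real.log_mul (by positivity) (by positivity)]
    have := Real.log_le_sub_one_of_pos (by positivity : 0 < p / 64 * k)
    linarith only [this, hL, h2]
  have nH : 0 ≤ ‖(deriv f z - 1) / f z‖ := norm_nonneg _
  have l2 : ‖H'‖ ≤ 4 / p * bt z * (L + p / 32 * k) * ‖(deriv f z - 1) / f z‖ := by
    have a := one_le_two_bt_mul_t hz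
    have b := ca.trans (mul_le_mul_of_nonneg_left l1 (by positivity))
    have c : ‖H'‖ ≤ 2 * (bt z * (1 - ‖z‖)) * ‖H'‖ := le_mul_of_one_le_left (norm_nonneg _) a
    refine c.trans (le_of_mul_le_mul_left ?_ p0)
    have d := mul_le_mul_of_nonneg_left b (by positivity : 0 ≤ 2 * bt z)
    refine le_trans (le_of_eq (by ring)) (d.trans (le_of_eq ?_))
    field_simp
    ring
  have l3 : ‖deriv f z / f z‖ ≤ 2 * bt z := by
    have a := norm_add_le ((deriv f z - 1) / f z) (1 / f z)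
    rw [← add_div, sub_add_cancel, one_div, norm_inv, e1, e2] at a
    have b1 : Real.exp (yy f z) ≤ 1 :=
      Real.exp_le_one_iff.2 (by linarith only [h3, mul_nonneg p0.le k0])
    have b2 : Real.exp (-kk f z) ≤ 1 := Real.exp_le_one_iff.2 (neg_nonpos.2 k0)
    linarith only [a, mul_le_of_le_one_right β0.le b1, mul_le_of_le_one_right β0.le b2]
  have l4 : ‖H'‖ * ‖f z‖ ≤ 4 / p * bt z * (L + p / 32 * k) * ‖deriv f z - 1‖ := by
    refine (mul_le_mul_of_nonneg_right l2 (norm_nonneg _)).trans (le_of_eq ?_)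
    rw [norm_div, mul_assoc, div_mul_cancel₀ _ (norm_ne_zero_iff.2 f0)]
  have l5 : 4 / p * (L + p / 32 * k) + 2 ≤ k / 4 := by
    have a : 4 / p * (L + p / 32 * k) = 32 / p * L / 8 + k / 8 := by
      field_simp
      ring
    rw [a]
    linarith only [h1, q2]
  have main : ‖deriv (deriv f) z‖ ≤ bt z * (k / 4) * ‖deriv f z - 1‖ := by
    rw [id1]
    refine (norm_add_le _ _).trans ?_
    rw [norm_mul, norm_mul]
    have a := mul_le_mul_of_nonneg_left l3 (norm_nonneg (deriv f z - 1))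
    have b := mul_le_mul_of_nonneg_left l5 (mul_nonneg β0.le (norm_nonneg (deriv f z - 1)))
    linarith only [a, b, l4]
  exact ⟨Band_bad hf.1 hz (show 8 ≤ k by linarith only [k8])
    (show -(k / 4) ≤ yy f z by linarith only [h2, k0, mul_le_mul_of_nonneg_right p1 k0]) main, main⟩

end Pool.Agent.Work.MP_6ac3f6_an.PF
end
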