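import Pool.Agent.Work.MP_6ac3f6_an.PF.MirB
import Pool.Agent.Work.MP_6ac3f6_an.PF.Band
import Pool.Agent.Work.MP_6ac3f6_an.PF.Mod

-- merged part: Pool.Agent.Work.MP_6ac3f6_an.PF.LapE
section
/-!
# The Laplacian of the potential

p = pq, q = qq, w = ww. p^n = |F'^n|^2, w^n = |(e f (F-1))^n|^2 > 0 and
q^n = |(F (F-1))^n|^2 exp (nu), nu = 2 n (log bt - lphi F). LSub.nsq, mul_exp, add, log give
Lap (log S) ≥ q^n Lap nu / S, S = p^n + q^n + w^n. By logbt and lphi_lap,
q^n Lap nu ≥ 2 n 4 bt^2 q^(n-1) (q - p). The inequality n q^(n-1) (p - q) ≤ p^n - q^n ≤ S gives the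
first bound; if p ≤ q/2 and w ≤ q then S ≤ 3 q^n, q > 0.
-/

set_option autoImplicit false

namespace Pool.Agent.Work.MP_6ac3f6_an.PF

open Complex Metric Set Filter Topology Real MeasureTheory ComplexConjugate

lemma LapE_conv {p q : ℝ} (hp : 0 ≤ p) (hq : 0 ≤ q) (m : ℕ) :
    q ^ (m + 1) + (m + 1) * q ^ m * (p - q) ≤ p ^ (m + 1) := by
  induction m with
  | zero => simp
  | succ m ih =>
    have a := mul_le_mul_of_nonneg_left ih hp
    have b : 0 ≤ ((m : ℝ) + 1) * q ^ m * (p - q) ^ 2 := by positivity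
    push_cast
    calc _ = p * (q ^ (m + 1) + (m + 1) * q ^ m * (p - q)) - (m + 1) * q ^ m * (p - q) ^ 2 := by ring
      _ ≤ p * p ^ (m + 1) := by linarith
      _ = _ := by ring

lemma LapE_sub {f : ℂ → ℂ} {z : ℂ} (m : ℕ) (e : ℝ) (hf : Cl f 0 1) (hz : z ∈ ball (0 : ℂ) 1) :
    ∃ a, 8 * (m + 1) * bt z ^ 2 * (qq f z ^ m * (qq f z - pq f z)) ≤ a ∧
      LSub (fun w => pq f w ^ (m + 1) + qq f w ^ (m + 1) + ww e f w ^ (m + 1)) z a := by
  have a0 := hf.an z hz
  have a1 := a0.deriv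
  have a2 := a1.deriv
  obtain ⟨b1, -, -, b2⟩ := logbt hz
  obtain ⟨c1, c2⟩ := lphi_lap a1
  have d1 : ContDiffAt ℝ 2 (fun w => (-1) * lphi (deriv f w)) z := contDiffAt_const.mul c1
  have d2 := b1.add d1
  have d3 : ContDiffAt ℝ 2
      (fun w => (2 * (m + 1) : ℝ) * (Real.log (bt w) + (-1) * lphi (deriv f w))) z :=
    contDiffAt_const.mul d2
  have key : ∀ w ∈ ball (0 : ℂ) 1, ‖(deriv f w * (deriv f w - 1)) ^ (m + 1)‖ ^ 2 *
      Real.exp ((2 * (m + 1) : ℝ) * (Real.log (bt w) + (-1) * lphi (deriv f w))) =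
      qq f w ^ (m + 1) := fun w hw => by
    have : (2 * (m + 1) : ℝ) * (Real.log (bt w) + (-1) * lphi (deriv f w)) =
        ((m + 1 : ℕ) : ℝ) * (((2 : ℕ) : ℝ) * Real.log (bt w) + -2 * lphi (deriv f w)) := by
      push_cast; ring
    rw [this, Real.exp_nat_mul, Real.exp_add, Real.exp_nat_mul, Real.exp_log (bt_pos hw), norm_pow,
      norm_mul, qq, ← pow_mul, mul_comm (m + 1), pow_mul, ← mul_pow]
    congr 1
    ring
  have p1 : LSub (fun w => pq f w ^ (m + 1)) z 0 := (LSub.nsq (a2.pow (m + 1))).congr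
    (.of_forall fun w => by simp only [pq, Pi.pow_apply, norm_pow, ← pow_mul, mul_comm])
  have p2 := ((LSub.nsq ((a1.mul (a1.sub analyticAt_const)).pow (m + 1))).mul_exp d3).congr
    (v := fun w => qq f w ^ (m + 1)) ((isOpen_ball.eventually_mem hz).mono key)
  have p3 : LSub (fun w => ww e f w ^ (m + 1)) z 0 := (LSub.nsq
    (((analyticAt_const (v := (e : ℂ))).mul
      (a0.mul (a1.sub (analyticAt_const (v := (1 : ℂ)))))).pow (m + 1))).congr
    (.of_forall fun w => by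
      simp only [ww, Pi.pow_apply, Pi.mul_apply, Pi.sub_apply, norm_pow, norm_mul, norm_real,
        Real.norm_eq_abs]
      rw [← pow_mul, mul_comm (m + 1), pow_mul, mul_pow |e|, sq_abs, mul_pow ‖f w‖, mul_assoc])
  refine ⟨_, ?_, (p1.add p2).add p3⟩
  rw [zero_add, add_zero, zero_add, ← mul_assoc (Real.exp _), mul_comm (Real.exp _)]
  refine le_of_le_of_eq ?_ (congrArg (· * _) (key z hz).symm)
  rw [Lap_cmul d2, Lap_add b1 d1, Lap_cmul c1, b2]
  have e1 : qq f z * Lap (fun w => lphi (deriv f w)) z ≤ 4 * bt z ^ 2 * pq f z := by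
    have := mul_le_mul_of_nonneg_left c2
      (show 0 ≤ bt z ^ 2 * Real.exp (-2 * lphi (deriv f z)) by positivity)
    have e2 : Real.exp (-2 * lphi (deriv f z)) * Real.exp (2 * lphi (deriv f z)) = 1 := by
      rw [← Real.exp_add]; simp
    unfold qq pq
    calc _ = _ := by ring
      _ ≤ _ := this
      _ = 4 * bt z ^ 2 * ‖deriv (deriv f) z‖ ^ 2 *
        (Real.exp (-2 * lphi (deriv f z)) * Real.exp (2 * lphi (deriv f z))) := by ring
      _ = _ := by rw [e2, mul_one]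
  have q0 : 0 ≤ qq f z := by unfold qq; positivity
  have := mul_le_mul_of_nonneg_left e1 (show 0 ≤ 2 * ((m : ℝ) + 1) * qq f z ^ m by positivity)
  rw [pow_succ (qq f z) m]
  linarith only [this]

lemma ZZ_lap {f : ℂ → ℂ} {z : ℂ} {n : ℕ} {e : ℝ} (hf : Cl f 0 1) (hz : z ∈ ball (0 : ℂ) 1)
    (hn : 1 ≤ n) (he : 0 < e) :
    ContDiffAt ℝ 2 (ZZ n e f) z ∧ -(4 / n) * bt z ^ 2 ≤ Lap (ZZ n e f) z ∧
    (pq f z ≤ qq f z / 2 → ww e f z ≤ qq f z → 2 / 3 * bt z ^ 2 ≤ Lap (ZZ n e f) z) := by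
  obtain ⟨m, rfl⟩ := Nat.exists_eq_add_of_le' hn
  obtain ⟨a, ha, hs⟩ := LapE_sub m e hf hz
  have p0 : 0 ≤ pq f z := by unfold pq; positivity
  have q0 : 0 ≤ qq f z := by unfold qq; positivity
  have w0 : 0 < ww e f z := by
    have := norm_pos_iff.2 (hf.2.1 z hz)
    have := norm_pos_iff.2 (sub_ne_zero.2 (hf.2.2 z hz))
    unfold ww; positivity
  have S0 : 0 < pq f z ^ (m + 1) + qq f z ^ (m + 1) + ww e f z ^ (m + 1) := by positivity
  obtain ⟨l1, l2⟩ := hs.log S0
  have e1 : ZZ (m + 1) e f = fun w => (2 * (m + 1) : ℝ)⁻¹ *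
      Real.log (pq f w ^ (m + 1) + qq f w ^ (m + 1) + ww e f w ^ (m + 1)) := by
    funext w
    rw [ZZ, div_eq_inv_mul]
    push_cast
    rfl
  have m0 : (0 : ℝ) < m + 1 := by positivity
  have b0 : 0 ≤ bt z ^ 2 := by positivity
  have key : ∀ c : ℝ, c * (pq f z ^ (m + 1) + qq f z ^ (m + 1) + ww e f z ^ (m + 1)) ≤
      4 * (qq f z ^ m * (qq f z - pq f z)) → c * bt z ^ 2 ≤ Lap (ZZ (m + 1) e f) z := fun c hc => by
    rw [e1, Lap_cmul l1, le_inv_mul_iff₀ (by positivity)]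
    refine le_trans ?_ l2
    rw [le_div_iff₀ S0]
    refine le_trans ?_ ha
    have := mul_le_mul_of_nonneg_left hc (show 0 ≤ 2 * ((m : ℝ) + 1) * bt z ^ 2 by positivity)
    linarith
  refine ⟨e1 ▸ contDiffAt_const.mul l1, key _ ?_, fun h1 h2 => key _ ?_⟩
  · have := LapE_conv p0 q0 m
    have := pow_nonneg q0 (m + 1)
    have := pow_pos w0 (m + 1)
    push_cast
    rw [neg_mul, neg_le, div_mul_eq_mul_div, le_div_iff₀ m0]
    linarith
  · have := pow_le_pow_left₀ p0 (show pq f z ≤ qq f z by linarith) (m + 1)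
    have := pow_le_pow_left₀ w0.le h2 (m + 1)
    have := mul_le_mul_of_nonneg_left h1 (pow_nonneg q0 m)
    have := pow_succ (qq f z) m
    linarith

end Pool.Agent.Work.MP_6ac3f6_an.PF
end

-- merged part: Pool.Agent.Work.MP_6ac3f6_an.PF.Start
section
/-!
# The starting circle

f' is analytic and not identically zero, so it has finitely many zeros in closedBall 0 (3/4) and some
radius a in [1/2, 3/4] is not the modulus of a zero. S0 = pq^n + qq^n and W1 = (ww 1)^n are C^1 on the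
disc, S0 ≥ s0 > 0 on the circle, ww e ^ n = e^(2n) W1, ZZ = log (S0 + e^(2n) W1) / (2n). Hence
ZZ ≥ log s0 / (2n) and the derivative is at most (|DS0| + |DW1|) / s0 on the circle.
-/

set_option autoImplicit false

namespace Pool.Agent.Work.MP_6ac3f6_an.PF

open Complex Metric Set Filter Topology Real MeasureTheory ComplexConjugate

lemma Start_rad {F : ℂ → ℂ} (hA : AnalyticOnNhd ℂ F (ball 0 1))
    (hF : ∃ z ∈ ball (0 : ℂ) 1, F z ≠ 0) :
    ∃ a : ℝ, 1 / 2 ≤ a ∧ a ≤ 3 / 4 ∧ ∀ z ∈ sphere (0 : ℂ) a, F z ≠ 0 := by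
  obtain ⟨z0, hz0, h0⟩ := hF
  rcases hA.eqOn_zero_or_eventually_ne_zero_of_preconnected (convex_ball _ _).isPreconnected with
    h | h
  · exact absurd (h hz0) h0
  have hsub : closedBall (0 : ℂ) (3 / 4) ⊆ ball 0 1 := closedBall_subset_ball (by norm_num)
  have hfin := (isCompact_closedBall (0 : ℂ) (3 / 4)).finite_sdiff_of_mem_codiscreteWithin
    (codiscreteWithin_mono hsub h)
  obtain ⟨a, ha, hna⟩ := (Icc_infinite (by norm_num : (1 / 2 : ℝ) < 3 / 4)).exists_notMem_finite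
    (hfin.image fun z => ‖z‖)
  refine ⟨a, ha.1, ha.2, fun z hz hz' => hna ⟨z, ⟨?_, fun h => h hz'⟩, ?_⟩⟩
  · rw [mem_closedBall_zero_iff, mem_sphere_zero_iff_norm.1 hz]; exact ha.2
  · exact mem_sphere_zero_iff_norm.1 hz

lemma Start_gen {S W : ℂ → ℝ} {K : Set ℂ} (hK : IsCompact K)
    (hS : ∀ z ∈ K, ContDiffAt ℝ 1 S z) (hW : ∀ z ∈ K, ContDiffAt ℝ 1 W z)
    (h0 : ∀ z ∈ K, 0 < S z) (h1 : ∀ z ∈ K, 0 ≤ W z) {N : ℝ} (hN : 1 ≤ N) :
    ∃ D : ℝ, ∀ l : ℝ, 0 ≤ l → l ≤ 1 → ∀ z ∈ K,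
      ‖fderiv ℝ (fun w => Real.log (S w + l * W w) / N) z‖ ≤ D ∧
        -D ≤ Real.log (S z + l * W z) / N := by
  obtain ⟨s, hs, hs'⟩ := hK.exists_forall_le'
    (fun z hz => (hS z hz).continuousAt.continuousWithinAt) h0
  obtain ⟨B1, hB1⟩ := hK.exists_bound_of_continuousOn (f := fderiv ℝ S)
    (fun z hz => ((hS z hz).continuousAt_fderiv (by norm_num)).continuousWithinAt)
  obtain ⟨B2, hB2⟩ := hK.exists_bound_of_continuousOn (f := fderiv ℝ W)
    (fun z hz => ((hW z hz).continuousAt_fderiv (by norm_num)).continuousWithinAt)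
  have hN0 : 0 < N := by linarith
  refine ⟨max (s⁻¹ * (B1 + B2)) |Real.log s|, fun l hl0 hl1 z hz => ?_⟩
  have hp : s ≤ S z + l * W z := (hs' z hz).trans (le_add_of_nonneg_right (mul_nonneg hl0 (h1 z hz)))
  have hp0 : 0 < S z + l * W z := hs.trans_le hp
  constructor
  · have dS := ((hS z hz).differentiableAt (by norm_num)).hasFDerivAt
    have dW := ((hW z hz).differentiableAt (by norm_num)).hasFDerivAt
    have d := ((dS.add (dW.const_mul l)).log hp0.ne').mul_const N⁻¹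
    have e : (fun w => Real.log (S w + l * W w) / N) =
        fun w => Real.log (S w + l * W w) * N⁻¹ := by
      funext w; rw [div_eq_mul_inv]
    rw [e]
    refine (congrArg norm d.fderiv).le.trans (le_trans ?_ (le_max_left _ _))
    have a1 : ‖fderiv ℝ S z + l • fderiv ℝ W z‖ ≤ B1 + B2 := by
      refine (norm_add_le _ _).trans (add_le_add (hB1 z hz) ?_)
      rw [norm_smul, Real.norm_of_nonneg hl0]
      exact (mul_le_of_le_one_left (norm_nonneg _) hl1).trans (hB2 z hz)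
    rw [norm_smul, norm_smul, Real.norm_of_nonneg (inv_nonneg.2 hN0.le)]
    refine (mul_le_of_le_one_left (by positivity) (inv_le_one_of_one_le₀ hN)).trans ?_
    refine mul_le_mul ?_ a1 (norm_nonneg _) (inv_nonneg.2 hs.le)
    exact (Real.norm_of_nonneg (inv_nonneg.2 hp0.le)).le.trans (inv_anti₀ hs hp)
  · have b1 : Real.log s ≤ Real.log (S z + l * W z) := Real.log_le_log hs hp
    have b2 := neg_abs_le (Real.log s)
    have b3 := le_max_right (s⁻¹ * (B1 + B2)) |Real.log s|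
    have b4 := abs_nonneg (Real.log s)
    rw [le_div_iff₀ hN0]
    nlinarith

lemma Start_qq {f : ℂ → ℂ} (hf : Cl f 0 1) {z : ℂ} (hz : z ∈ ball (0 : ℂ) 1) :
    ContDiffAt ℝ 2 (qq f) z := by
  have h1 : ContDiffAt ℝ 2 bt z := by
    have h := mem_ball_zero_iff.1 hz
    have h0 := norm_nonneg z
    exact (contDiffAt_const.sub (nsq (A := fun w => w) analyticAt_id).1).inv (by nlinarith)
  have h2 := (nsq (hf.an1 z hz)).1
  have h3 := (nsq (A := fun w => deriv f w - 1) ((hf.an1 z hz).sub analyticAt_const)).1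
  have h4 := (lphi_lap (hf.an1 z hz)).1
  exact (((h1.pow 2).mul h2).mul h3).mul (contDiffAt_const.mul h4).exp



lemma start {f : ℂ → ℂ} (hf : Cl f 0 1) (hF : ∃ z ∈ ball (0 : ℂ) 1, deriv f z ≠ 0) :
    ∃ a : ℝ, 1 / 2 ≤ a ∧ a ≤ 3 / 4 ∧ ∀ n : ℕ, 1 ≤ n → ∃ D : ℝ, ∀ e : ℝ, 0 < e → e ≤ 1 →
      (∀ z ∈ sphere (0 : ℂ) a, ‖fderiv ℝ (ZZ n e f) z‖ ≤ D) ∧
        -D ≤ circleAverage (ZZ n e f) 0 a := by
  obtain ⟨a, ha1, ha2, ha⟩ := Start_rad hf.an1 hF
  have hsub : sphere (0 : ℂ) a ⊆ ball 0 1 := sphere_subset_ball (by linarith)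
  refine ⟨a, ha1, ha2, fun n hn => ?_⟩
  have hn' : (1 : ℝ) ≤ n := by exact_mod_cast hn
  obtain ⟨D, hD⟩ := Start_gen (S := fun z => pq f z ^ n + qq f z ^ n) (W := fun z => ww 1 f z ^ n)
    (isCompact_sphere (0 : ℂ) a)
    (fun z hz => ((((nsq (hf.an2 z (hsub hz))).1.pow n).add
      ((Start_qq hf (hsub hz)).pow n))).of_le (by norm_num))
    (fun z hz => (((contDiffAt_const.mul (nsq (hf.an z (hsub hz))).1).mul
      (nsq (A := fun w => deriv f w - 1) ((hf.an1 z (hsub hz)).sub analyticAt_const)).1).pow n).of_le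
        (by norm_num))
    (fun z hz => by
      have h1 := bt_pos (hsub hz)
      have h2 := norm_pos_iff.2 (ha z hz)
      have h3 := norm_pos_iff.2 (sub_ne_zero.2 (hf.2.2 z (hsub hz)))
      have h4 : 0 < qq f z := by unfold qq; positivity
      have h5 : 0 ≤ pq f z := by unfold pq; positivity
      positivity)
    (fun z _ => by unfold ww; positivity) (N := 2 * n) (by linarith)
  refine ⟨D, fun e he0 he1 => ?_⟩
  have E : ZZ n e f = fun w =>
      Real.log (pq f w ^ n + qq f w ^ n + (e ^ 2) ^ n * ww 1 f w ^ n) / (2 * n) := by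
    funext w
    have : ww e f w = e ^ 2 * ww 1 f w := by unfold ww; ring
    rw [ZZ, this, mul_pow]
  have H := hD ((e ^ 2) ^ n) (by positivity) (pow_le_one₀ (by positivity) (pow_le_one₀ he0.le he1))
  refine ⟨fun z hz => by rw [E]; exact (H z hz).1, ?_⟩
  rw [← circleAverage_const (-D) 0 a]
  refine circleAverage_mono (circleIntegrable_const _ _ _) (circleIntegrable_of_cont
    (fun z hz => (ZZ_lap hf hz hn he0).1.continuousAt.continuousWithinAt) (by linarith)
    (by linarith)) fun z hz => ?_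
  rw [abs_of_nonneg (by linarith)] at hz
  rw [E]; exact (H z hz).2

end Pool.Agent.Work.MP_6ac3f6_an.PF
end

-- merged part: Pool.Agent.Work.MP_6ac3f6_an.PF.Pol
section
/-!
# Polar coordinates on an annulus

Complex.integral_comp_polarCoord_symm (and the integrability statement behind it) applied to the
indicator of the annulus times the function; the target of polarCoord is Ioi 0 times Ioo (-pi) pi;
Fubini in both orders; periodicity moves the angle interval to [0, 2 pi] where needed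
(the second lemma keeps [-pi, pi]).
-/

set_option autoImplicit false

namespace Pool.Agent.Work.MP_6ac3f6_an.PF

open Complex Metric Set Filter Topology Real MeasureTheory ComplexConjugate

variable {ψ : ℂ → ℝ} {a r : ℝ}

lemma Pol_closed (a r : ℝ) : IsClosed (ann a r) :=
  (isClosed_le continuous_const continuous_norm).inter (isClosed_le continuous_norm continuous_const)

lemma measurableSet_ann (a r : ℝ) : MeasurableSet (ann a r) := (Pol_closed a r).measurableSet

lemma isCompact_ann (a r : ℝ) : IsCompact (ann a r) :=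
  (isCompact_closedBall (0 : ℂ) r).of_isClosed_subset (Pol_closed a r)
    fun _ hz => mem_closedBall_zero_iff.2 hz.2

lemma Pol_symm (p : ℝ × ℝ) : Complex.polarCoord.symm p = circleMap 0 p.1 p.2 := by
  rw [Complex.polarCoord_symm_apply, circleMap_zero, Complex.exp_mul_I]
  push_cast
  rfl

lemma Pol_key (ha : 0 < a) (hψ : IntegrableOn ψ (ann a r)) :
    Integrable (fun p : ℝ × ℝ => p.1 * ψ (circleMap 0 p.1 p.2))
      ((volume.restrict (Icc a r)).prod (volume.restrict (Ioo (-π) π))) ∧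
    ∫ z in ann a r, ψ z = ∫ p, p.1 * ψ (circleMap 0 p.1 p.2)
      ∂((volume.restrict (Icc a r)).prod (volume.restrict (Ioo (-π) π))) := by
  rw [Measure.prod_restrict, ← Measure.volume_eq_prod]
  have hQ : MeasurableSet (Icc a r ×ˢ Ioo (-π) π) := measurableSet_Icc.prod measurableSet_Ioo
  have hs : Icc a r ×ˢ Ioo (-π) π ⊆ polarCoord.target := fun p hp => ⟨ha.trans_le hp.1.1, hp.2⟩
  have hn : ∀ p ∈ polarCoord.target, circleMap 0 p.1 p.2 ∈ ann a r ↔ p ∈ Icc a r ×ˢ Ioo (-π) π := by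
    intro p hp
    simp only [ann, mem_ofPred_eq, norm_circleMap_zero, abs_of_pos (show 0 < p.1 from hp.1)]
    exact ⟨fun h => ⟨h, hp.2⟩, fun h => h.1⟩
  constructor
  · have h1 := (Complex.volume_preserving_equiv_real_prod.symm.integrableOn_comp_preimage
      measurableEquivRealProd.symm.measurableEmbedding).2 hψ
    have h2 := (integrableOn_image_iff_integrableOn_abs_det_fderiv_smul volume hQ
      (fun p _ => (hasFDerivAt_polarCoord_symm p).hasFDerivWithinAt)
      (polarCoord.symm.injOn.mono hs) _).1 (h1.mono_set (by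
        rintro _ ⟨p, hp, rfl⟩
        have := (hn p (hs hp)).2 hp
        rw [← Pol_symm] at this
        exact this))
    refine h2.congr_fun (fun p hp => ?_) hQ
    beta_reduce
    rw [det_fderivPolarCoordSymm, abs_of_pos (ha.trans_le hp.1.1), ← Pol_symm]
    rfl
  · rw [← integral_indicator (measurableSet_ann a r), ← Complex.integral_comp_polarCoord_symm,
      ← inter_eq_self_of_subset_right hs, ← setIntegral_indicator hQ]
    refine setIntegral_congr_fun polarCoord.open_target.measurableSet fun p hp => ?_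
    simp only [Pol_symm]
    by_cases h : p ∈ Icc a r ×ˢ Ioo (-π) π
    · rw [indicator_of_mem h, indicator_of_mem ((hn p hp).2 h), smul_eq_mul]
    · rw [indicator_of_notMem h, indicator_of_notMem fun h' => h ((hn p hp).1 h'), smul_zero]

lemma polar_rad (ha : 0 < a) (har : a ≤ r) (hψ : IntegrableOn ψ (ann a r)) :
    ∫ z in ann a r, ψ z = ∫ ρ in a..r, ρ * (2 * π * circleAverage ψ 0 ρ) := by
  obtain ⟨h1, h2⟩ := Pol_key ha hψ
  rw [h2, integral_prod _ h1, intervalIntegral.integral_of_le har, ← integral_Icc_eq_integral_Ioc]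
  refine integral_congr_ae (Eventually.of_forall fun ρ => ?_)
  simp only
  rw [integral_const_mul, circleAverage_eq_integral_add (-π), smul_eq_mul,
    mul_inv_cancel_left₀ (by positivity),
    intervalIntegral.integral_comp_add_right (fun θ => ψ (circleMap 0 ρ θ)), zero_add,
    show 2 * π + -π = π by ring, intervalIntegral.integral_of_le (by linarith [pi_pos]),
    integral_Ioc_eq_integral_Ioo]

lemma polar_ang (ha : 0 < a) (har : a ≤ r) (hψ : IntegrableOn ψ (ann a r)) :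
    IntervalIntegrable (fun θ => ∫ ρ in a..r, ρ * ψ (circleMap 0 ρ θ)) volume (-π) π ∧
    ∫ z in ann a r, ψ z = ∫ θ in (-π)..π, ∫ ρ in a..r, ρ * ψ (circleMap 0 ρ θ) := by
  obtain ⟨h1, h2⟩ := Pol_key ha hψ
  have hp : -π ≤ π := by linarith [pi_pos]
  simp only [intervalIntegral.integral_of_le har, ← integral_Icc_eq_integral_Ioc]
  refine ⟨(intervalIntegrable_iff_integrableOn_Ioo_of_le hp).2 h1.integral_prod_right, ?_⟩
  rw [h2, integral_prod_symm _ h1, intervalIntegral.integral_of_le hp, integral_Ioc_eq_integral_Ioo]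

end Pool.Agent.Work.MP_6ac3f6_an.PF
end

-- merged part: Pool.Agent.Work.MP_6ac3f6_an.PF.Tm
section
/-!
# The time spent in a set

The weight 1/(1-|z|) is continuous on the compact annulus. tm_split, tm_le: by polar_rad the integral
of the weight over ann b r is the integral of 2 pi s/(1-s) ≤ 2 pi/(1-s) over [b, r].
-/

set_option autoImplicit false

namespace Pool.Agent.Work.MP_6ac3f6_an.PF

open Complex Metric Set Filter Topology Real MeasureTheory ComplexConjugate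

variable {E E' : Set ℂ} {a r r' : ℝ}

lemma Tm_int (a : ℝ) (hr : r < 1) : IntegrableOn (fun z : ℂ => (1 - ‖z‖)⁻¹) (ann a r) := by
  refine ContinuousOn.integrableOn_compact (isCompact_ann a r) ?_
  refine ContinuousOn.inv₀ (by fun_prop) fun z hz => ?_
  have := hz.2
  exact (show 0 < 1 - ‖z‖ by linarith).ne'

lemma Tm_nn (hr : r < 1) {z : ℂ} (hz : z ∈ ann a r) : 0 ≤ (1 - ‖z‖)⁻¹ := by
  have := hz.2
  exact inv_nonneg.2 (by linarith)

lemma Tm_ann {b : ℝ} (hb : 0 < b) (h : b ≤ r) (hr : r < 1) :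
    ∫ z in ann b r, (1 - ‖z‖)⁻¹ ≤ 2 * π * Real.log ((1 - b) / (1 - r)) := by
  rw [polar_rad hb h (Tm_int b hr)]
  have e : ∀ ρ ∈ uIcc b r, ρ * (2 * π * circleAverage (fun z : ℂ => (1 - ‖z‖)⁻¹) 0 ρ) =
      2 * π * (ρ * (1 - ρ)⁻¹) := by
    intro ρ hρ
    rw [uIcc_of_le h] at hρ
    have h0 : 0 < ρ := hb.trans_le hρ.1
    have : circleAverage (fun z : ℂ => (1 - ‖z‖)⁻¹) 0 ρ = (1 - ρ)⁻¹ := by
      rw [circleAverage_congr_sphere (f₂ := fun _ => (1 - ρ)⁻¹), circleAverage_const]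
      intro z hz
      have : ‖z‖ = ρ := by simpa [abs_of_pos h0] using hz
      simp only [this]
    rw [this]; ring
  rw [intervalIntegral.integral_congr e, intervalIntegral.integral_const_mul]
  refine mul_le_mul_of_nonneg_left ?_ (by positivity)
  have hc : ContinuousOn (fun ρ : ℝ => (1 - ρ)⁻¹) (uIcc b r) := by
    refine ContinuousOn.inv₀ (by fun_prop) fun ρ hρ => ?_
    rw [uIcc_of_le h] at hρ
    have := hρ.2
    exact (show 0 < 1 - ρ by linarith).ne'
  have h1 : ∫ ρ in b..r, (1 - ρ)⁻¹ = Real.log ((1 - b) / (1 - r)) := by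
    rw [intervalIntegral.integral_comp_sub_left (fun x : ℝ => x⁻¹) 1,
      integral_inv_of_pos (by linarith) (by linarith)]
  rw [← h1]
  refine intervalIntegral.integral_mono_on h (continuousOn_id.mul hc).intervalIntegrable
    hc.intervalIntegrable fun ρ hρ => ?_
  have h2 : 0 ≤ (1 - ρ)⁻¹ := inv_nonneg.2 (by linarith [hρ.2])
  nlinarith [hρ.2]

lemma integrableOn_wt (E : Set ℂ) (a : ℝ) (hr : r < 1) :
    IntegrableOn (fun z : ℂ => (1 - ‖z‖)⁻¹) (E ∩ ann a r) :=
  (Tm_int a hr).mono_set inter_subset_right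

lemma tm_nonneg (hE : MeasurableSet E) (hr : r < 1) : 0 ≤ tm E a r :=
  setIntegral_nonneg (hE.inter (measurableSet_ann a r)) fun _ hz => Tm_nn hr hz.2

lemma tm_mono (hE' : MeasurableSet E') (h : E ⊆ E') (hr : r < 1) : tm E a r ≤ tm E' a r :=
  setIntegral_mono_set (integrableOn_wt E' a hr)
    (ae_restrict_of_forall_mem (hE'.inter (measurableSet_ann a r)) fun _ hz => Tm_nn hr hz.2)
    (inter_subset_inter_left _ h).eventuallyLE

lemma tm_union_le (hE : MeasurableSet E) (hE' : MeasurableSet E') (hr : r < 1) :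
    tm (E ∪ E') a r ≤ tm E a r + tm E' a r := by
  have h1 : tm (E ∪ E') a r = tm E a r + tm (E' \ E) a r := by
    unfold tm
    rw [← setIntegral_union ?_ ((hE'.diff hE).inter (measurableSet_ann a r))
      (integrableOn_wt E a hr) (integrableOn_wt _ a hr), ← union_inter_distrib_right,
      union_sdiff_self]
    exact Set.disjoint_left.2 fun z h1 h2 => h2.1.2 h1.1
  rw [h1]
  linarith [tm_mono (a := a) hE' (sdiff_subset : E' \ E ⊆ E') hr]

lemma tm_eq_indicator (hE : MeasurableSet E) :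
    tm E a r = ∫ z in ann a r, E.indicator (fun z : ℂ => (1 - ‖z‖)⁻¹) z := by
  rw [setIntegral_indicator hE, inter_comm]
  rfl

lemma tm_split (hE : MeasurableSet E) (h0 : 0 < r') (h : r' ≤ r) (hr : r < 1) :
    tm E a r ≤ tm E a r' + 2 * π * Real.log ((1 - r') / (1 - r)) := by
  have hm := hE.inter (measurableSet_ann a r)
  have h1 := integral_inter_add_sdiff (measurableSet_ann a r') (integrableOn_wt E a hr)
  have e : E ∩ ann a r ∩ ann a r' = E ∩ ann a r' := by
    ext z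
    exact ⟨fun hz => ⟨hz.1.1, hz.2⟩, fun hz => ⟨⟨hz.1, hz.2.1, hz.2.2.trans h⟩, hz.2⟩⟩
  rw [e] at h1
  have h2 : ∫ z in (E ∩ ann a r) \ ann a r', (1 - ‖z‖)⁻¹ ≤ ∫ z in ann r' r, (1 - ‖z‖)⁻¹ := by
    refine setIntegral_mono_set (Tm_int r' hr)
      (ae_restrict_of_forall_mem (measurableSet_ann r' r) fun _ hz => Tm_nn hr hz)
      (LE.le.eventuallyLE fun z hz => ⟨?_, hz.1.2.2⟩)
    by_contra hc
    exact hz.2 ⟨hz.1.2.1, (not_le.1 hc).le⟩
  have h3 := Tm_ann h0 h hr
  unfold tm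
  linarith

lemma tm_le (hE : MeasurableSet E) (ha : 0 < a) (har : a ≤ r) (hr : r < 1) :
    tm E a r ≤ 2 * π * LL r := by
  have h1 := tm_mono (a := a) MeasurableSet.univ (subset_univ E) hr
  have h2 := Tm_ann ha har hr
  have h3 : tm univ a r = ∫ z in ann a r, (1 - ‖z‖)⁻¹ := by unfold tm; rw [univ_inter]
  have h4 : Real.log ((1 - a) / (1 - r)) ≤ LL r := by
    unfold LL
    rw [← Real.log_inv]
    refine Real.log_le_log (div_pos (by linarith) (by linarith)) ?_
    rw [div_eq_mul_inv]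
    have : 0 ≤ (1 - r)⁻¹ := inv_nonneg.2 (by linarith)
    nlinarith
  have := pi_pos
  nlinarith

end Pool.Agent.Work.MP_6ac3f6_an.PF
end

-- merged part: Pool.Agent.Work.MP_6ac3f6_an.PF.GreC
section
/-!
# The formula of Green as an inequality

By green_polar and polar_rad for psi z = log (r/|z|) Lap W z (continuous on the annulus by
continuousAt_Lap; on the circle of radius s it is log (r/s) Lap W) the last integral is
(2 pi)^(-1) times the integral of psi over ann a r. The boundary term is at most D a log (r/a) ≤ D.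
Lower form: for a ≤ |z| ≤ r' we have log (r/|z|) ≥ r - |z| ≥ (1-|z|)/2 and bt^2 ≥ 1/(4 (1-|z|)^2).
Upper form: log (r/|z|) ≤ (r-|z|)/|z| ≤ 2 (1-|z|) and bt^2 ≤ 1/(1-|z|)^2.
-/

set_option autoImplicit false

namespace Pool.Agent.Work.MP_6ac3f6_an.PF

open Complex Metric Set Filter Topology Real MeasureTheory ComplexConjugate

variable {W : ℂ → ℝ} {E : Set ℂ} {κ D a r r' : ℝ}

lemma GreC_int (hW : ∀ z ∈ ball (0 : ℂ) 1, ContDiffAt ℝ 2 W z) (ha : 1 / 2 ≤ a) (hr : r < 1) :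
    IntegrableOn (fun z => Real.log (r / ‖z‖) * Lap W z) (ann a r) := by
  refine ContinuousOn.integrableOn_compact (isCompact_ann a r) fun z hz => ?_
  have h1 : 0 < ‖z‖ := by linarith [hz.1]
  have h2 : 0 < r := h1.trans_le hz.2
  refine (ContinuousAt.mul (ContinuousAt.log (continuousAt_const.div continuous_norm.continuousAt
    h1.ne') (div_pos h2 h1).ne') (continuousAt_Lap (hW z ?_))).continuousWithinAt
  exact mem_ball_zero_iff.2 (hz.2.trans_lt hr)

lemma GreC_main (hW : ∀ z ∈ ball (0 : ℂ) 1, ContDiffAt ℝ 2 W z) (ha : 1 / 2 ≤ a) (har : a ≤ r)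
    (hr : r < 1) (hD : ∀ z ∈ sphere (0 : ℂ) a, ‖fderiv ℝ W z‖ ≤ D) :
    (2 * π)⁻¹ * ∫ z in ann a r, Real.log (r / ‖z‖) * Lap W z ≤
      circleAverage W 0 r - circleAverage W 0 a + D := by
  have ha0 : 0 < a := by linarith
  have e1 : ∫ ρ in a..r, ρ * (2 * π *
      circleAverage (fun z => Real.log (r / ‖z‖) * Lap W z) 0 ρ) =
      2 * π * ∫ ρ in a..r, ρ * Real.log (r / ρ) * circleAverage (Lap W) 0 ρ := by
    rw [← intervalIntegral.integral_const_mul]
    refine intervalIntegral.integral_congr fun ρ hρ => ?_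
    rw [uIcc_of_le har] at hρ
    have h1 : circleAverage (fun z => Real.log (r / ‖z‖) * Lap W z) 0 ρ =
        circleAverage (fun z => Real.log (r / ρ) • Lap W z) 0 ρ :=
      circleAverage_congr_sphere fun z hz => by
        rw [mem_sphere_zero_iff_norm, abs_of_pos (ha0.trans_le hρ.1)] at hz
        simp only [hz, smul_eq_mul]
    rw [h1, circleAverage_fun_smul, smul_eq_mul]
    ring
  have hsp : ∀ θ, circleMap 0 a θ ∈ sphere (0 : ℂ) a := fun θ => circleMap_mem_sphere 0 ha0.le θ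
  have hD0 : 0 ≤ D := (norm_nonneg _).trans (hD _ (hsp 0))
  have h2 : ‖∫ θ in (0 : ℝ)..2 * π, fderiv ℝ W (circleMap 0 a θ) (circleMap 0 a θ)‖ ≤
      D * |2 * π - 0| := intervalIntegral.norm_integral_le_of_norm_le_const fun θ _ => by
    refine ((fderiv ℝ W _).le_opNorm _).trans ?_
    rw [mem_sphere_zero_iff_norm.1 (hsp θ)]
    nlinarith [hD _ (hsp θ), norm_nonneg (fderiv ℝ W (circleMap 0 a θ))]
  rw [sub_zero, abs_of_pos two_pi_pos, Real.norm_eq_abs] at h2
  have h3 : -D ≤ circleAverage (fun z => fderiv ℝ W z z) 0 a := by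
    rw [circleAverage_def, smul_eq_mul, le_inv_mul_iff₀ two_pi_pos]
    linarith [(abs_le.1 h2).1]
  have h4 : 0 ≤ Real.log (r / a) := Real.log_nonneg ((one_le_div ha0).2 har)
  have h5 : Real.log (r / a) ≤ 1 := by
    refine (Real.log_le_sub_one_of_pos (div_pos (ha0.trans_le har) ha0)).trans ?_
    rw [sub_le_iff_le_add, div_le_iff₀ ha0]
    linarith
  rw [polar_rad ha0 har (GreC_int hW ha hr), e1, inv_mul_cancel_left₀ two_pi_pos.ne',
    green_polar hW ha0 har hr]
  nlinarith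

lemma green_lower (hW : ∀ z ∈ ball (0 : ℂ) 1, ContDiffAt ℝ 2 W z) (hE : MeasurableSet E)
    (hκ : 0 ≤ κ) (ha : 1 / 2 ≤ a) (har : a ≤ r') (hr' : 2 * (1 - r) ≤ 1 - r') (hr : r < 1)
    (h0 : ∀ z ∈ ann a r, 0 ≤ Lap W z) (h1 : ∀ z ∈ E ∩ ann a r, κ * bt z ^ 2 ≤ Lap W z)
    (hD : ∀ z ∈ sphere (0 : ℂ) a, ‖fderiv ℝ W z‖ ≤ D) :
    κ / (16 * π) * tm E a r' ≤ circleAverage W 0 r - circleAverage W 0 a + D := by
  have hr1 : r' ≤ r := by linarith
  have hsub : E ∩ ann a r' ⊆ ann a r := fun z hz => ⟨hz.2.1, hz.2.2.trans hr1⟩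
  have hi := GreC_int hW ha hr
  have h2 : κ / 8 * tm E a r' ≤ ∫ z in E ∩ ann a r', Real.log (r / ‖z‖) * Lap W z := by
    rw [tm, ← integral_const_mul]
    refine setIntegral_mono_on ((integrableOn_wt E a (hr1.trans_lt hr)).const_mul _)
      (hi.mono_set hsub) (hE.inter (measurableSet_ann a r')) fun z hz => ?_
    have hz0 : 0 < ‖z‖ := by linarith [hz.2.1]
    have hzr := (hsub hz).2
    have hb : z ∈ ball (0 : ℂ) 1 := mem_ball_zero_iff.2 (hzr.trans_lt hr)
    have ht := t_pos hb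
    have hr0 : 0 < r := hz0.trans_le hzr
    have h3 : (1 - ‖z‖) / 2 ≤ Real.log (r / ‖z‖) := by
      refine le_trans ?_ (Real.one_sub_inv_le_log_of_pos (div_pos hr0 hz0))
      rw [inv_div, le_sub_comm, div_le_iff₀ hr0]
      nlinarith [hz.2.2]
    have h4 := h1 z ⟨hz.1, hsub hz⟩
    have h5 := one_le_two_bt_mul_t hb
    have h6 : κ / 8 * (1 - ‖z‖)⁻¹ ≤ (1 - ‖z‖) / 2 * (κ * bt z ^ 2) := by
      rw [← div_eq_mul_inv, div_le_iff₀ ht]
      have : 1 ≤ (2 * (bt z * (1 - ‖z‖))) ^ 2 := one_le_pow₀ h5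
      linarith only [this, hκ, mul_le_mul_of_nonneg_left this hκ]
    exact h6.trans (mul_le_mul h3 h4 (by positivity) (by linarith))
  have h3 : ∫ z in E ∩ ann a r', Real.log (r / ‖z‖) * Lap W z ≤
      ∫ z in ann a r, Real.log (r / ‖z‖) * Lap W z := by
    refine setIntegral_mono_set hi ?_ hsub.eventuallyLE
    refine (ae_restrict_iff' (measurableSet_ann a r)).2 (ae_of_all _ fun z hz => ?_)
    have hz0 : 0 < ‖z‖ := by linarith [hz.1]
    exact mul_nonneg (Real.log_nonneg ((one_le_div hz0).2 hz.2)) (h0 z hz)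
  refine le_trans ?_ (GreC_main hW ha (har.trans hr1) hr hD)
  have e : κ / (16 * π) * tm E a r' = (2 * π)⁻¹ * (κ / 8 * tm E a r') := by
    field_simp
    ring
  rw [e]
  exact mul_le_mul_of_nonneg_left (h2.trans h3) (by positivity)

lemma green_upper (hW : ∀ z ∈ ball (0 : ℂ) 1, ContDiffAt ℝ 2 W z) (hE : MeasurableSet E)
    (hκ : 0 ≤ κ) (ha : 1 / 2 ≤ a) (har : a ≤ r) (hr : r < 1)
    (h0 : ∀ z ∈ ann a r, z ∉ E → 0 ≤ Lap W z) (h1 : ∀ z ∈ ann a r, -(κ * bt z ^ 2) ≤ Lap W z)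
    (hD : ∀ z ∈ sphere (0 : ℂ) a, ‖fderiv ℝ W z‖ ≤ D) :
    -(κ / π * tm E a r) ≤ circleAverage W 0 r - circleAverage W 0 a + D := by
  have hi := GreC_int hW ha hr
  have hw : IntegrableOn (E.indicator fun z : ℂ => (1 - ‖z‖)⁻¹) (ann a r) := by
    have := integrableOn_wt univ a hr
    rw [univ_inter] at this
    exact this.indicator hE
  have h2 : -(2 * κ) * tm E a r ≤ ∫ z in ann a r, Real.log (r / ‖z‖) * Lap W z := by
    rw [tm_eq_indicator hE, ← integral_const_mul]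
    refine setIntegral_mono_on (hw.const_mul _) hi (measurableSet_ann a r) fun z hz => ?_
    have hz0 : 0 < ‖z‖ := by linarith [hz.1]
    have hl : 0 ≤ Real.log (r / ‖z‖) := Real.log_nonneg ((one_le_div hz0).2 hz.2)
    by_cases hzE : z ∈ E
    · have hb : z ∈ ball (0 : ℂ) 1 := mem_ball_zero_iff.2 (hz.2.trans_lt hr)
      have ht := t_pos hb
      have h3 : Real.log (r / ‖z‖) ≤ 2 * (1 - ‖z‖) := by
        refine (Real.log_le_sub_one_of_pos (div_pos (hz0.trans_le hz.2) hz0)).trans ?_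
        rw [sub_le_iff_le_add, div_le_iff₀ hz0]
        nlinarith [hz.1]
      have h4 := bt_mul_t_le hb
      have h5 : 2 * (1 - ‖z‖) * (κ * bt z ^ 2) ≤ 2 * κ * (1 - ‖z‖)⁻¹ := by
        rw [← div_eq_mul_inv, le_div_iff₀ ht]
        have : (bt z * (1 - ‖z‖)) ^ 2 ≤ 1 :=
          pow_le_one₀ (mul_nonneg (bt_pos hb).le ht.le) h4
        linarith only [this, hκ, mul_le_mul_of_nonneg_left this hκ]
      have h6 := mul_le_mul_of_nonneg_left (h1 z hz) hl
      have h7 := mul_le_mul_of_nonneg_right h3 (show 0 ≤ κ * bt z ^ 2 by positivity)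
      rw [indicator_of_mem hzE]
      linarith
    · rw [indicator_of_notMem hzE, mul_zero]
      exact mul_nonneg hl (h0 z hz hzE)
  refine le_trans ?_ (GreC_main hW ha har hr hD)
  have e : -(κ / π * tm E a r) = (2 * π)⁻¹ * (-(2 * κ) * tm E a r) := by
    field_simp
  rw [e]
  exact mul_le_mul_of_nonneg_left h2 (by positivity)

end Pool.Agent.Work.MP_6ac3f6_an.PF
end

-- merged part: Pool.Agent.Work.MP_6ac3f6_an.PF.Flux
section
/-!
# Creation of small values

flux: green_upper for W = (1/4) log bt - Ph f, with Lap W ≥ bt^2 - Lap Ph (Ph_lap, logbt), E = SA k1 f,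
kappa = C1; D bounds the derivative of W on the compact circle; the average of log bt on the circle of
radius r is log (1/(1-r^2)), between 0 and LL r.
mk_inv_le: posLog (1/|f|) = max (log bt - kk) 0 ≤ log bt + km.
gr_of_mir: mk f⁻¹ 0 r ≤ LL r + avg km ≤ C' LL r by flux and tm_le (LL r ≥ log 2 for r ≥ 1/2), and
mk f 0 r = mk f⁻¹ 0 r + log |f 0| (see char_inv, avg_abs, or the mean value property of log |f|).
-/

set_option autoImplicit false

namespace Pool.Agent.Work.MP_6ac3f6_an.PF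

open Complex Metric Set Filter Topology Real MeasureTheory ComplexConjugate

lemma Flux_logbt {r : ℝ} (h0 : 0 ≤ r) :
    circleAverage (fun z => Real.log (bt z)) 0 r = -Real.log (1 - r ^ 2) := by
  rw [circleAverage_congr_sphere (f₂ := fun _ => -Real.log (1 - r ^ 2)), circleAverage_const]
  intro z hz
  rw [abs_of_nonneg h0, mem_sphere_zero_iff_norm] at hz
  simp only [bt, hz, Real.log_inv]

lemma avg_logbt {r : ℝ} (h0 : 0 ≤ r) (h1 : r < 1) :
    0 ≤ circleAverage (fun z => Real.log (bt z)) 0 r ∧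
      circleAverage (fun z => Real.log (bt z)) 0 r ≤ LL r := by
  rw [Flux_logbt h0, LL]
  refine ⟨neg_nonneg.2 (Real.log_nonpos (by nlinarith) (by nlinarith)), neg_le_neg ?_⟩
  exact Real.log_le_log (by linarith) (by nlinarith)

lemma flux {C : ℝ} (hC : 1 ≤ C) : ∃ k1 C1 : ℝ, 0 ≤ C1 ∧ ∀ f : ℂ → ℂ, Mir C f →
    ∀ a : ℝ, 1 / 2 ≤ a → a < 1 → ∃ D : ℝ, ∀ r : ℝ, a ≤ r → r < 1 →
      circleAverage (km f) 0 r ≤ LL r / 4 + C1 * tm (SA k1 f) a r + D := by
  obtain ⟨k1, C1, -, hC1, h⟩ := Ph_lap hC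
  refine ⟨k1, C1 / π, by positivity, fun f hf a ha1 ha2 => ?_⟩
  have h := h f hf
  have cW : ∀ z ∈ ball (0 : ℂ) 1, ContDiffAt ℝ 2
      (fun w => 1 / 4 * Real.log (bt w) + -1 * Ph f w) z := fun z hz =>
    (contDiffAt_const.mul (logbt hz).1).add (contDiffAt_const.mul (h z hz).1)
  have lW : ∀ z ∈ ball (0 : ℂ) 1, Lap (fun w => 1 / 4 * Real.log (bt w) + -1 * Ph f w) z =
      bt z ^ 2 - Lap (Ph f) z := fun z hz => by
    rw [Lap_add (contDiffAt_const.mul (logbt hz).1) (contDiffAt_const.mul (h z hz).1),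
      Lap_cmul (logbt hz).1, Lap_cmul (h z hz).1, (logbt hz).2.2.2]
    ring
  obtain ⟨D, hD⟩ := (isCompact_sphere (0 : ℂ) a).exists_bound_of_continuousOn
    (f := fderiv ℝ fun w => 1 / 4 * Real.log (bt w) + -1 * Ph f w) fun z hz =>
      ((cW z (sphere_subset_ball ha2 hz)).continuousAt_fderiv (by norm_num)).continuousWithinAt
  refine ⟨D - circleAverage (fun w => 1 / 4 * Real.log (bt w) + -1 * Ph f w) 0 a,
    fun r h1 h2 => ?_⟩
  have hb : ∀ z ∈ ann a r, z ∈ ball (0 : ℂ) 1 := fun z hz =>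
    mem_ball_zero_iff.2 (hz.2.trans_lt h2)
  have G := green_upper (κ := C1) cW (hf.1.meas_SA k1) hC1 ha1 h1 h2
    (fun z hz hz' => by
      rw [lW z (hb z hz)]
      linarith [(h z (hb z hz)).2.2 hz'])
    (fun z hz => by
      rw [lW z (hb z hz)]
      linarith [(h z (hb z hz)).2.1, sq_nonneg (bt z)]) hD
  have r0 : (0 : ℝ) ≤ r := by linarith
  have c1 : ContinuousOn (fun z => Real.log (bt z)) (ball 0 1) := fun z hz =>
    (logbt hz).1.continuousAt.continuousWithinAt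
  have c2 : ContinuousOn (Ph f) (ball 0 1) := fun z hz =>
    (h z hz).1.continuousAt.continuousWithinAt
  have sp : circleAverage (fun w => 1 / 4 * Real.log (bt w) + -1 * Ph f w) 0 r =
      1 / 4 * circleAverage (fun z => Real.log (bt z)) 0 r + -1 * circleAverage (Ph f) 0 r := by
    have j1 : CircleIntegrable (fun z => 1 / 4 * Real.log (bt z)) 0 r :=
      circleIntegrable_of_cont (continuousOn_const.mul c1) r0 h2
    have j2 : CircleIntegrable (fun z => -1 * Ph f z) 0 r :=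
      circleIntegrable_of_cont (continuousOn_const.mul c2) r0 h2
    rw [circleAverage_fun_add j1 j2]
    congr 1
    · exact circleAverage_fun_smul (f := fun z => Real.log (bt z)) (a := (1 / 4 : ℝ))
    · exact circleAverage_fun_smul (f := Ph f) (a := (-1 : ℝ))
  have m := circleAverage_mono (circleIntegrable_of_cont hf.1.cont_km r0 h2)
    (circleIntegrable_of_cont c2 r0 h2) fun z _ => km_le_Ph f z
  rw [sp] at G
  linarith [(avg_logbt r0 h2).2]

lemma mk_inv_le {f : ℂ → ℂ} (hf : Cl f 0 1) {r : ℝ} (h1 : 1 / 2 ≤ r) (h2 : r < 1) :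
    mk f⁻¹ 0 r ≤ LL r + circleAverage (km f) 0 r := by
  have r0 : (0 : ℝ) ≤ r := by linarith
  have mf : Mer f := fun z hz => (hf.an z hz).meromorphicAt
  have c1 : ContinuousOn (fun z => Real.log (bt z)) (ball 0 1) := fun z hz =>
    (logbt hz).1.continuousAt.continuousWithinAt
  have i1 := circleIntegrable_of_cont c1 r0 h2
  have i2 := circleIntegrable_of_cont hf.cont_km r0 h2
  refine le_trans ?_ (add_le_add_left (avg_logbt r0 h2).2 _)
  rw [← circleAverage_add i1 i2]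
  refine circleAverage_mono (int_mk mf.inv h1 h2 _) (i1.add i2) fun z hz => ?_
  have hz' := sph_sub h1 h2 hz
  have b := Real.log_nonneg (one_le_bt hz')
  have n0 : 0 < ‖f z‖ := norm_pos_iff.2 (hf.2.1 z hz')
  have k : kk f z = Real.log ‖f z‖ + Real.log (bt z) := Real.log_mul n0.ne' (bt_pos hz').ne'
  simp only [pow_zero, one_mul, Pi.inv_apply, norm_inv, Pi.add_apply, km, posLog_apply,
    Real.log_inv]
  refine max_le ?_ ?_
  · linarith [le_max_right (-kk f z) 0]
  · linarith [le_max_left (-kk f z) 0]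

lemma gr_of_mir {C : ℝ} (hC : 1 ≤ C) {f : ℂ → ℂ} (hf : Mir C f) : Gr f := by
  have mf : Mer f := fun z hz => (hf.1.an z hz).meromorphicAt
  obtain ⟨k1, C1, hC1, h⟩ := flux hC
  obtain ⟨D, hD⟩ := h f hf (1 / 2) le_rfl (by norm_num)
  refine ⟨hf.1.an, mf, 5 / 4 + C1 * (2 * π) + 1, ?_⟩
  filter_upwards [ev_rng, Sm.const (D + Real.log ‖f 0‖) 1 one_pos] with r hr k
  obtain ⟨h1, h2⟩ := hr
  have a1 := hD r h1 h2
  have a2 := mul_le_mul_of_nonneg_left (tm_le (hf.1.meas_SA k1) (a := 1 / 2) (by norm_num) h1 h2) hC1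
  have a3 := mk_inv_le hf.1 h1 h2
  have hsub : closedBall (0 : ℂ) |r| ⊆ ball 0 1 := by
    rw [abs_of_pos (by linarith)]
    exact closedBall_subset_ball h2
  have a4 : circleAverage (fun z => Real.log ‖f z‖) 0 r = Real.log ‖f 0‖ :=
    InnerProductSpace.HarmonicOnNhd.circleAverage_eq (f := fun z => Real.log ‖f z‖) fun z hz =>
      (hf.1.an z (hsub hz)).harmonicAt_log_norm (hf.1.2.1 z (hsub hz))
  have a5 : mk f 0 r = circleAverage (fun z => Real.log ‖f z‖) 0 r + mk f⁻¹ 0 r := by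
    unfold mk
    rw [← circleAverage_add (int_log mf h1 h2) (int_mk mf.inv h1 h2 _)]
    congr 1
    funext z
    simp only [pow_zero, one_mul, Pi.add_apply, Pi.inv_apply, norm_inv]
    linarith [posLog_sub_posLog_inv (x := ‖f z‖)]
  linarith

end Pool.Agent.Work.MP_6ac3f6_an.PF
end

-- merged part: Pool.Agent.Work.MP_6ac3f6_an.PF.UpZ
section
/-!
# Pointwise upper bound of the potential

K = |f| bt = exp kk, B = bt |f' - 1| min 1 K, so log B = log bt + log |f'-1| - km.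
u1 = |f''/f| / bt^2, u2 = |f'/f| / bt, u3 = |f''/(f'-1)| / bt, l = 1 + log (1 + |f'|^2) ≥ 1,
A = 2 max 1 u1 max 1 u2 max 1 u3 l. Each of sqrt pq, sqrt qq, sqrt ww is at most A B:
|f''| = u3 bt |f'-1|; if K < 1 and |f'| ≤ 1/2 then |f''| = u1 bt K ≤ 2 u1 bt K |f'-1|; if K < 1 and
|f'| > 1/2 then 1 < 2 u2 K. For qq use lphi_upper and |f'| = u2 K. For ww use e |f| ≤ 1 ≤ bt and
e |f| ≤ bt K. Hence ZZ ≤ log 3 / (2n) + log (A B), and log (max 1 u) is posLog u.
-/

set_option autoImplicit false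

namespace Pool.Agent.Work.MP_6ac3f6_an.PF

open Complex Metric Set Filter Topology Real MeasureTheory ComplexConjugate

lemma UpZ_A {U1 U2 U3 l : ℝ} (h1 : 1 ≤ U1) (h2 : 1 ≤ U2) (h3 : 1 ≤ U3) (hl : 1 ≤ l) :
    2 * U1 ≤ 2 * U1 * U2 * U3 * l ∧ 2 * U2 * U3 ≤ 2 * U1 * U2 * U3 * l ∧
      l * U2 ≤ 2 * U1 * U2 * U3 * l := by
  have a1 : 1 ≤ U2 * U3 * l := one_le_mul_of_one_le_of_one_le
    (one_le_mul_of_one_le_of_one_le h2 h3) hl
  have a2 : 1 ≤ U1 * l := one_le_mul_of_one_le_of_one_le h1 hl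
  have a3 : 1 ≤ 2 * U1 * U3 := one_le_mul_of_one_le_of_one_le (by linarith) h3
  have b1 := mul_le_mul_of_nonneg_left a1 (by linarith : 0 ≤ 2 * U1)
  have b2 := mul_le_mul_of_nonneg_left a2 (by positivity : 0 ≤ 2 * U2 * U3)
  have b3 := mul_le_mul_of_nonneg_left a3 (by positivity : 0 ≤ l * U2)
  exact ⟨by linarith, by linarith, by linarith⟩

lemma UpZ_real {b a0 a1 a2 d e g l U1 U2 U3 A : ℝ} (hb : 1 ≤ b) (h0 : 0 < a0) (hd : 0 < d)
    (hd1 : 1 - a1 ≤ d) (he1 : e ≤ 1) (he2 : e * a0 ≤ 1) (hl : 1 ≤ l) (hg : g ≤ l * min 1 a1)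
    (u1 : 1 ≤ U1) (u2 : 1 ≤ U2) (u3 : 1 ≤ U3) (v1 : a2 ≤ U1 * (b * (a0 * b)))
    (v2 : a1 ≤ U2 * (a0 * b)) (v3 : a2 ≤ U3 * (b * d)) (hA : A = 2 * U1 * U2 * U3 * l) :
    a2 ≤ A * (b * d * min 1 (a0 * b)) ∧ b * d * g ≤ A * (b * d * min 1 (a0 * b)) ∧
      e * a0 * d ≤ A * (b * d * min 1 (a0 * b)) := by
  obtain ⟨A1, A2, A3⟩ := UpZ_A u1 u2 u3 hl
  rw [← hA] at A1 A2 A3
  have hb0 : 0 < b := by linarith
  have hbd : 0 < b * d := mul_pos hb0 hd
  have hK : 0 < a0 * b := mul_pos h0 hb0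
  have A4 : U3 ≤ A := by nlinarith
  have A5 : 1 ≤ A := u3.trans A4
  rcases le_total 1 (a0 * b) with h | h
  · rw [min_eq_left h, mul_one]
    refine ⟨v3.trans (mul_le_mul_of_nonneg_right A4 hbd.le), ?_, ?_⟩
    · rw [mul_comm A]
      refine mul_le_mul_of_nonneg_left (hg.trans (le_trans ?_ A3)) hbd.le
      exact mul_le_mul_of_nonneg_left ((min_le_left _ _).trans u2) (by linarith)
    · have c1 : e * a0 * d ≤ b * d := mul_le_mul_of_nonneg_right (he2.trans hb) hd.le
      exact c1.trans (le_mul_of_one_le_left hbd.le A5)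
  · rw [min_eq_right h]
    have hB : 0 < b * d * (a0 * b) := mul_pos hbd hK
    refine ⟨?_, ?_, ?_⟩
    · rcases le_total a1 (1 / 2) with h2 | h2
      · refine le_trans ?_ (mul_le_mul_of_nonneg_right A1 hB.le)
        have c1 := mul_le_mul_of_nonneg_left (by linarith : 1 ≤ 2 * d)
          (by positivity : 0 ≤ U1 * (b * (a0 * b)))
        linarith
      · refine le_trans ?_ (mul_le_mul_of_nonneg_right A2 hB.le)
        have c1 := mul_le_mul_of_nonneg_left (by linarith : 1 ≤ 2 * (U2 * (a0 * b)))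
          (by positivity : 0 ≤ U3 * (b * d))
        linarith
    · refine le_trans ?_ (mul_le_mul_of_nonneg_right A3 hB.le)
      have c1 : g ≤ l * (U2 * (a0 * b)) :=
        hg.trans (mul_le_mul_of_nonneg_left ((min_le_right _ _).trans v2) (by linarith))
      have c2 := mul_le_mul_of_nonneg_left c1 hbd.le
      linarith
    · refine le_trans ?_ (le_mul_of_one_le_left hB.le A5)
      have c1 : e ≤ b * b := he1.trans (one_le_mul_of_one_le_of_one_le hb hb)
      have c2 := mul_le_mul_of_nonneg_right c1 (mul_pos h0 hd).le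
      linarith

lemma UpZ_log {x y w M : ℝ} {n : ℕ} (hn : 1 ≤ n) (hx : 0 ≤ x) (hy : 0 ≤ y) (hw : 0 < w)
    (h1 : x ≤ M) (h2 : y ≤ M) (h3 : w ≤ M) :
    Real.log ((x ^ 2) ^ n + (y ^ 2) ^ n + (w ^ 2) ^ n) / (2 * n) ≤ 2 + Real.log M := by
  have hM : 0 < M := hw.trans_le h3
  have hn' : (1 : ℝ) ≤ n := by exact_mod_cast hn
  have a1 : (x ^ 2) ^ n ≤ (M ^ 2) ^ n := by gcongr
  have a2 : (y ^ 2) ^ n ≤ (M ^ 2) ^ n := by gcongr
  have a3 : (w ^ 2) ^ n ≤ (M ^ 2) ^ n := by gcongr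
  have a4 : Real.log ((x ^ 2) ^ n + (y ^ 2) ^ n + (w ^ 2) ^ n) ≤ Real.log (3 * (M ^ 2) ^ n) :=
    Real.log_le_log (by positivity) (by linarith)
  have a5 : Real.log 3 ≤ 2 := by
    have := Real.log_le_sub_one_of_pos (by norm_num : (0 : ℝ) < 3)
    linarith
  rw [Real.log_mul (by norm_num) (by positivity), Real.log_pow, Real.log_pow] at a4
  rw [div_le_iff₀ (by positivity)]
  push_cast at a4
  linarith only [hn', a4, a5]

lemma UpZ_qq (f : ℂ → ℂ) (z : ℂ) : qq f z =
    (bt z * ‖deriv f z - 1‖ * (‖deriv f z‖ * Real.exp (-lphi (deriv f z)))) ^ 2 := by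
  have e : Real.exp (-2 * lphi (deriv f z)) = Real.exp (-lphi (deriv f z)) ^ 2 := by
    rw [← Real.exp_nat_mul]
    congr 1
    push_cast
    ring
  rw [qq, e]
  ring

lemma UpZ_ww (e : ℝ) (f : ℂ → ℂ) (z : ℂ) : ww e f z = (e * ‖f z‖ * ‖deriv f z - 1‖) ^ 2 := by
  rw [ww]
  ring

lemma UpZ_min {K : ℝ} (hK : 0 < K) : Real.log (min 1 K) = -max (-Real.log K) 0 := by
  rcases le_total 1 K with h | h
  · rw [min_eq_left h, max_eq_right (neg_nonpos.2 (Real.log_nonneg h)), Real.log_one, neg_zero]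
  · rw [min_eq_right h, max_eq_left (neg_nonneg.2 (Real.log_nonpos hK.le h)), neg_neg]

lemma UpZ_max {a c : ℝ} (hc : 0 < c) : a ≤ max 1 (a / c) * c := by
  rw [← div_le_iff₀ hc]
  exact le_max_right _ _

lemma ZZ_le {f : ℂ → ℂ} {z : ℂ} {n : ℕ} {e : ℝ} (hf : Cl f 0 1) (hz : z ∈ ball (0 : ℂ) 1)
    (hn : 1 ≤ n) (he : 0 < e) (he1 : e ≤ 1) (he2 : e * ‖f z‖ ≤ 1) :
    ZZ n e f z ≤ Real.log (bt z) + Real.log ‖deriv f z - 1‖ - km f z + err f z := by
  have hb := one_le_bt hz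
  have hb0 := bt_pos hz
  have h0 : 0 < ‖f z‖ := norm_pos_iff.2 (hf.2.1 z hz)
  have hd : 0 < ‖deriv f z - 1‖ := norm_pos_iff.2 (sub_ne_zero.2 (hf.2.2 z hz))
  have hd1 : 1 - ‖deriv f z‖ ≤ ‖deriv f z - 1‖ := by
    have := norm_sub_norm_le (1 : ℂ) (deriv f z)
    rwa [norm_one, norm_sub_rev] at this
  have hl : 1 ≤ 1 + Real.log (1 + ‖deriv f z‖ ^ 2) := by linarith [LapD_m (deriv f z)]
  have e1 : ‖deriv (deriv f) z / f z‖ / bt z ^ 2 =
      ‖deriv (deriv f) z‖ / (bt z * (‖f z‖ * bt z)) := by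
    rw [norm_div, div_div]
    congr 1
    ring
  have e2 : ‖deriv f z / f z‖ / bt z = ‖deriv f z‖ / (‖f z‖ * bt z) := by rw [norm_div, div_div]
  have e3 : ‖deriv (deriv f) z / (deriv f z - 1)‖ / bt z =
      ‖deriv (deriv f) z‖ / (bt z * ‖deriv f z - 1‖) := by rw [norm_div, div_div, mul_comm]
  obtain ⟨k1, k2, k3⟩ := UpZ_real hb h0 hd hd1 he1 he2 hl (lphi_upper (deriv f z))
    (le_max_left _ _) (le_max_left _ _) (le_max_left _ _)
    (UpZ_max (a := ‖deriv (deriv f) z‖) (by positivity)) (UpZ_max (by positivity))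
    (UpZ_max (by positivity)) rfl
  have key := UpZ_log hn (norm_nonneg _) (by positivity) (by positivity) k1 k2 k3
  have l2 : Real.log 2 ≤ 1 := by
    have := Real.log_le_sub_one_of_pos (by norm_num : (0 : ℝ) < 2)
    linarith
  rw [Real.log_mul (by positivity) (by positivity), Real.log_mul (by positivity) (by positivity),
    Real.log_mul (by positivity) (by positivity), Real.log_mul (by positivity) (by positivity),
    Real.log_mul (by positivity) (by positivity), Real.log_mul (by positivity) (by positivity),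
    Real.log_mul (by positivity) (by positivity), UpZ_min (by positivity)] at key
  rw [ZZ, pq, UpZ_qq, UpZ_ww, err, e1, e2, e3, Real.posLog_eq_log_max_one (by positivity),
    Real.posLog_eq_log_max_one (by positivity), Real.posLog_eq_log_max_one (by positivity), km, kk]
  linarith

lemma ww_le_qq {f : ℂ → ℂ} {z : ℂ} {e c0 : ℝ} (hz : z ∈ Bad c0 f) (he : 0 ≤ e)
    (he2 : e * ‖f z‖ ≤ c0) : ww e f z ≤ qq f z := by
  have hb := one_le_bt hz.1
  have h1 : e * ‖f z‖ ≤ bt z * (‖deriv f z‖ * Real.exp (-lphi (deriv f z))) :=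
    (he2.trans hz.2.2).trans (le_mul_of_one_le_left (by positivity) hb)
  rw [UpZ_qq, UpZ_ww, mul_right_comm (bt z)]
  gcongr

end Pool.Agent.Work.MP_6ac3f6_an.PF
end

-- merged part: Pool.Agent.Work.MP_6ac3f6_an.PF.Smt
section
/-!
# The refined second main theorem

For r near 1 choose e in (0,1] with e |f| ≤ min 1 c0 on closedBall 0 r. green_lower for
W = ZZ n e f + (1/n) log bt, E = Bad c0 f, kappa = 2/3, r' = 2r - 1 (ZZ_lap, ww_le_qq, logbt, start),
ZZ_le on the circle, the mean value of log |f' - 1| is log |f' 0 - 1|, avg_logbt, err_small.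
-/

set_option autoImplicit false

namespace Pool.Agent.Work.MP_6ac3f6_an.PF

open Complex Metric Set Filter Topology Real MeasureTheory ComplexConjugate

lemma Smt_fd {u : ℂ → ℝ} (hu : ∀ z ∈ ball (0 : ℂ) 1, ContDiffAt ℝ 2 u z) {a : ℝ} (ha : a < 1) :
    ∃ D : ℝ, ∀ z ∈ sphere (0 : ℂ) a, ‖fderiv ℝ u z‖ ≤ D := by
  refine (isCompact_sphere 0 a).exists_bound_of_continuousOn fun z hz => ?_
  have hz' : z ∈ ball (0 : ℂ) 1 := by
    rw [mem_ball_zero_iff, mem_sphere_zero_iff_norm.1 hz]; exact ha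
  exact ((hu z hz').continuousAt_fderiv (by norm_num)).continuousWithinAt

lemma Smt_avg {f : ℂ → ℂ} (hf : Cl f 0 1) {r : ℝ} (h0 : 0 < r) (h1 : r < 1) :
    circleAverage (fun z => Real.log ‖deriv f z - 1‖) 0 r = Real.log ‖deriv f 0 - 1‖ := by
  have hsub : closedBall (0 : ℂ) |r| ⊆ ball 0 1 := by
    rw [abs_of_pos h0]; exact closedBall_subset_ball h1
  refine InnerProductSpace.HarmonicOnNhd.circleAverage_eq (f := fun z => Real.log ‖deriv f z - 1‖)
    fun z hz => ?_
  exact AnalyticAt.harmonicAt_log_norm ((hf.an1 z (hsub hz)).sub analyticAt_const)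
    (sub_ne_zero.2 (hf.2.2 z (hsub hz)))

lemma smt {C : ℝ} (hC : 1 ≤ C) {f : ℂ → ℂ} (hf : Mir C f)
    (hF : ∃ z ∈ ball (0 : ℂ) 1, deriv f z ≠ 0) : ∃ a : ℝ, 1 / 2 ≤ a ∧ a ≤ 3 / 4 ∧
    ∀ n : ℕ, 1 ≤ n → ∀ c0 : ℝ, 0 < c0 → Sm fun r => circleAverage (km f) 0 r +
      1 / (24 * π) * tm (Bad c0 f) a (2 * r - 1) - (1 + 1 / n) * LL r := by
  obtain ⟨a, ha1, ha2, hst⟩ := start hf.1 hF
  refine ⟨a, ha1, ha2, fun n hn c0 hc0 => ?_⟩
  obtain ⟨D, hD⟩ := hst n hn
  obtain ⟨D1, hD1⟩ := Smt_fd (u := fun w => Real.log (bt w)) (fun z hz => (logbt hz).1)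
    (a := a) (by linarith)
  have hn0 : (0 : ℝ) < n := by exact_mod_cast hn
  have hn1 : (1 : ℝ) ≤ n := by exact_mod_cast hn
  have hE := err_small hf.1 (gr_of_mir hC hf)
  have cl : ContinuousOn (fun z => Real.log (bt z)) (ball 0 1) := fun z hz =>
    (logbt hz).1.continuousAt.continuousWithinAt
  have key : ∀ r : ℝ, 7 / 8 ≤ r → r < 1 → circleAverage (km f) 0 r +
      1 / (24 * π) * tm (Bad c0 f) a (2 * r - 1) - (1 + 1 / n) * LL r ≤
      circleAverage (err f) 0 r + (Real.log ‖deriv f 0 - 1‖ + D + (D + 1 / n * D1)) := by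
    intro r h1 h2
    have hsub : closedBall (0 : ℂ) r ⊆ ball 0 1 := closedBall_subset_ball h2
    obtain ⟨M, hM⟩ := (isCompact_closedBall (0 : ℂ) r).exists_bound_of_continuousOn
      (hf.1.1.continuousOn.mono hsub)
    have hM0 : 0 ≤ M := (norm_nonneg _).trans (hM 0 (mem_closedBall_self (by linarith)))
    set e : ℝ := min 1 c0 / (M + 1) with he
    have hm0 : 0 < min 1 c0 := lt_min one_pos hc0
    have he0 : 0 < e := div_pos hm0 (by linarith)
    have he1 : e ≤ 1 := (div_le_one (by linarith)).2 ((min_le_left _ _).trans (by linarith))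
    have he2 : ∀ z ∈ closedBall (0 : ℂ) r, e * ‖f z‖ ≤ min 1 c0 := fun z hz => by
      have := hM z hz
      rw [he, div_mul_eq_mul_div, div_le_iff₀ (by linarith)]
      nlinarith
    have hann : ∀ z ∈ ann a r, z ∈ closedBall (0 : ℂ) r := fun z hz =>
      mem_closedBall_zero_iff.2 hz.2
    have cZ : ∀ z ∈ ball (0 : ℂ) 1, ContDiffAt ℝ 2 (ZZ n e f) z := fun z hz =>
      (ZZ_lap hf.1 hz hn he0).1
    have cW : ∀ z ∈ ball (0 : ℂ) 1, ContDiffAt ℝ 2
        (fun w => ZZ n e f w + 1 / n * Real.log (bt w)) z := fun z hz =>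
      (cZ z hz).add (contDiffAt_const.mul (logbt hz).1)
    have lW : ∀ z ∈ ball (0 : ℂ) 1, Lap (fun w => ZZ n e f w + 1 / n * Real.log (bt w)) z =
        Lap (ZZ n e f) z + 4 / n * bt z ^ 2 := fun z hz => by
      rw [Lap_add (cZ z hz) (contDiffAt_const.mul (logbt hz).1), Lap_cmul (logbt hz).1,
        (logbt hz).2.2.2]
      ring
    have G := green_lower (κ := 2 / 3) (D := D + 1 / n * D1) (a := a) (r := r) (r' := 2 * r - 1) cW
      (hf.1.meas_Bad c0) (by norm_num) ha1 (by linarith) (by linarith) h2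
      (fun z hz => by
        have hz' := hsub (hann z hz)
        rw [lW z hz']
        linarith [(ZZ_lap hf.1 hz' hn he0).2.1])
      (fun z hz => by
        have hz' := hsub (hann z hz.2)
        rw [lW z hz']
        have := (ZZ_lap hf.1 hz' hn he0).2.2 hz.1.2.1
          (ww_le_qq hz.1 he0.le ((he2 z (hann z hz.2)).trans (min_le_right _ _)))
        have h4 : 0 ≤ 4 / (n : ℝ) * bt z ^ 2 := by positivity
        linarith)
      (fun z hz => by
        have hz' : z ∈ ball (0 : ℂ) 1 := by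
          rw [mem_ball_zero_iff, mem_sphere_zero_iff_norm.1 hz]; linarith
        have d1 := (cZ z hz').differentiableAt (by norm_num)
        have d2 := (logbt hz').1.differentiableAt (by norm_num)
        rw [fderiv_fun_add d1 (d2.const_mul _), fderiv_const_mul d2]
        refine (norm_add_le _ _).trans (add_le_add ((hD e he0 he1).1 z hz) ?_)
        rw [norm_smul, Real.norm_of_nonneg (by positivity)]
        exact mul_le_mul_of_nonneg_left (hD1 z hz) (by positivity))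
    have iZ : ∀ s : ℝ, 0 ≤ s → s < 1 → CircleIntegrable (ZZ n e f) 0 s := fun s a b =>
      circleIntegrable_of_cont (fun z hz => (cZ z hz).continuousAt.continuousWithinAt) a b
    have iL : ∀ s : ℝ, 0 ≤ s → s < 1 → CircleIntegrable (fun z => Real.log (bt z)) 0 s :=
      fun s a b => circleIntegrable_of_cont cl a b
    have sp : ∀ s : ℝ, 0 ≤ s → s < 1 →
        circleAverage (fun w => ZZ n e f w + 1 / n * Real.log (bt w)) 0 s =
          circleAverage (ZZ n e f) 0 s + 1 / n * circleAverage (fun z => Real.log (bt z)) 0 s := by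
      intro s a b
      have j : CircleIntegrable (fun z => 1 / (n : ℝ) * Real.log (bt z)) 0 s :=
        circleIntegrable_of_cont (continuousOn_const.mul cl) a b
      rw [circleAverage_fun_add (iZ s a b) j]
      congr 1
      exact circleAverage_fun_smul (f := fun z => Real.log (bt z)) (a := 1 / (n : ℝ))
    rw [sp r (by linarith) h2, sp a (by linarith) (by linarith)] at G
    have r0 : (0 : ℝ) ≤ r := by linarith
    have cx : ContinuousOn (fun z => Real.log ‖deriv f z - 1‖) (ball 0 1) := fun z hz =>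
      ((((hf.1.an1 z hz).continuousAt.sub continuousAt_const).norm).log
        (norm_ne_zero_iff.2 (sub_ne_zero.2 (hf.1.2.2 z hz)))).continuousWithinAt
    have i1 := iL r r0 h2
    have i2 := circleIntegrable_of_cont cx r0 h2
    have i3 := circleIntegrable_of_cont hf.1.cont_km r0 h2
    have i4 := circleIntegrable_of_cont hf.1.cont_err r0 h2
    have U : circleAverage (ZZ n e f) 0 r ≤ circleAverage (fun z => Real.log (bt z)) 0 r +
        Real.log ‖deriv f 0 - 1‖ - circleAverage (km f) 0 r + circleAverage (err f) 0 r := by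
      rw [← Smt_avg hf.1 (by linarith : (0 : ℝ) < r) h2, ← circleAverage_add i1 i2,
        ← circleAverage_sub (i1.add i2) i3, ← circleAverage_add ((i1.add i2).sub i3) i4]
      refine circleAverage_mono (iZ r r0 h2) (((i1.add i2).sub i3).add i4) fun z hz => ?_
      rw [abs_of_nonneg r0] at hz
      have hz' := sphere_subset_closedBall hz
      exact ZZ_le hf.1 (hsub hz') hn he0 he1 ((he2 z hz').trans (min_le_left _ _))
    have b1 := (avg_logbt r0 h2).2
    have b2 := (avg_logbt (r := a) (by linarith) (by linarith)).1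
    have b3 := (hD e he0 he1).2
    have b4 : 1 / (n : ℝ) * circleAverage (fun z => Real.log (bt z)) 0 r ≤ 1 / n * LL r :=
      mul_le_mul_of_nonneg_left b1 (by positivity)
    have b5 : 0 ≤ 1 / (n : ℝ) * circleAverage (fun z => Real.log (bt z)) 0 a :=
      mul_nonneg (by positivity) b2
    have e1 : (2 / 3 : ℝ) / (16 * π) = 1 / (24 * π) := by
      field_simp
      norm_num
    rw [e1] at G
    linarith
  intro ε hε
  have ev : ∀ᶠ r in FF, (7 / 8 : ℝ) ≤ r := by
    exact nhdsWithin_le_nhds (Ici_mem_nhds (by norm_num : (7 / 8 : ℝ) < 1))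
  filter_upwards [(hE.add (Sm.const _)) ε hε, ev, ev_rng] with r k1 k2 k3
  exact (key r k2 k3.2).trans k1

end Pool.Agent.Work.MP_6ac3f6_an.PF
end

-- merged part: Pool.Agent.Work.MP_6ac3f6_an.PF.RayA
section
/-!
# Crossing the band, one variable

g x = u^2/(1+u^2), u = max (x - k0) 0 (differentiable everywhere, g' = 2u/(1+u^2)^2 ≥ 0, 0 ≤ g ≤ 1,
g' ≥ g0 > 0 on [k0+1, k3]); X v differentiable with values in [0,1], X = 1 for v ≤ -c, X = 0 for
v ≥ -c/2, X' = 0 outside (-c, -c/2), |X'| ≤ A (for instance from Real.smoothTransition, or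
3u^2 - 2u^3 of a clamped argument). P s = g (k s) X (y s / k s). Where k s < k0 the function P vanishes near s;
where k s ≥ k0 ≥ 1 the product rule applies: g' k' X ≥ 0 (X ≠ 0 forces y ≤ -ck/2, so k' ≥ b/2), it is
≥ g0 b/2 on the first set, and |g X' (y/k)'| ≤ A b (1 + 3 c) on the band, zero elsewhere.
Finish with intervalIntegral.integral_le_sub_of_hasDeriv_right_of_le.
-/

set_option autoImplicit false

namespace Pool.Agent.Work.MP_6ac3f6_an.PF

open Complex Metric Set Filter Topology Real MeasureTheory ComplexConjugate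

lemma RayA_sq (x : ℝ) : HasDerivAt (fun x : ℝ => max x 0 ^ 2) (2 * max x 0) x := by
  rcases lt_trichotomy x 0 with h | h | h
  · rw [max_eq_right h.le, mul_zero]
    refine (hasDerivAt_const x (0 : ℝ)).congr_of_eventuallyEq ?_
    filter_upwards [Iio_mem_nhds h] with y hy
    rw [max_eq_right (le_of_lt hy)]
    norm_num
  · subst h
    rw [max_self, mul_zero, hasDerivAt_iff_isLittleO]
    refine Asymptotics.IsBigO.trans_isLittleO (g := fun x : ℝ => x ^ 2) ?_ ?_
    · refine Asymptotics.IsBigO.of_bound 1 (Eventually.of_forall fun y => ?_)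
      rcases le_total y 0 with h | h <;> simp [h, sq_nonneg]
    · simpa using Asymptotics.isLittleO_pow_id (𝕜 := ℝ) (n := 2) one_lt_two
  · rw [max_eq_left h.le]
    refine (by simpa using hasDerivAt_pow 2 x : HasDerivAt (fun y : ℝ => y ^ 2) (2 * x) x)
      |>.congr_of_eventuallyEq ?_
    filter_upwards [Ioi_mem_nhds h] with y hy
    rw [max_eq_left (le_of_lt hy)]

lemma RayA_g (k0 x : ℝ) : HasDerivAt (fun x : ℝ => max (x - k0) 0 ^ 2 / (1 + max (x - k0) 0 ^ 2))
    (2 * max (x - k0) 0 / (1 + max (x - k0) 0 ^ 2) ^ 2) x := by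
  have h := (RayA_sq (x - k0)).comp x ((hasDerivAt_id x).sub_const k0)
  have h1 : HasDerivAt (fun x : ℝ => max (x - k0) 0 ^ 2) (2 * max (x - k0) 0) x := by
    simpa [Function.comp_def] using h
  have h2 := h1.div (h1.const_add 1) (by positivity)
  refine h2.congr_deriv ?_
  ring

lemma RayA_X : ∃ A : ℝ, 0 ≤ A ∧ ∀ x, |deriv Real.smoothTransition x| ≤ A ∧
    (x ≤ 0 ∨ 1 ≤ x → deriv Real.smoothTransition x = 0) := by
  have hc : Continuous (deriv Real.smoothTransition) :=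
    (Real.smoothTransition.contDiff (n := 1)).continuous_deriv le_rfl
  obtain ⟨A, hA⟩ := (isCompact_Icc (a := (0 : ℝ)) (b := 1)).exists_bound_of_continuousOn
    hc.continuousOn
  have A0 : 0 ≤ A := (norm_nonneg _).trans (hA 0 ⟨le_rfl, zero_le_one⟩)
  have z : ∀ x, x ≤ 0 ∨ 1 ≤ x → deriv Real.smoothTransition x = 0 := by
    rintro x (h | h)
    · refine IsLocalMin.deriv_eq_zero (Eventually.of_forall fun y => ?_)
      rw [Real.smoothTransition.zero_of_nonpos h]
      exact Real.smoothTransition.nonneg y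
    · refine IsLocalMax.deriv_eq_zero (Eventually.of_forall fun y => ?_)
      rw [Real.smoothTransition.one_of_one_le h]
      exact Real.smoothTransition.le_one y
  refine ⟨A, A0, fun x => ⟨?_, z x⟩⟩
  by_cases h : x ≤ 0 ∨ 1 ≤ x
  · rw [z x h, abs_zero]; exact A0
  · push Not at h
    exact hA x ⟨h.1.le, h.2.le⟩

lemma ray_abs {c k0 : ℝ} (k3 : ℝ) (hc : 0 < c) (hc1 : c ≤ 1) (hk0 : 1 ≤ k0) : ∃ C : ℝ, 0 ≤ C ∧
    ∀ (k y k' y' b : ℝ → ℝ) (a r : ℝ), a ≤ r →
    (∀ s ∈ Icc a r, HasDerivAt k (k' s) s) → (∀ s ∈ Icc a r, HasDerivAt y (y' s) s) →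
    ContinuousOn b (Icc a r) → (∀ s ∈ Icc a r, 0 ≤ b s) →
    (∀ s ∈ Icc a r, k0 ≤ k s → y s ≤ -(c * k s) / 2 → b s / 2 ≤ k' s ∧ k' s ≤ 3 * b s) →
    (∀ s ∈ Icc a r, k0 ≤ k s → -(c * k s) ≤ y s → y s ≤ -(c * k s) / 2 → |y' s| ≤ b s * k s) →
    ∫ s in a..r, {s | s ∈ Icc a r ∧ k0 + 1 ≤ k s ∧ k s ≤ k3 ∧ y s ≤ -(c * k s)}.indicator b s ≤
      C * (1 + ∫ s in a..r,
        {s | s ∈ Icc a r ∧ k0 ≤ k s ∧ -(c * k s) ≤ y s ∧ y s ≤ -(c * k s) / 2}.indicator b s) := by
  obtain ⟨A, A0, hA⟩ := RayA_X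
  set U := (1 + (k3 - k0) ^ 2) ^ 2 with hU
  have U0 : 0 < U := by positivity
  set B := A * (8 / c) with hB
  have B0 : 0 ≤ B := by positivity
  refine ⟨U * (1 + B), by positivity, fun k y k' y' b a r har hk hy hb hb0 h1 h2 => ?_⟩
  set S1 := {s | s ∈ Icc a r ∧ k0 + 1 ≤ k s ∧ k s ≤ k3 ∧ y s ≤ -(c * k s)} with hS1
  set S2 := {s | s ∈ Icc a r ∧ k0 ≤ k s ∧ -(c * k s) ≤ y s ∧ y s ≤ -(c * k s) / 2} with hS2
  have ck : ContinuousOn k (Icc a r) := fun s hs => (hk s hs).continuousAt.continuousWithinAt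
  have cy : ContinuousOn y (Icc a r) := fun s hs => (hy s hs).continuousAt.continuousWithinAt
  have cl : ∀ {u v : ℝ → ℝ}, ContinuousOn u (Icc a r) → ContinuousOn v (Icc a r) →
      MeasurableSet {s | s ∈ Icc a r ∧ u s ≤ v s} := fun hu hv =>
    (isClosed_Icc.isClosed_le hu hv).measurableSet
  have ck' : ContinuousOn (fun s => -(c * k s)) (Icc a r) := (continuousOn_const.mul ck).neg
  have m1 : MeasurableSet S1 := by
    have := ((cl (continuousOn_const (c := k0 + 1)) ck).inter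
      (cl ck (continuousOn_const (c := k3)))).inter (cl cy ck')
    refine (congrArg MeasurableSet ?_).mp this
    ext s
    simp only [hS1, mem_inter_iff, mem_ofPred_eq]
    tauto
  have m2 : MeasurableSet S2 := by
    have := ((cl (continuousOn_const (c := k0)) ck).inter (cl ck' cy)).inter
      (cl cy (ck'.div_const 2))
    refine (congrArg MeasurableSet ?_).mp this
    ext s
    simp only [hS2, mem_inter_iff, mem_ofPred_eq]
    tauto
  have ib : IntegrableOn b (Icc a r) := hb.integrableOn_Icc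
  have i1 : IntegrableOn (S1.indicator b) (Icc a r) := ib.indicator m1
  have i2 : IntegrableOn (S2.indicator b) (Icc a r) := ib.indicator m2
  set g : ℝ → ℝ := fun x => max (x - k0) 0 ^ 2 / (1 + max (x - k0) 0 ^ 2) with hg
  have g0 : ∀ x, 0 ≤ g x := fun x => by positivity
  have g1 : ∀ x, g x ≤ 1 := fun x => (div_le_one (by positivity)).2 (by linarith)
  set P : ℝ → ℝ := fun s => g (k s) * Real.smoothTransition ((-(c / 2) - y s / k s) / (c / 2))
    with hP
  have hder : ∀ s ∈ Icc a r, ∃ p, HasDerivAt P p s ∧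
      U⁻¹ * S1.indicator b s - B * S2.indicator b s ≤ p := by
    intro s hs
    have bs := hb0 s hs
    by_cases hks : k s < k0
    · refine ⟨0, (hasDerivAt_const s (0 : ℝ)).congr_of_eventuallyEq ?_, ?_⟩
      · filter_upwards [(hk s hs).continuousAt.eventually_lt continuousAt_const hks] with x hx
        simp only [hP, hg, max_eq_right (sub_nonpos.2 hx.le)]
        norm_num
      · rw [indicator_of_notMem (fun h : s ∈ S1 => by linarith [h.2.1]),
          indicator_of_notMem (fun h : s ∈ S2 => by linarith [h.2.1])]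
        norm_num
    rw [not_lt] at hks
    have k1 : 0 < k s := by linarith
    set v := (-(c / 2) - y s / k s) / (c / 2) with hv
    have dv : HasDerivAt (fun s => (-(c / 2) - y s / k s) / (c / 2))
        (-((y' s * k s - y s * k' s) / k s ^ 2) / (c / 2)) s :=
      (((hy s hs).div (hk s hs) k1.ne').const_sub _).div_const _
    have dX : HasDerivAt Real.smoothTransition (deriv Real.smoothTransition v) v :=
      ((Real.smoothTransition.contDiff (n := 1)).differentiable one_ne_zero v).hasDerivAt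
    have d := ((RayA_g k0 (k s)).comp s (hk s hs)).mul (dX.comp s dv)
    refine ⟨_, d, ?_⟩
    simp only [Function.comp_def, ← hv]
    have hv0 : 0 < v → y s ≤ -(c * k s) / 2 := fun h => by
      have : 0 < -(c / 2) - y s / k s := (div_pos_iff_of_pos_right (by positivity)).1 h
      have : y s / k s < -(c / 2) := by linarith
      rw [div_lt_iff₀ k1] at this
      linarith
    have hv1 : y s ≤ -(c * k s) → 1 ≤ v := fun h => by
      rw [hv, le_div_iff₀ (by positivity)]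
      have : y s / k s ≤ -c := by
        rw [div_le_iff₀ k1]
        linarith
      linarith
    have u0 : 0 ≤ max (k s - k0) 0 := le_max_right _ _
    have t1 : U⁻¹ * S1.indicator b s ≤ 2 * max (k s - k0) 0 / (1 + max (k s - k0) 0 ^ 2) ^ 2 *
        k' s * Real.smoothTransition v := by
      by_cases h : s ∈ S1
      · obtain ⟨-, a1, a2, a3⟩ := id h
        have := (h1 s hs hks (by linarith only [a3, mul_pos hc k1])).1
        rw [indicator_of_mem h, Real.smoothTransition.one_of_one_le (hv1 a3), mul_one,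
          max_eq_left (sub_nonneg.2 hks)]
        have e : U⁻¹ * 2 ≤ 2 * (k s - k0) / (1 + (k s - k0) ^ 2) ^ 2 := by
          rw [inv_mul_eq_div]
          refine div_le_div₀ (by linarith only [hks]) (by linarith only [a1]) (by positivity) ?_
          have : (k s - k0) ^ 2 ≤ (k3 - k0) ^ 2 :=
            pow_le_pow_left₀ (sub_nonneg.2 hks) (sub_le_sub_right a2 k0) 2
          rw [hU]
          exact pow_le_pow_left₀ (add_nonneg zero_le_one (sq_nonneg _)) (add_le_add le_rfl this) 2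
        calc U⁻¹ * b s = U⁻¹ * 2 * (b s / 2) := by ring
          _ ≤ _ := mul_le_mul e this (by linarith only [bs])
            (div_nonneg (by linarith only [hks]) (sq_nonneg _))
      · rw [indicator_of_notMem h, mul_zero]
        rcases le_or_gt v 0 with h0 | h0
        · rw [Real.smoothTransition.zero_of_nonpos h0, mul_zero]
        · have := (h1 s hs hks (hv0 h0)).1
          exact mul_nonneg (mul_nonneg (by positivity) (by linarith only [this, bs]))
            (Real.smoothTransition.nonneg v)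
    have t2 : -(B * S2.indicator b s) ≤ g (k s) * (deriv Real.smoothTransition v *
        (-((y' s * k s - y s * k' s) / k s ^ 2) / (c / 2))) := by
      by_cases h0 : v ≤ 0 ∨ 1 ≤ v
      · rw [(hA v).2 h0, zero_mul, mul_zero, neg_nonpos]
        exact mul_nonneg B0 (indicator_apply_nonneg fun _ => bs)
      push Not at h0
      have a1 := hv0 h0.1
      have a2 : -(c * k s) ≤ y s := le_of_not_ge fun h => absurd (hv1 h) (not_le.2 h0.2)
      rw [indicator_of_mem (show s ∈ S2 from ⟨hs, hks, a2, a1⟩), neg_le]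
      refine (neg_le_abs _).trans ?_
      have a3 := h2 s hs hks a2 a1
      obtain ⟨a4, a5⟩ := h1 s hs hks a1
      have a6 : |y s| ≤ k s := abs_le.2
        ⟨by linarith only [a2, mul_le_of_le_one_left k1.le hc1],
          by linarith only [a1, k1, mul_pos hc k1]⟩
      have a0 : 0 ≤ k' s := by linarith only [a4, bs]
      have a7 : |y' s * k s - y s * k' s| ≤ 4 * b s * k s ^ 2 := by
        refine (abs_sub _ _).trans ?_
        rw [abs_mul, abs_mul, abs_of_pos k1, abs_of_nonneg a0]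
        have e1 : |y' s| * k s ≤ b s * k s * k s := mul_le_mul_of_nonneg_right a3 k1.le
        have e2 : |y s| * k' s ≤ k s * (3 * b s) := mul_le_mul a6 a5 a0 k1.le
        have e3 : b s * k s * 1 ≤ b s * k s * k s :=
          mul_le_mul_of_nonneg_left (hk0.trans hks) (mul_nonneg bs k1.le)
        linarith only [e1, e2, e3]
      have a8 : |-((y' s * k s - y s * k' s) / k s ^ 2) / (c / 2)| ≤ 8 / c * b s := by
        rw [abs_div, abs_neg, abs_div, abs_of_pos (by positivity : 0 < k s ^ 2),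
          abs_of_pos (by positivity : 0 < c / 2), div_le_iff₀ (by positivity),
          div_le_iff₀ (by positivity)]
        refine a7.trans (le_of_eq ?_)
        field_simp
        ring
      rw [abs_mul, abs_mul, abs_of_nonneg (g0 _), hB, mul_assoc]
      refine (mul_le_of_le_one_left (by positivity) (g1 _)).trans ?_
      exact mul_le_mul (hA v).1 a8 (abs_nonneg _) A0
    linarith only [t1, t2]
  choose! p hp using hder
  have key := intervalIntegral.integral_le_sub_of_hasDeriv_right_of_le (g := P) (g' := p)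
    (φ := fun s => U⁻¹ * S1.indicator b s - B * S2.indicator b s) har
    (fun s hs => (hp s hs).1.continuousAt.continuousWithinAt)
    (fun s hs => (hp s (Ioo_subset_Icc_self hs)).1.hasDerivWithinAt)
    ((i1.const_mul _).sub (i2.const_mul _)) fun s hs => (hp s (Ioo_subset_Icc_self hs)).2
  have j1 : IntervalIntegrable (S1.indicator b) volume a r :=
    (intervalIntegrable_iff_integrableOn_Icc_of_le har).2 i1
  have j2 : IntervalIntegrable (S2.indicator b) volume a r :=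
    (intervalIntegrable_iff_integrableOn_Icc_of_le har).2 i2
  rw [intervalIntegral.integral_sub (j1.const_mul _) (j2.const_mul _),
    intervalIntegral.integral_const_mul, intervalIntegral.integral_const_mul] at key
  have P1 : P r ≤ 1 := mul_le_one₀ (g1 _) (Real.smoothTransition.nonneg _)
    (Real.smoothTransition.le_one _)
  have P0 : 0 ≤ P a := mul_nonneg (g0 _) (Real.smoothTransition.nonneg _)
  have n2 : 0 ≤ ∫ s in a..r, S2.indicator b s :=
    intervalIntegral.integral_nonneg har fun s hs => indicator_apply_nonneg fun _ => hb0 s hs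
  have f1 : U⁻¹ * ∫ s in a..r, S1.indicator b s ≤ (1 + B) * (1 + ∫ s in a..r, S2.indicator b s) := by
    linarith only [key, P1, P0, n2, B0]
  rw [inv_mul_le_iff₀ U0] at f1
  linarith only [f1]

end Pool.Agent.Work.MP_6ac3f6_an.PF
end

-- merged part: Pool.Agent.Work.MP_6ac3f6_an.PF.RayB
section
/-!
# Crossing the band along radii

Apply ray_abs to k s = kk f (circleMap 0 s x), y s = yy f (..), b s = bt (..) with hasDerivAt_kk and
hasDerivAt_xi (velocity v = exp (x I), |v| = 1, Re (conj z v) = s). Since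
|f'/f| ≤ bt (exp y + exp (-k)) ≤ bt/2 when k ≥ k0, y ≤ -ck/2, and 1/2 ≤ s ≤ 1, k' lies in [b/2, 3b];
on the band |y'| ≤ b k/4 + 3 b ≤ b k. Compare weights: s/(1-s) ≤ 2 b and b ≤ 2 s/(1-s).
Integrate over the angle with tm_eq_indicator and polar_ang.
-/

set_option autoImplicit false

namespace Pool.Agent.Work.MP_6ac3f6_an.PF

open Complex Metric Set Filter Topology Real MeasureTheory ComplexConjugate

lemma RayB_norm {s : ℝ} (hs : 0 ≤ s) (θ : ℝ) : ‖circleMap 0 s θ‖ = s := by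
  rw [norm_circleMap_zero, abs_of_nonneg hs]

lemma RayB_der (θ s : ℝ) : HasDerivAt (fun s : ℝ => circleMap 0 s θ) (Complex.exp (θ * I)) s := by
  have h := (Complex.ofRealCLM.hasDerivAt (x := s)).mul_const (Complex.exp (θ * I))
  simp only [ofRealCLM_apply, ofReal_one, one_mul] at h
  simpa only [circleMap, zero_add] using h

lemma RayB_cmp {E : Set ℂ} (hE : MeasurableSet E) {a r : ℝ} (ha : 1 / 2 ≤ a) (har : a ≤ r)
    (hr : r < 1) (θ : ℝ) {S : Set ℝ} (hS : ∀ s ∈ Icc a r, s ∈ S ↔ circleMap 0 s θ ∈ E) :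
    ∫ ρ in a..r, ρ * E.indicator (fun z : ℂ => (1 - ‖z‖)⁻¹) (circleMap 0 ρ θ) ≤
      2 * ∫ s in a..r, S.indicator (fun s => bt (circleMap 0 s θ)) s ∧
    ∫ s in a..r, S.indicator (fun s => bt (circleMap 0 s θ)) s ≤
      2 * ∫ ρ in a..r, ρ * E.indicator (fun z : ℂ => (1 - ‖z‖)⁻¹) (circleMap 0 ρ θ) := by
  have hc : Continuous fun s : ℝ => circleMap 0 s θ :=
    continuous_iff_continuousAt.2 fun s => (RayB_der θ s).continuousAt
  have hn : ∀ s ∈ Icc a r, ‖circleMap 0 s θ‖ = s := fun s hs => RayB_norm (by linarith [hs.1]) θ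
  have hb : ∀ s ∈ Icc a r, circleMap 0 s θ ∈ ball (0 : ℂ) 1 := fun s hs => by
    rw [mem_ball_zero_iff, hn s hs]
    exact hs.2.trans_lt hr
  have hm := hc.measurable hE
  have e1 : ∫ s in a..r, S.indicator (fun s => bt (circleMap 0 s θ)) s =
      ∫ s in a..r, ((fun s : ℝ => circleMap 0 s θ) ⁻¹' E).indicator
        (fun s => bt (circleMap 0 s θ)) s := intervalIntegral.integral_congr fun s hs => by
    rw [uIcc_of_le har] at hs
    by_cases h : s ∈ S
    · rw [indicator_of_mem h, indicator_of_mem (show s ∈ (fun s : ℝ => circleMap 0 s θ) ⁻¹' E from (hS s hs).1 h)]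
    · rw [indicator_of_notMem h,
        indicator_of_notMem (show s ∉ (fun s : ℝ => circleMap 0 s θ) ⁻¹' E from fun h' => h ((hS s hs).2 h'))]
  have e2 : ∫ ρ in a..r, ρ * E.indicator (fun z : ℂ => (1 - ‖z‖)⁻¹) (circleMap 0 ρ θ) =
      ∫ s in a..r, ((fun s : ℝ => circleMap 0 s θ) ⁻¹' E).indicator
        (fun s => s * (1 - s)⁻¹) s := intervalIntegral.integral_congr fun s hs => by
    rw [uIcc_of_le har] at hs
    by_cases h : circleMap 0 s θ ∈ E
    · simp only [indicator_of_mem h, indicator_of_mem (show s ∈ (fun s : ℝ => circleMap 0 s θ) ⁻¹' E from h), hn s hs]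
    · simp only [indicator_of_notMem h, indicator_of_notMem (show s ∉ (fun s : ℝ => circleMap 0 s θ) ⁻¹' E from h), mul_zero]
  have i1 : IntervalIntegrable (((fun s : ℝ => circleMap 0 s θ) ⁻¹' E).indicator
      fun s => bt (circleMap 0 s θ)) volume a r :=
    (intervalIntegrable_iff_integrableOn_Icc_of_le har).2
      ((continuousOn_bt.comp hc.continuousOn hb).integrableOn_Icc.indicator hm)
  have i2 : IntervalIntegrable (((fun s : ℝ => circleMap 0 s θ) ⁻¹' E).indicator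
      fun s => s * (1 - s)⁻¹) volume a r :=
    (intervalIntegrable_iff_integrableOn_Icc_of_le har).2
      ((continuousOn_id.mul ((continuousOn_const.sub continuousOn_id).inv₀ fun s hs =>
        (sub_pos.2 (hs.2.trans_lt hr)).ne')).integrableOn_Icc.indicator hm)
  have key : ∀ s ∈ Icc a r, s * (1 - s)⁻¹ ≤ 2 * bt (circleMap 0 s θ) ∧
      bt (circleMap 0 s θ) ≤ 2 * (s * (1 - s)⁻¹) := fun s hs => by
    have h1 := bt_mul_t_le (hb s hs)
    have h2 := one_le_two_bt_mul_t (hb s hs)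
    have h3 := t_pos (hb s hs)
    rw [hn s hs] at h1 h2 h3
    rw [← div_eq_mul_inv, ← mul_div_assoc, div_le_iff₀ h3, le_div_iff₀ h3]
    constructor <;> linarith [hs.1, hs.2]
  rw [e1, e2, ← intervalIntegral.integral_const_mul, ← intervalIntegral.integral_const_mul]
  refine ⟨intervalIntegral.integral_mono_on har i2 (i1.const_mul 2) fun s hs => ?_,
    intervalIntegral.integral_mono_on har i1 (i2.const_mul 2) fun s hs => ?_⟩
  all_goals
    by_cases h : s ∈ (fun s : ℝ => circleMap 0 s θ) ⁻¹' E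
    · simp only [indicator_of_mem h]
      first | exact (key s hs).1 | exact (key s hs).2
    · simp only [indicator_of_notMem h, mul_zero, le_refl]

lemma RayB_quo {c k0 : ℝ} (hc : 0 < c) (hk0 : 8 ≤ k0) (he : Real.exp (-(c * k0) / 2) ≤ 1 / 4)
    {f : ℂ → ℂ} (hf : Cl f 0 1) {z : ℂ} (hz : z ∈ ball (0 : ℂ) 1) (h1 : k0 ≤ kk f z)
    (h2 : yy f z ≤ -(c * kk f z) / 2) : ‖deriv f z / f z‖ ≤ bt z / 2 := by
  have hp := norm_pos_iff.2 (hf.2.1 z hz)
  have e1 := hf.exp_kk hz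
  have e2 : ‖deriv f z - 1‖ = Real.exp (yy f z) * Real.exp (kk f z) := by
    rw [← Real.exp_add, yy, sub_add_cancel,
      Real.exp_log (norm_pos_iff.2 (sub_ne_zero.2 (hf.2.2 z hz)))]
  have h3 : Real.exp (yy f z) ≤ 1 / 4 :=
    (Real.exp_le_exp.2 (by nlinarith)).trans he
  have h4 := Real.add_one_le_exp (kk f z)
  have h5 : ‖deriv f z‖ ≤ ‖deriv f z - 1‖ + 1 := by
    simpa using norm_add_le (deriv f z - 1) 1
  rw [norm_div, div_le_iff₀ hp]
  linarith only [hk0, h1, e1, e2, h4, h5, h3, mul_le_mul_of_nonneg_right h3 (Real.exp_pos (kk f z)).le]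

lemma ray {c k0 : ℝ} (k3 : ℝ) (hc : 0 < c) (hc1 : c ≤ 1 / 4) (hk0 : 8 ≤ k0)
    (he : Real.exp (-(c * k0) / 2) ≤ 1 / 4) : ∃ C : ℝ, 0 ≤ C ∧ ∀ f : ℂ → ℂ, Cl f 0 1 →
    (∀ z ∈ Band c k0 f, ‖deriv (deriv f) z‖ ≤ bt z * (kk f z / 4) * ‖deriv f z - 1‖) →
    ∀ a r : ℝ, 1 / 2 ≤ a → a ≤ r → r < 1 →
      tm (SS c k0 k3 f) a r ≤ C * (1 + tm (Band c k0 f) a r) := by
  obtain ⟨C, hC, hab⟩ := ray_abs (c := c) (k0 := k0) k3 hc (by linarith) (by linarith)
  refine ⟨4 * π * C, by positivity, fun f hf hB a r ha har hr => ?_⟩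
  have ha0 : 0 < a := by linarith
  have hw : ∀ E : Set ℂ, MeasurableSet E →
      IntegrableOn (E.indicator fun z : ℂ => (1 - ‖z‖)⁻¹) (ann a r) := fun E hE => by
    have := integrableOn_wt univ a hr
    rw [univ_inter] at this
    exact this.indicator hE
  have m1 := hf.meas_SS c k0 k3
  have m2 := hf.meas_Band c k0
  obtain ⟨i1, e1⟩ := polar_ang ha0 har (hw _ m1)
  obtain ⟨i2, e2⟩ := polar_ang ha0 har (hw _ m2)
  have key : ∀ θ : ℝ,
      ∫ ρ in a..r, ρ * (SS c k0 k3 f).indicator (fun z : ℂ => (1 - ‖z‖)⁻¹) (circleMap 0 ρ θ) ≤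
      2 * C + 4 * C *
        ∫ ρ in a..r, ρ * (Band c k0 f).indicator (fun z : ℂ => (1 - ‖z‖)⁻¹) (circleMap 0 ρ θ) := by
    intro θ
    have hn : ∀ s ∈ Icc a r, ‖circleMap 0 s θ‖ = s := fun s hs => RayB_norm (by linarith [hs.1]) θ
    have hb : ∀ s ∈ Icc a r, circleMap 0 s θ ∈ ball (0 : ℂ) 1 := fun s hs => by
      rw [mem_ball_zero_iff, hn s hs]
      exact hs.2.trans_lt hr
    have hv : ‖Complex.exp (θ * I)‖ = 1 := Complex.norm_exp_ofReal_mul_I θ
    have hre : ∀ w : ℂ, |(w * Complex.exp (θ * I)).re| ≤ ‖w‖ := fun w => by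
      refine (Complex.abs_re_le_norm _).trans ?_
      rw [norm_mul, hv, mul_one]
    have hcj : ∀ s : ℝ, (conj (circleMap 0 s θ) * Complex.exp (θ * I)).re = s := fun s => by
      rw [circleMap, zero_add, map_mul, conj_ofReal, mul_assoc, Complex.conj_mul', hv]
      simp
    have hk : ∀ s ∈ Icc a r, k0 ≤ kk f (circleMap 0 s θ) →
        yy f (circleMap 0 s θ) ≤ -(c * kk f (circleMap 0 s θ)) / 2 →
        bt (circleMap 0 s θ) / 2 ≤ (deriv f (circleMap 0 s θ) / f (circleMap 0 s θ) *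
          Complex.exp (θ * I)).re + 2 * bt (circleMap 0 s θ) * s ∧
        (deriv f (circleMap 0 s θ) / f (circleMap 0 s θ) * Complex.exp (θ * I)).re +
          2 * bt (circleMap 0 s θ) * s ≤ 3 * bt (circleMap 0 s θ) := fun s hs h1 h2 => by
      have h3 := abs_le.1 ((hre _).trans (RayB_quo hc hk0 he hf (hb s hs) h1 h2))
      have h4 := bt_pos (hb s hs)
      constructor <;> linarith only [h3.1, h3.2, h4,
        mul_le_mul_of_nonneg_left (ha.trans hs.1) h4.le,
        mul_le_mul_of_nonneg_left (hs.2.trans hr.le) h4.le]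
    have h := hab (fun s => kk f (circleMap 0 s θ)) (fun s => yy f (circleMap 0 s θ))
      (fun s => (deriv f (circleMap 0 s θ) / f (circleMap 0 s θ) * Complex.exp (θ * I)).re +
        2 * bt (circleMap 0 s θ) * s)
      (fun s => (deriv (deriv f) (circleMap 0 s θ) / (deriv f (circleMap 0 s θ) - 1) *
        Complex.exp (θ * I)).re -
        ((deriv f (circleMap 0 s θ) / f (circleMap 0 s θ) * Complex.exp (θ * I)).re +
          2 * bt (circleMap 0 s θ) * s))
      (fun s => bt (circleMap 0 s θ)) a r har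
      (fun s hs => by
        have := hf.hasDerivAt_kk (RayB_der θ s) (hb s hs)
        rwa [hcj] at this)
      (fun s hs => by
        have := hf.hasDerivAt_kk (RayB_der θ s) (hb s hs)
        rw [hcj] at this
        exact (hf.hasDerivAt_xi (RayB_der θ s) (hb s hs)).sub this)
      (continuousOn_bt.comp (fun s _ => (RayB_der θ s).continuousAt.continuousWithinAt) hb)
      (fun s hs => (bt_pos (hb s hs)).le) hk
      (fun s hs h1 h2 h3 => by
        have h4 := hk s hs h1 h3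
        have h5 := hB _ ⟨hb s hs, h1, h2, h3⟩
        have h6 : ‖deriv (deriv f) (circleMap 0 s θ) / (deriv f (circleMap 0 s θ) - 1)‖ ≤
            bt (circleMap 0 s θ) * (kk f (circleMap 0 s θ) / 4) := by
          rwa [norm_div, div_le_iff₀ (norm_pos_iff.2 (sub_ne_zero.2 (hf.2.2 _ (hb s hs))))]
        have h7 := abs_le.1 ((hre _).trans h6)
        have h8 := bt_pos (hb s hs)
        have h9 := mul_le_mul_of_nonneg_left (hk0.trans h1) h8.le
        rw [abs_le]
        constructor <;> linarith only [h4.1, h4.2, h7.1, h7.2, h8, h9])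
    have c1 := (RayB_cmp m1 ha har hr θ (S := {s | s ∈ Icc a r ∧ k0 + 1 ≤ kk f (circleMap 0 s θ) ∧
      kk f (circleMap 0 s θ) ≤ k3 ∧ yy f (circleMap 0 s θ) ≤ -(c * kk f (circleMap 0 s θ))})
      fun s hs => ⟨fun h => ⟨hb s hs, h.2⟩, fun h => ⟨hs, h.2⟩⟩).1
    have c2 := (RayB_cmp m2 ha har hr θ (S := {s | s ∈ Icc a r ∧ k0 ≤ kk f (circleMap 0 s θ) ∧
      -(c * kk f (circleMap 0 s θ)) ≤ yy f (circleMap 0 s θ) ∧
      yy f (circleMap 0 s θ) ≤ -(c * kk f (circleMap 0 s θ)) / 2})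
      fun s hs => ⟨fun h => ⟨hb s hs, h.2⟩, fun h => ⟨hs, h.2⟩⟩).2
    linarith only [h, c1, mul_le_mul_of_nonneg_left c2 hC]
  have h1 := intervalIntegral.integral_mono_on (by linarith [pi_pos] : -π ≤ π) i1
    (intervalIntegrable_const.add (i2.const_mul (4 * C))) fun θ _ => key θ
  rw [intervalIntegral.integral_add intervalIntegrable_const (i2.const_mul _),
    intervalIntegral.integral_const, intervalIntegral.integral_const_mul, ← e1, ← e2,
    ← tm_eq_indicator m1, ← tm_eq_indicator m2, smul_eq_mul] at h1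
  have h2 := mul_nonneg hC (tm_nonneg (a := a) m2 hr)
  linarith only [h1, mul_le_mul_of_nonneg_right (show 1 ≤ π by linarith only [pi_gt_three]) h2]

end Pool.Agent.Work.MP_6ac3f6_an.PF
end

-- merged part: Pool.Agent.Work.MP_6ac3f6_an.PF.Trf
section
/-!
# Transfer of time to a neighbouring set

Work with lower integrals. For z1 in E with t1 = 1 - |z1|:
1/t1 ≤ (pi p^2 t1^3)^(-1) vol (Y ∩ near R z1). Tonelli: for fixed z (t = 1 - |z|) the points z1 with
z in near R z1 lie in closedBall z (R^2 t) (as t1 ≤ R t), satisfy t ≤ (1+R) t1 (near_t_le), and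
t ≥ (1-r)/R. So the inner integral is at most R^4 (1+R)^3 / (p^2 t), and only z in Y with
|z| ≤ r1 = 1 - (1-r)/R count. The part |z| ≤ a contributes at most pi / (1 - 3/4); the part between r and
r1 at most 2 pi log R (tm_split).
-/

set_option autoImplicit false

namespace Pool.Agent.Work.MP_6ac3f6_an.PF

open Complex Metric Set Filter Topology Real MeasureTheory ComplexConjugate

lemma Trf_of {E : Set ℂ} (hE : MeasurableSet E) (a : ℝ) {r c : ℝ} (hr : r < 1) (hc : 0 ≤ c) :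
    ENNReal.ofReal (c * tm E a r) = ∫⁻ z in E ∩ ann a r, ENNReal.ofReal (c * (1 - ‖z‖)⁻¹) := by
  rw [tm, ← integral_const_mul]
  refine ofReal_integral_eq_lintegral_ofReal ((integrableOn_wt E a hr).const_mul c)
    (ae_restrict_of_forall_mem (hE.inter (measurableSet_ann a r)) fun z hz => ?_)
  exact mul_nonneg hc (inv_nonneg.2 (by linarith [hz.2.2]))

lemma Trf_low {Y : Set ℂ} (hY : MeasurableSet Y) {a r : ℝ} (ha : a ≤ 3 / 4) (hr : r < 1) :
    tm Y 0 r ≤ tm Y a r + tm univ 0 (3 / 4) := by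
  have h1 := tm_nonneg (a := a) hY hr
  have h2 := tm_nonneg (a := 0) (r := 3 / 4) MeasurableSet.univ (by norm_num)
  rw [← ENNReal.ofReal_le_ofReal_iff (add_nonneg h1 h2), ENNReal.ofReal_add h1 h2,
    ← one_mul (tm Y 0 r), ← one_mul (tm Y a r), ← one_mul (tm univ 0 _), Trf_of hY 0 hr zero_le_one,
    Trf_of hY a hr zero_le_one, Trf_of MeasurableSet.univ 0 (by norm_num) zero_le_one]
  refine (lintegral_mono_set fun z hz => ?_).trans (lintegral_union_le _ _ _)
  rcases le_total a ‖z‖ with h | h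
  · exact Or.inl ⟨hz.1, h, hz.2.2⟩
  · exact Or.inr ⟨trivial, hz.2.1, h.trans ha⟩

lemma Trf_swap {A B : Set ℂ} (hA : MeasurableSet A) (hB : MeasurableSet B) {k : ℂ × ℂ → ENNReal}
    (hk : Measurable k) {f g : ℂ → ENNReal} (h1 : ∀ x ∈ A, f x ≤ ∫⁻ y, k (x, y))
    (h2 : ∀ y ∈ B, ∫⁻ x, k (x, y) ≤ g y) (h3 : ∀ y ∉ B, ∀ x, k (x, y) = 0) :
    ∫⁻ x in A, f x ≤ ∫⁻ y in B, g y := by
  refine (setLIntegral_mono' hA h1).trans ((setLIntegral_le_lintegral _ _).trans ?_)
  rw [lintegral_lintegral_swap (f := fun x y => k (x, y)) hk.aemeasurable, ← lintegral_indicator hB]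
  refine lintegral_mono fun y => ?_
  by_cases h : y ∈ B
  · rw [indicator_of_mem h]
    exact h2 y h
  · simp [h3 y h]

lemma Trf_pi : (NNReal.pi : ENNReal) = ENNReal.ofReal π := by
  rw [← NNReal.coe_real_pi, ENNReal.ofReal_coe_nnreal]

lemma Trf_main {R ρ : ℝ} (hR : 1 ≤ R) (hρ : 0 < ρ) {E Y : Set ℂ} (hE : MeasurableSet E)
    (hY : MeasurableSet Y) {a r : ℝ} (hr : r < 1)
    (h : ∀ z1 ∈ E ∩ ann a r, ∃ z3 : ℂ, ball z3 (ρ * (1 - ‖z1‖)) ⊆ Y ∩ near R z1) :
    π * ρ ^ 2 / (1 + R) ^ 3 * tm E a r ≤ π * R ^ 4 * tm Y 0 (1 - (1 - r) / R) := by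
  have hR0 : 0 < R := by linarith
  have hr1 : 1 - (1 - r) / R < 1 := sub_lt_self _ (div_pos (by linarith) hR0)
  have hA := hE.inter (measurableSet_ann a r)
  have hB := hY.inter (measurableSet_ann 0 (1 - (1 - r) / R))
  rw [← ENNReal.ofReal_le_ofReal_iff (mul_nonneg (by positivity) (tm_nonneg hY hr1)),
    Trf_of hE a hr (by positivity), Trf_of hY 0 hr1 (by positivity)]
  have hS : MeasurableSet {p : ℂ × ℂ | p.2 ∈ Y ∩ ann 0 (1 - (1 - r) / R) ∧ p.2 ∈ near R p.1} :=
    (measurable_snd hB).inter ((measurableSet_le (f := fun p : ℂ × ℂ => ‖p.2 - p.1‖)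
      (g := fun p => R * (1 - ‖p.1‖)) (by fun_prop) (by fun_prop)).inter
      (measurableSet_le (f := fun p : ℂ × ℂ => 1 - ‖p.1‖) (g := fun p => R * (1 - ‖p.2‖))
        (by fun_prop) (by fun_prop)))
  refine Trf_swap hA hB (k := indicator _ fun p => ENNReal.ofReal ((1 - ‖p.2‖)⁻¹ ^ 3))
    (Measurable.indicator (by fun_prop) hS) (fun x hx => ?_) (fun y hy => ?_)
    fun y hy x => indicator_of_notMem (fun k => hy k.1) _
  · obtain ⟨z3, h3⟩ := h x hx
    have hx1 : x ∈ ball (0 : ℂ) 1 := mem_ball_zero_iff.2 (hx.2.2.trans_lt hr)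
    have t1 := t_pos hx1
    refine le_trans (le_of_eq ?_) (lintegral_mono (f := (ball z3 (ρ * (1 - ‖x‖))).indicator
      fun _ => ENNReal.ofReal (((1 + R) * (1 - ‖x‖))⁻¹ ^ 3)) fun y => ?_)
    · rw [lintegral_indicator_const measurableSet_ball, Complex.volume_ball, Trf_pi,
        ← ENNReal.ofReal_pow (by positivity), ← ENNReal.ofReal_mul (by positivity),
        ← ENNReal.ofReal_mul (by positivity)]
      refine congrArg _ ?_
      field_simp
    · refine indicator_apply_le' (fun hy => ?_) fun _ => zero_le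
      have t2 := t_pos (near_ball hR hx1 (h3 hy).2)
      have h4 : (1 - r) / R ≤ 1 - ‖y‖ := by
        rw [div_le_iff₀ hR0]
        linarith [(h3 hy).2.2, hx.2.2]
      rw [indicator_of_mem]
      · exact ENNReal.ofReal_le_ofReal (pow_le_pow_left₀ (by positivity)
          (inv_anti₀ t2 (near_t_le (h3 hy).2)) 3)
      · exact ⟨⟨(h3 hy).1, norm_nonneg _, by linarith⟩, (h3 hy).2⟩
  · have t2 : 0 < 1 - ‖y‖ := by linarith [hy.2.2]
    refine le_trans (lintegral_mono (g := (closedBall y (R ^ 2 * (1 - ‖y‖))).indicator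
      fun _ => ENNReal.ofReal ((1 - ‖y‖)⁻¹ ^ 3)) fun x => ?_) (le_of_eq ?_)
    · refine indicator_apply_le' (fun k => le_of_eq (Eq.symm (indicator_of_mem ?_ _))) fun _ => zero_le
      rw [mem_closedBall, dist_comm, dist_eq_norm]
      linarith only [hR0, k.2.1, mul_le_mul_of_nonneg_left k.2.2 hR0.le]
    · rw [lintegral_indicator_const measurableSet_closedBall, Complex.volume_closedBall, Trf_pi,
        ← ENNReal.ofReal_pow (by positivity), ← ENNReal.ofReal_mul (by positivity),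
        ← ENNReal.ofReal_mul (by positivity)]
      refine congrArg _ ?_
      field_simp

lemma transfer {R ρ : ℝ} (hR : 1 ≤ R) (hρ : 0 < ρ) : ∃ C : ℝ, 0 ≤ C ∧ ∀ E Y : Set ℂ,
    MeasurableSet E → MeasurableSet Y → ∀ a r : ℝ, 1 / 2 ≤ a → a ≤ 3 / 4 → a ≤ r → r < 1 →
    (∀ z1 ∈ E ∩ ann a r, ∃ z3 : ℂ, ball z3 (ρ * (1 - ‖z1‖)) ⊆ Y ∩ near R z1) →
    tm E a r ≤ C * (tm Y a r + 1) := by
  have hR0 : 0 < R := by linarith
  have h2 := tm_nonneg (a := 0) (r := 3 / 4) MeasurableSet.univ (by norm_num)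
  have h3 : 0 ≤ 2 * π * Real.log R := mul_nonneg (by positivity) (Real.log_nonneg hR)
  refine ⟨π * R ^ 4 / (π * ρ ^ 2 / (1 + R) ^ 3) * (1 + tm univ 0 (3 / 4) + 2 * π * Real.log R),
    by positivity, fun E Y hE hY a r a1 a2 ar hr h => ?_⟩
  have h4 := Trf_main hR hρ hE hY hr h
  have h5 := tm_split (a := 0) (r' := r) (r := 1 - (1 - r) / R) hY (by linarith)
    (by linarith [div_le_self (by linarith : 0 ≤ 1 - r) hR]) (sub_lt_self _ (div_pos (by linarith) hR0))
  rw [sub_sub_cancel, div_div_cancel₀ (by linarith)] at h5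
  have h6 := Trf_low hY a2 hr
  have h7 := tm_nonneg (a := a) hY hr
  rw [mul_assoc, div_mul_eq_mul_div, le_div_iff₀' (by positivity)]
  refine h4.trans (mul_le_mul_of_nonneg_left ?_ (by positivity))
  linarith only [a1, ar, hr, h5, h6, h2, h7, h3, mul_nonneg h2 h7, mul_nonneg h3 h7]

end Pool.Agent.Work.MP_6ac3f6_an.PF
end

-- merged part: Pool.Agent.Work.MP_6ac3f6_an.PF.MirC
section
/-!
# Rescaling of Pang and Zalcman, explicit form

R = 4 * 10^6, C = 64 R^2 + 4. Put v z = 1/2 - |z| and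
P (s, z) = |f' z| (s v z)^2 / ((s v z)^2 + |f z|^2), continuous on the compact set
Icc 0 1 times closedBall 0 (1/2). If |f' 0| > C (1 + |f 0|^2) then P (1, 0) > 16 R^2 ≥ 1.
Minimise s on the compact set where P ≥ 1, at (s0, z0): s0 > 0, v z0 > 0, P (s0, z) ≤ 1 for all z
(limit from s < s0), P (s0, z0) = 1, and 1 ≥ P (s0, 0) ≥ s0^2 P (1, 0) gives s0 R ≤ 1/4.
With p = s0 v z0 the function g w = f (z0 + p w) / p on ball 0 R has g' w = f' (z0 + p w),
v (z0 + p w) ≥ (3/4) v z0, hence |g'| / (1 + |g|^2) ≤ 16/9 ≤ 2 with value 1 at 0.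
G = log g (exists_log) has |G'| = |g'|/|g| ≤ 2 (|g| + 1/|g|) = 4 cosh (Re G). bonk gives |G'| ≤ 16 on
ball 0 (R/4), so cosh (Re G 0) ≤ 8 and |Re G 0| ≤ 3; root gives a point with g' = 1, a contradiction.
-/

set_option autoImplicit false

namespace Pool.Agent.Work.MP_6ac3f6_an.PF

open Complex Metric Set Filter Topology Real MeasureTheory ComplexConjugate

lemma MirC_aux {R : ℝ} (hR : R = 4 * 10 ^ 6) {g : ℂ → ℂ} (hg : DifferentiableOn ℂ g (ball 0 R))
    (h0 : ∀ w ∈ ball (0 : ℂ) R, g w ≠ 0) (h1 : ∀ w ∈ ball (0 : ℂ) R, deriv g w ≠ 1)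
    (hb : ∀ w ∈ ball (0 : ℂ) R, ‖deriv g w‖ ≤ 2 * (1 + ‖g w‖ ^ 2))
    (he : ‖deriv g 0‖ = 1 + ‖g 0‖ ^ 2) : False := by
  obtain ⟨G, g1, g2, g3, g4⟩ := exists_log hg h0
  have hR0 : (0 : ℂ) ∈ ball (0 : ℂ) R := mem_ball_self (by rw [hR]; norm_num)
  have hsub : ball (0 : ℂ) (R / 4) ⊆ ball 0 R := ball_subset_ball (by rw [hR]; norm_num)
  have key : ∀ w ∈ ball (0 : ℂ) R, ‖deriv G w‖ * ‖g w‖ = ‖deriv g w‖ ∧
      2 * Real.cosh (G w).re * ‖g w‖ = 1 + ‖g w‖ ^ 2 := fun w hw => by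
    have hp := norm_pos_iff.2 (h0 w hw)
    refine ⟨by rw [g3 w hw, norm_mul], ?_⟩
    rw [g4 w hw, Real.cosh_log hp]
    field_simp
    ring
  have e0 : ‖deriv G 0‖ = 2 * Real.cosh (G 0).re :=
    mul_right_cancel₀ (norm_ne_zero_iff.2 (h0 0 hR0)) (by rw [(key 0 hR0).1, (key 0 hR0).2, he])
  have hb' := bonk (by rw [hR]; norm_num) g1 (fun w hw => by
    refine le_of_mul_le_mul_right ?_ (norm_pos_iff.2 (h0 w hw))
    have := hb w hw
    rw [(key w hw).1]
    linarith [(key w hw).2]) e0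
  have h8 := hb' 0 (mem_ball_self (by rw [hR]; norm_num))
  have h3 : |(G 0).re| ≤ 3 := by
    have e3 : Real.exp 3 = Real.exp 1 ^ 3 := by rw [← Real.exp_nat_mul]; norm_num
    have e4 : (2.7 : ℝ) ^ 3 ≤ Real.exp 1 ^ 3 :=
      pow_le_pow_left₀ (by norm_num) (by linarith [Real.exp_one_gt_d9]) 3
    have : Real.cosh (G 0).re ≤ Real.cosh 3 := by
      rw [Real.cosh_eq 3, e3]
      have := Real.exp_pos (-3)
      norm_num at e4
      linarith
    simpa using Real.cosh_le_cosh.1 this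
  obtain ⟨z, hz, e⟩ := root (R := R / 4) (by rw [hR]; norm_num) (g1.mono hsub) hb'
    (by linarith [Real.one_le_cosh (G 0).re]) h3
  exact h1 z (hsub hz) (by rw [g3 z (hsub hz), ← g2 z (hsub hz), e])

lemma pang : ∃ C : ℝ, 0 ≤ C ∧ ∀ f : ℂ → ℂ, Cl f 0 1 → ‖deriv f 0‖ ≤ C * (1 + ‖f 0‖ ^ 2) := by
  obtain ⟨R, hR⟩ : ∃ R : ℝ, R = 4 * 10 ^ 6 := ⟨_, rfl⟩
  have hR1 : 1 ≤ R := by rw [hR]; norm_num
  refine ⟨64 * R ^ 2, by positivity, fun f hf => ?_⟩
  by_contra hc
  rw [not_le] at hc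
  have hsub : closedBall (0 : ℂ) (1 / 2) ⊆ ball 0 1 := closedBall_subset_ball (by norm_num)
  have hcont : ContinuousOn (fun z => (‖deriv f z‖ - 1) * (1 / 2 - ‖z‖) ^ 2 / ‖f z‖ ^ 2)
      (closedBall 0 (1 / 2)) := by
    refine ContinuousOn.div (ContinuousOn.mul
      ((hf.an.deriv.continuousOn.mono hsub).norm.sub continuousOn_const) (by fun_prop))
      ((hf.1.continuousOn.mono hsub).norm.pow 2) fun z hz => ?_
    exact pow_ne_zero 2 (norm_ne_zero_iff.2 (hf.2.1 z (hsub hz)))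
  obtain ⟨z0, hz0, hmax⟩ := (isCompact_closedBall (0 : ℂ) (1 / 2)).exists_isMaxOn
    ⟨0, mem_closedBall_self (by norm_num)⟩ hcont
  obtain ⟨M, hM⟩ : ∃ M, M = (‖deriv f z0‖ - 1) * (1 / 2 - ‖z0‖) ^ 2 / ‖f z0‖ ^ 2 := ⟨_, rfl⟩
  have hpos : ∀ z ∈ closedBall (0 : ℂ) (1 / 2), 0 < ‖f z‖ ^ 2 := fun z hz =>
    pow_pos (norm_pos_iff.2 (hf.2.1 z (hsub hz))) 2
  have hle : ∀ z ∈ closedBall (0 : ℂ) (1 / 2),
      (‖deriv f z‖ - 1) * (1 / 2 - ‖z‖) ^ 2 ≤ M * ‖f z‖ ^ 2 := fun z hz => by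
    rw [← div_le_iff₀ (hpos z hz), hM]
    exact hmax hz
  have heq : (‖deriv f z0‖ - 1) * (1 / 2 - ‖z0‖) ^ 2 = M * ‖f z0‖ ^ 2 := by
    rw [hM, div_mul_cancel₀ _ (hpos z0 hz0).ne']
  have hM1 : 16 * R ^ 2 ≤ M := by
    have h1 := hle 0 (mem_closedBall_self (by norm_num))
    have h2 := hpos 0 (mem_closedBall_self (by norm_num))
    rw [norm_zero] at h1
    refine le_of_mul_le_mul_right (le_trans ?_ h1) h2
    linarith only [hc, one_le_pow₀ (n := 2) hR1]
  have hM0 : 0 < M := lt_of_lt_of_le (by positivity) hM1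
  obtain ⟨v, hv⟩ : ∃ v, v = 1 / 2 - ‖z0‖ := ⟨_, rfl⟩
  rw [← hv] at heq
  have hv0 : 0 < v := by
    refine lt_of_le_of_ne (by rw [hv]; linarith [mem_closedBall_zero_iff.1 hz0]) fun e => ?_
    have := mul_pos hM0 (hpos z0 hz0)
    rw [← heq, ← e] at this
    simp at this
  have hq : 4 * R ≤ √M := Real.le_sqrt_of_sq_le (by linarith only [hM1])
  have hq0 : 0 < √M := Real.sqrt_pos.2 hM0
  obtain ⟨p, hp⟩ : ∃ p, p = v / √M := ⟨_, rfl⟩
  have hp0 : 0 < p := hp ▸ div_pos hv0 hq0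
  have hp2 : M * p ^ 2 = v ^ 2 := by
    rw [hp, div_pow, Real.sq_sqrt hM0.le, mul_div_cancel₀ _ hM0.ne']
  have hpR : p * R ≤ v / 4 := by
    rw [hp, div_mul_eq_mul_div, div_le_iff₀ hq0]
    linarith only [mul_le_mul_of_nonneg_left hq hv0.le]
  have hw : ∀ w ∈ ball (0 : ℂ) R, 3 / 4 * v ≤ 1 / 2 - ‖z0 + p * w‖ := fun w hw => by
    have h1 := norm_add_le z0 (p * w)
    rw [norm_mul, Complex.norm_real, Real.norm_of_nonneg hp0.le] at h1
    have h2 := mul_le_mul_of_nonneg_left (mem_ball_zero_iff.1 hw).le hp0.le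
    linarith
  have hm : ∀ w ∈ ball (0 : ℂ) R, z0 + p * w ∈ closedBall (0 : ℂ) (1 / 2) := fun w h => by
    have := hw w h
    rw [mem_closedBall_zero_iff]
    linarith
  have hpc : (p : ℂ) ≠ 0 := Complex.ofReal_ne_zero.2 hp0.ne'
  have hd : ∀ w ∈ ball (0 : ℂ) R,
      HasDerivAt (fun w => f (z0 + p * w) / p) (deriv f (z0 + p * w)) w := fun w h => by
    have h1 := (hf.1.differentiableAt (isOpen_ball.mem_nhds (hsub (hm w h)))).hasDerivAt
    have h2 : HasDerivAt (fun w : ℂ => z0 + p * w) (p * 1) w :=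
      ((hasDerivAt_id w).const_mul (p : ℂ)).const_add z0
    have h3 := (h1.comp w h2).div_const (p : ℂ)
    rwa [mul_one, mul_div_cancel_right₀ _ hpc] at h3
  have hn : ∀ w : ℂ, ‖f (z0 + p * w)‖ = p * ‖f (z0 + p * w) / p‖ := fun w => by
    rw [norm_div, Complex.norm_real, Real.norm_of_nonneg hp0.le, mul_div_cancel₀ _ hp0.ne']
  refine MirC_aux hR (g := fun w => f (z0 + p * w) / p)
    (fun w h => (hd w h).differentiableAt.differentiableWithinAt)
    (fun w h => div_ne_zero (hf.2.1 _ (hsub (hm w h))) hpc)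
    (fun w h => by rw [(hd w h).deriv]; exact hf.2.2 _ (hsub (hm w h))) (fun w h => ?_) ?_
  · rw [(hd w h).deriv]
    have h1 := hle _ (hm w h)
    rw [hn, mul_pow, ← mul_assoc, hp2] at h1
    by_contra h2
    rw [not_le] at h2
    have h3 : (3 / 4 * v) ^ 2 ≤ (1 / 2 - ‖z0 + p * w‖) ^ 2 :=
      pow_le_pow_left₀ (by positivity) (hw w h) 2
    have h4 := sq_nonneg ‖f (z0 + p * w) / p‖
    have h5 := mul_le_mul_of_nonneg_left h3 (by linarith : 0 ≤ ‖deriv f (z0 + p * w)‖ - 1)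
    have h6 := pow_pos hv0 2
    linarith only [h1, h5, h6, mul_le_mul_of_nonneg_right h2.le h6.le, mul_nonneg h4 h6.le]
  · rw [(hd 0 (mem_ball_self (by linarith))).deriv]
    have h1 := hn 0
    rw [mul_zero, add_zero] at h1 ⊢
    rw [h1, mul_pow, ← mul_assoc, hp2, mul_comm (v ^ 2)] at heq
    have := mul_right_cancel₀ (pow_pos hv0 2).ne' heq
    linarith

end Pool.Agent.Work.MP_6ac3f6_an.PF
end

-- merged part: Pool.Agent.Work.MP_6ac3f6_an.PF.MirD
section
/-!
# The bound of Miranda type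

Scaling: for z in the disc and 0 < s ≤ 1 - |z| the function w ↦ f (z + s w) / s is in Cl . 0 1, so
pang gives |f' z| ≤ C (1 + |f z|^2 / s^2). Fix z, t = 1 - |z|, g w = f (z + t w) / t; for |w| ≤ 1/2
we get |g' w| ≤ C (1 + 4 |g w|^2) ≤ 4 C (1 + |g w|^2). G = log g, u = Re G.
If |u 0| ≤ 1 then |g' 0| / |g 0| ≤ 4 C (e + e). Otherwise arctan (exp (u)) has derivative at most 4 C
along segments, so on a ball of radius d = min (1/2) (1/(40 (C+1))) it stays on the same side of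
pi/4 (arctan e ≥ pi/4 + 1/10, arctan (1/e) ≤ pi/4 - 1/10; any other argument is fine), u has one sign
and cara gives d |G' 0| ≤ 2 |u 0|. Finally u 0 = log (|f z| / t) differs from kk f z by at most log 2
and 1/t ≤ 2 bt z.
-/

set_option autoImplicit false

namespace Pool.Agent.Work.MP_6ac3f6_an.PF

open Complex Metric Set Filter Topology Real MeasureTheory ComplexConjugate

lemma MirD_mem {z w : ℂ} {s : ℝ} (hs : 0 < s) (h : ‖z‖ + s ≤ 1) (hw : w ∈ ball (0 : ℂ) 1) :
    z + s * w ∈ ball (0 : ℂ) 1 := by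
  rw [mem_ball_zero_iff] at hw ⊢
  refine (norm_add_le _ _).trans_lt ?_
  rw [norm_mul, Complex.norm_real, Real.norm_of_nonneg hs.le]
  nlinarith

lemma MirD_der {f : ℂ → ℂ} (hf : Cl f 0 1) {z w : ℂ} {s : ℝ} (hs : 0 < s) (h : ‖z‖ + s ≤ 1)
    (hw : w ∈ ball (0 : ℂ) 1) :
    HasDerivAt (fun w => f (z + s * w) / s) (deriv f (z + s * w)) w := by
  have h1 : HasDerivAt f (deriv f (z + s * w)) (z + s * w) :=
    (hf.1.differentiableAt (isOpen_ball.mem_nhds (MirD_mem hs h hw))).hasDerivAt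
  have h2 : HasDerivAt (fun w : ℂ => z + s * w) (s * 1) w :=
    ((hasDerivAt_id w).const_mul (s : ℂ)).const_add z
  have h3 := (h1.comp w h2).div_const (s : ℂ)
  have h4 : (s : ℂ) ≠ 0 := by exact_mod_cast hs.ne'
  rw [mul_one, mul_div_cancel_right₀ _ h4] at h3
  exact h3

lemma MirD_cl {f : ℂ → ℂ} (hf : Cl f 0 1) {z : ℂ} {s : ℝ} (hs : 0 < s) (h : ‖z‖ + s ≤ 1) :
    Cl (fun w => f (z + s * w) / s) 0 1 := by
  refine ⟨fun w hw => (MirD_der hf hs h hw).differentiableAt.differentiableWithinAt,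
    fun w hw => div_ne_zero (hf.2.1 _ (MirD_mem hs h hw)) (by exact_mod_cast hs.ne'),
    fun w hw => ?_⟩
  rw [(MirD_der hf hs h hw).deriv]
  exact hf.2.2 _ (MirD_mem hs h hw)

lemma MirD_small {h : ℂ → ℂ} {K : ℝ} (hK : 0 ≤ K) (hd : DifferentiableOn ℂ h (ball 0 (1 / 2)))
    (h0 : ∀ w ∈ ball (0 : ℂ) (1 / 2), h w ≠ 0)
    (hb : ∀ w ∈ ball (0 : ℂ) (1 / 2), ‖deriv h w‖ ≤ K * (1 + ‖h w‖ ^ 2)) (h1 : ‖h 0‖ ≤ 1 / 2) :
    ‖deriv h 0‖ ≤ (8 * K + 4) * ‖h 0‖ * |Real.log ‖h 0‖| := by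
  have hp : 0 < 4 * K + 2 := by positivity
  have hsub : ball (0 : ℂ) (1 / (4 * K + 2)) ⊆ ball 0 (1 / 2) :=
    ball_subset_ball (one_div_le_one_div_of_le (by norm_num) (by linarith))
  have hM : ∀ w ∈ ball (0 : ℂ) (1 / (4 * K + 2)), ‖h w‖ ≤ 1 := by
    intro w hw
    have hw' := mem_ball_zero_iff.1 hw
    have hm : ∀ τ ∈ Icc (0 : ℝ) 1, (τ : ℂ) * w ∈ ball (0 : ℂ) (1 / 2) := by
      intro τ hτ
      refine hsub (mem_ball_zero_iff.2 (lt_of_le_of_lt ?_ hw'))
      rw [norm_mul, Complex.norm_real, Real.norm_of_nonneg hτ.1]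
      exact mul_le_of_le_one_left (norm_nonneg _) hτ.2
    have hD : ∀ τ ∈ Icc (0 : ℝ) 1,
        HasDerivAt (fun τ : ℝ => h (τ * w)) (deriv h (τ * w) * w) τ := by
      intro τ hτ
      have a1 : HasDerivAt h (deriv h (τ * w)) (τ * w) :=
        (hd.differentiableAt (isOpen_ball.mem_nhds (hm τ hτ))).hasDerivAt
      have a2 : HasDerivAt (fun u : ℂ => u * w) (1 * w) (τ : ℂ) := (hasDerivAt_id _).mul_const w
      have a3 := (HasDerivAt.comp (τ : ℂ) (h₂ := h) (h := fun u : ℂ => u * w) a1 a2).comp_ofReal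
      rw [one_mul] at a3
      exact a3
    have hB : ∀ τ : ℝ, HasDerivAt (fun τ : ℝ => 1 / 2 + τ / 2) (1 / 2) τ := fun τ =>
      ((hasDerivAt_id τ).div_const 2).const_add _
    have key := image_norm_le_of_norm_deriv_right_lt_deriv_boundary
      (f := fun τ : ℝ => h (τ * w)) (f' := fun τ : ℝ => deriv h (τ * w) * w) (a := 0) (b := 1)
      (fun τ hτ => (hD τ hτ).continuousAt.continuousWithinAt)
      (fun τ hτ => (hD τ (Ico_subset_Icc_self hτ)).hasDerivWithinAt)
      (B := fun τ : ℝ => 1 / 2 + τ / 2) (B' := fun _ => 1 / 2) (by simpa using h1) hB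
      (fun τ hτ he => by
        have b1 := hb _ (hm τ (Ico_subset_Icc_self hτ))
        have b2 : ‖h (τ * w)‖ ≤ 1 := by
          have he' : ‖h (τ * w)‖ = 1 / 2 + τ / 2 := he
          linarith [hτ.2]
        have b3 : ‖h (τ * w)‖ ^ 2 ≤ 1 := pow_le_one₀ (norm_nonneg _) b2
        have b4 : ‖deriv h (τ * w)‖ ≤ 2 * K := by nlinarith
        rw [lt_div_iff₀ hp] at hw'
        have b5 := mul_le_mul_of_nonneg_right b4 (norm_nonneg w)
        show ‖deriv h (τ * w) * w‖ < 1 / 2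
        rw [norm_mul]
        linarith only [hw', b5, norm_nonneg w]) (right_mem_Icc.2 zero_le_one)
    have key' : ‖h (((1 : ℝ) : ℂ) * w)‖ ≤ 1 / 2 + 1 / 2 := key
    rw [Complex.ofReal_one, one_mul] at key'
    linarith
  have h2 := cara_log (by positivity) (hd.mono hsub) (fun w hw => h0 w (hsub hw)) hM
  rw [one_div ‖h 0‖, Real.log_inv, one_div_mul_eq_div, div_le_iff₀ hp] at h2
  have h3 := mul_le_mul_of_nonneg_left (neg_le_abs (Real.log ‖h 0‖))
    (by positivity : 0 ≤ (8 * K + 4) * ‖h 0‖)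
  linarith

lemma MirD_all {g : ℂ → ℂ} {K : ℝ} (hK : 0 ≤ K) (hd : DifferentiableOn ℂ g (ball 0 (1 / 2)))
    (h0 : ∀ w ∈ ball (0 : ℂ) (1 / 2), g w ≠ 0)
    (hb : ∀ w ∈ ball (0 : ℂ) (1 / 2), ‖deriv g w‖ ≤ K * (1 + ‖g w‖ ^ 2)) :
    ‖deriv g 0‖ ≤ (8 * K + 4) * ‖g 0‖ * (1 + |Real.log ‖g 0‖|) := by
  have hz : (0 : ℂ) ∈ ball (0 : ℂ) (1 / 2) := mem_ball_self (by norm_num)
  have hp : 0 < ‖g 0‖ := norm_pos_iff.2 (h0 0 hz)
  have hq : 0 ≤ (8 * K + 4) * ‖g 0‖ := by positivity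
  rcases le_total ‖g 0‖ (1 / 2) with h1 | h1
  · have := MirD_small hK hd h0 hb h1
    linarith
  rcases le_total ‖g 0‖ 2 with h2 | h2
  · have h3 := hb 0 hz
    have h4 : 1 + ‖g 0‖ ^ 2 ≤ 8 * ‖g 0‖ := by nlinarith
    have h5 := mul_le_mul_of_nonneg_left h4 hK
    have h6 := mul_nonneg hq (abs_nonneg (Real.log ‖g 0‖))
    linarith
  · have hD : ∀ w ∈ ball (0 : ℂ) (1 / 2),
        ‖deriv (fun w => (g w)⁻¹) w‖ = ‖deriv g w‖ / ‖g w‖ ^ 2 := by
      intro w hw
      have a1 := ((hd.differentiableAt (isOpen_ball.mem_nhds hw)).hasDerivAt.fun_inv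
        (h0 w hw)).deriv
      rw [a1, norm_div, norm_neg, norm_pow]
    have h3 := MirD_small (h := fun w => (g w)⁻¹) hK (hd.fun_inv h0)
      (fun w hw => inv_ne_zero (h0 w hw))
      (fun w hw => by
        have a1 : 0 < ‖g w‖ := norm_pos_iff.2 (h0 w hw)
        rw [hD w hw, div_le_iff₀ (by positivity), norm_inv]
        refine (hb w hw).trans (le_of_eq ?_)
        field_simp
        ring)
      (by
        rw [norm_inv, one_div]
        exact inv_anti₀ (by norm_num) h2)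
    rw [hD 0 hz, div_le_iff₀ (by positivity), norm_inv, Real.log_inv, abs_neg] at h3
    have e : (8 * K + 4) * ‖g 0‖⁻¹ * |Real.log ‖g 0‖| * ‖g 0‖ ^ 2 =
        (8 * K + 4) * ‖g 0‖ * |Real.log ‖g 0‖| := by
      field_simp
    linarith

theorem mir : ∃ C : ℝ, 1 ≤ C ∧ ∀ f : ℂ → ℂ, Cl f 0 1 → Mir C f := by
  obtain ⟨C, hC, hP⟩ := pang
  refine ⟨4 * (8 * (4 * C) + 4), by linarith, fun f hf => ⟨hf, fun z hz => ?_⟩⟩
  obtain ⟨t, ht⟩ : ∃ t, t = 1 - ‖z‖ := ⟨_, rfl⟩
  have t0 : 0 < t := ht ▸ t_pos hz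
  have t1 : ‖z‖ + t ≤ 1 := by linarith
  have hsub : ball (0 : ℂ) (1 / 2) ⊆ ball 0 1 := ball_subset_ball (by norm_num)
  have hg := MirD_cl hf t0 t1
  have h1 := MirD_all (g := fun w => f (z + t * w) / t) (K := 4 * C) (by linarith)
    (hg.1.mono hsub) (fun w hw => hg.2.1 w (hsub hw)) (fun w hw => by
      have a0 : 0 < t / 2 := by positivity
      have a1 : ‖z + t * w‖ + t / 2 ≤ 1 := by
        have b1 := norm_add_le z (t * w)
        rw [norm_mul, Complex.norm_real, Real.norm_of_nonneg t0.le] at b1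
        have b2 := mem_ball_zero_iff.1 hw
        nlinarith
      have a2 := hP _ (MirD_cl hf a0 a1)
      rw [(MirD_der hf a0 a1 (mem_ball_self one_pos)).deriv] at a2
      simp only [mul_zero, add_zero] at a2
      rw [(MirD_der hf t0 t1 (hsub hw)).deriv]
      refine a2.trans ?_
      rw [norm_div, norm_div, Complex.norm_real, Complex.norm_real, Real.norm_of_nonneg a0.le,
        Real.norm_of_nonneg t0.le]
      have e : (‖f (z + t * w)‖ / (t / 2)) ^ 2 = 4 * (‖f (z + t * w)‖ / t) ^ 2 := by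
        field_simp
        norm_num
      rw [e]
      linarith)
  rw [(MirD_der hf t0 t1 (mem_ball_self one_pos)).deriv] at h1
  simp only [mul_zero, add_zero] at h1
  rw [norm_div, Complex.norm_real, Real.norm_of_nonneg t0.le] at h1
  have b0 := bt_pos hz
  have b1 := bt_mul_t_le hz
  have b2 := one_le_two_bt_mul_t hz
  rw [← ht] at b1 b2
  have f0 : 0 < ‖f z‖ := norm_pos_iff.2 (hf.2.1 z hz)
  have e : Real.log (‖f z‖ / t) = kk f z - Real.log (bt z * t) := by
    unfold kk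
    rw [Real.log_div f0.ne' t0.ne', Real.log_mul f0.ne' b0.ne', Real.log_mul b0.ne' t0.ne']
    ring
  have b3 : |Real.log (bt z * t)| ≤ 1 := by
    have c1 : Real.log (bt z * t) ≤ 0 := Real.log_nonpos (by positivity) b1
    have c2 := Real.one_sub_inv_le_log_of_pos (mul_pos b0 t0)
    have c3 : (bt z * t)⁻¹ ≤ 2 := by
      rw [inv_le_iff_one_le_mul₀ (mul_pos b0 t0)]
      exact b2
    rw [abs_le]
    constructor <;> linarith
  have b4 : 1 + |Real.log (‖f z‖ / t)| ≤ 2 * (1 + |kk f z|) := by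
    rw [e]
    have := abs_sub (kk f z) (Real.log (bt z * t))
    linarith [abs_nonneg (kk f z)]
  have b5 : ‖f z‖ / t ≤ 2 * bt z * ‖f z‖ := by
    rw [div_le_iff₀ t0]
    nlinarith
  calc ‖deriv f z‖ ≤ (8 * (4 * C) + 4) * (‖f z‖ / t) * (1 + |Real.log (‖f z‖ / t)|) := h1
    _ ≤ (8 * (4 * C) + 4) * (2 * bt z * ‖f z‖) * (2 * (1 + |kk f z|)) := by gcongr
    _ = _ := by ring

end Pool.Agent.Work.MP_6ac3f6_an.PF
end

-- merged part: Pool.Agent.Work.MP_6ac3f6_an.PF.Main
section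
/-!
# The constant two is not sharp for functions without poles
-/

set_option autoImplicit false

namespace Pool.Agent.Work.MP_6ac3f6_an.PF

open Complex Metric Set Filter Topology Real MeasureTheory ComplexConjugate

lemma Bad_mono {f : ℂ → ℂ} {c0 c1 : ℝ} (h : c0 ≤ c1) : Bad c1 f ⊆ Bad c0 f :=
  fun _ hz => ⟨hz.1, hz.2.1, h.trans hz.2.2⟩

lemma const_case {f : ℂ → ℂ} (hf : Cl f 0 1) (hF : ∀ z ∈ ball (0 : ℂ) 1, deriv f z = 0) {c : ℝ}
    (hc : 0 ≤ c) : Sm fun r => mk f⁻¹ 0 r - c * LL r := by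
  have h0 : ∀ z ∈ ball (0 : ℂ) 1, f z = f 0 := fun z hz =>
    isOpen_ball.is_const_of_deriv_eq_zero (convex_ball (0 : ℂ) 1).isPreconnected hf.1 hF hz
      (mem_ball_self one_pos)
  refine (Sm.const (log⁺ ‖(f 0)⁻¹‖)).mono fun r h1 h2 => ?_
  have e : mk f⁻¹ 0 r = log⁺ ‖(f 0)⁻¹‖ := by
    unfold mk
    rw [circleAverage_congr_sphere (f₂ := fun _ => log⁺ ‖(f 0)⁻¹‖), circleAverage_const]
    intro z hz
    simp only [pow_zero, one_mul, Pi.inv_apply, h0 z (sph_sub h1 h2 hz)]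
  have := mul_nonneg hc (LL_nonneg h1 h2)
  linarith

/-- a lower bound for the time spent in `Bad` -/
lemma time_bad {C : ℝ} (hC : 1 ≤ C) : ∃ c0 A : ℝ, 0 < c0 ∧ 0 ≤ A ∧ ∀ f : ℂ → ℂ, Mir C f →
    ∀ a : ℝ, 1 / 2 ≤ a → a ≤ 3 / 4 → ∃ D : ℝ, ∀ r : ℝ, 7 / 8 ≤ r → r < 1 →
      circleAverage (km f) 0 r ≤ LL r / 4 + A * tm (Bad c0 f) a (2 * r - 1) + D := by
  obtain ⟨k1, C1, hC1, hfl⟩ := flux hC
  obtain ⟨c, k0, hc, hc1, hk0, he, hband⟩ := band hC
  obtain ⟨k3, R, ρ, c0, hR, hρ, hc0, hc3, hnear⟩ :=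
    nearby (c := c) (k0 := k0) k1 hC (by linarith) (by linarith)
  obtain ⟨C2, hC2, htr⟩ := transfer hR hρ
  obtain ⟨C3, hC3, hray⟩ := ray k3 hc hc1 hk0 he
  refine ⟨c0, C1 * C2 * (1 + C3), hc0, by positivity, fun f hf a ha1 ha2 => ?_⟩
  obtain ⟨D, hD⟩ := hfl f hf a ha1 (by linarith)
  refine ⟨D + C1 * C2 * ((1 + C3) * (2 * π * Real.log 2) + C3 + 1), fun r h1 h2 => ?_⟩
  have mB := hf.1.meas_Bad c0
  have mS := hf.1.meas_SS c k0 k3
  have s1 := hD r (by linarith) h2
  have s2 := htr _ _ (hf.1.meas_SA k1) (mB.union mS) a r ha1 ha2 (by linarith) h2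
    fun z hz => hnear f hf z hz.1
  have s3 := tm_union_le (a := a) mB mS h2
  have s4 := hray f hf.1 (fun z hz => (hband f hf z hz).2) a r ha1 (by linarith) h2
  have s5 : tm (Band c k0 f) a r ≤ tm (Bad c0 f) a r :=
    tm_mono mB (fun z hz => Bad_mono hc3 (hband f hf z hz).1) h2
  have s6 := tm_split (a := a) mB (r' := 2 * r - 1) (by linarith) (by linarith) h2
  have e : (1 - (2 * r - 1)) / (1 - r) = 2 := by
    have : 1 - r ≠ 0 := by linarith
    field_simp
    ring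
  rw [e] at s6
  have s7 : tm (SS c k0 k3 f) a r ≤ C3 * (1 + tm (Bad c0 f) a r) :=
    s4.trans (mul_le_mul_of_nonneg_left (by linarith) hC3)
  have s8 : tm (SA k1 f) a r ≤ C2 * ((1 + C3) * tm (Bad c0 f) a r + C3 + 1) :=
    s2.trans (mul_le_mul_of_nonneg_left (by linarith) hC2)
  have s9 : (1 + C3) * tm (Bad c0 f) a r ≤
      (1 + C3) * (tm (Bad c0 f) a (2 * r - 1) + 2 * π * Real.log 2) :=
    mul_le_mul_of_nonneg_left s6 (by linarith)
  have s10 : tm (SA k1 f) a r ≤ C2 * ((1 + C3) * (tm (Bad c0 f) a (2 * r - 1) +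
      2 * π * Real.log 2) + C3 + 1) :=
    s8.trans (mul_le_mul_of_nonneg_left (by linarith) hC2)
  have s11 := mul_le_mul_of_nonneg_left s10 hC1
  linarith

theorem est : ∃ c : ℝ, c < 2 ∧ ∀ f : ℂ → ℂ, Cl f 0 1 → Sm fun r => mk f⁻¹ 0 r - c * LL r := by
  obtain ⟨C, hC, hM⟩ := mir
  obtain ⟨c0, A, hc0, hA, hT⟩ := time_bad hC
  set Λ : ℝ := 24 * π * A with hΛ
  have hΛ0 : 0 ≤ Λ := by positivity
  have hq : 0 < 1 / (2 * (1 + Λ)) := by positivity
  have hq1 : 1 / (2 * (1 + Λ)) ≤ 1 := (div_le_one (by positivity)).2 (by linarith)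
  refine ⟨2 - 1 / (2 * (1 + Λ)), by linarith, fun f hf => ?_⟩
  by_cases hF : ∃ z ∈ ball (0 : ℂ) 1, deriv f z ≠ 0
  swap
  · push Not at hF
    exact const_case hf hF (by linarith)
  obtain ⟨a, ha1, ha2, hs⟩ := smt hC (hM f hf) hF
  obtain ⟨D, hD⟩ := hT f (hM f hf) a ha1 ha2
  obtain ⟨m, hm⟩ := exists_nat_ge (4 * Λ)
  have hn : (4 * Λ : ℝ) ≤ (m + 1 : ℕ) := by push_cast; linarith
  have hn0 : (0 : ℝ) < (m + 1 : ℕ) := by positivity
  intro ε hε
  have ev : ∀ᶠ r in FF, (7 / 8 : ℝ) ≤ r :=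
    nhdsWithin_le_nhds (Ici_mem_nhds (by norm_num : (7 / 8 : ℝ) < 1))
  filter_upwards [hs (m + 1) (by omega) c0 hc0 (ε / 2) (by linarith),
    Sm.const D (ε / 2) (by linarith), ev, ev_rng] with r k1 k2 k3 k4
  have L0 := LL_nonneg k4.1 k4.2
  have k5 := hD r k3 k4.2
  have k6 := mk_inv_le hf k4.1 k4.2
  set X := circleAverage (km f) 0 r
  set B := tm (Bad c0 f) a (2 * r - 1)
  set L := LL r
  have k7 := mul_le_mul_of_nonneg_left k1 hΛ0
  have e1 : Λ * (1 / (24 * π) * B) = A * B := by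
    rw [hΛ]
    field_simp
  have e2 : Λ * (1 / ((m + 1 : ℕ) : ℝ)) ≤ 1 / 4 := by
    rw [mul_one_div, div_le_iff₀ hn0]
    linarith
  have e3 := mul_le_mul_of_nonneg_right e2 L0
  have k8 : (1 + Λ) * X ≤ (Λ + 1 / 2) * L + (1 + Λ) * (ε / 2 * L) := by
    linarith only [k2, k5, k7, e1, e3]
  have k9 : X ≤ (1 - 1 / (2 * (1 + Λ))) * L + ε / 2 * L := by
    refine le_of_mul_le_mul_left ?_ (by positivity : 0 < 1 + Λ)
    have : (1 + Λ) * ((1 - 1 / (2 * (1 + Λ))) * L) = (Λ + 1 / 2) * L := by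
      field_simp
      ring
    rw [mul_add (1 + Λ), this]
    exact k8
  linarith only [k6, k9, mul_nonneg hε.le L0]

theorem alpha_lt : ∃ c : ℝ, c < 2 ∧ ∀ f : ℂ → ℂ, Cl f 0 1 → alpha f ≤ (c : EReal) := by
  obtain ⟨c, hc, h⟩ := est
  refine ⟨c, hc, fun f hf => ?_⟩
  have mf : Mer f := fun z hz => (hf.an z hz).meromorphicAt
  have h0 : ∀ z ∈ ball (0 : ℂ) 1, meromorphicOrderAt f z ≤ 0 := fun z hz =>
    ((Ex.zero (hf.an z hz)).order_eq (hf.2.1 z hz) (mf z hz)).le
  have L0 : ∀ᶠ r in FF, 0 < LL r := LL_top.eventually_gt_atTop 0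
  refine le_of_forall_gt_imp_ge_of_dense fun x hx => ?_
  obtain ⟨y, hy, hy'⟩ := EReal.lt_iff_exists_real_btwn.1 hx
  rw [EReal.coe_lt_coe_iff] at hy
  refine (limsup_le_of_le (by isBoundedDefault) ?_).trans hy'.le
  filter_upwards [((h f hf).add (Sm.const (Real.log ‖meromorphicTrailingCoeffAt f 0‖))) (y - c)
    (by linarith), L0, ev_rng] with r k1 k2 k3
  rw [EReal.coe_le_coe_iff, char_inv mf h0 k3.1 k3.2]
  exact (div_le_iff₀ k2).2 (by linarith)

end Pool.Agent.Work.MP_6ac3f6_an.PF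
end
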