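import Pool.Agent.Work.MP_6ac3f6_an.Up6

-- merged part: Pool.Agent.Work.MP_6ac3f6_an.PF.Defs
section
/-!
# Pole-free case: definitions

Plan of the whole proof: team store file h56_6ac3f6_polefree.md.
Conventions: F = deriv f, t = 1 - |z|, bt = 1 / (1 - |z|^2), so 1/(2t) ≤ bt ≤ 1/t.
-/

set_option autoImplicit false

namespace Pool.Agent.Work.MP_6ac3f6_an.PF

open Complex Metric Set Filter Topology Real MeasureTheory ComplexConjugate

/-- holomorphic, without zeros, derivative different from one, on a disc -/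
def Cl (f : ℂ → ℂ) (c : ℂ) (R : ℝ) : Prop :=
  DifferentiableOn ℂ f (ball c R) ∧ (∀ z ∈ ball c R, f z ≠ 0) ∧ ∀ z ∈ ball c R, deriv f z ≠ 1

/-- the density of the hyperbolic metric -/
noncomputable def bt (z : ℂ) : ℝ := (1 - ‖z‖ ^ 2)⁻¹

/-- the normalised size of `f` -/
noncomputable def kk (f : ℂ → ℂ) (z : ℂ) : ℝ := Real.log (‖f z‖ * bt z)

/-- the normalised size of `(f' - 1) / f` -/
noncomputable def yy (f : ℂ → ℂ) (z : ℂ) : ℝ := Real.log ‖deriv f z - 1‖ - kk f z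

/-- the class on the unit disc together with the bound of Miranda type -/
def Mir (C : ℝ) (f : ℂ → ℂ) : Prop :=
  Cl f 0 1 ∧ ∀ z ∈ ball (0 : ℂ) 1, ‖deriv f z‖ ≤ C * bt z * ‖f z‖ * (1 + |kk f z|)

/-- the logarithm of the weight in the target plane -/
noncomputable def lphi (w : ℂ) : ℝ :=
  Real.log 2 + Real.log (1 + ‖w‖ ^ 2) / 2 - Real.log (1 + Real.log (1 + ‖w‖ ^ 2))

/-- first term of the potential -/
noncomputable def pq (f : ℂ → ℂ) (z : ℂ) : ℝ := ‖deriv (deriv f) z‖ ^ 2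

/-- second term of the potential -/
noncomputable def qq (f : ℂ → ℂ) (z : ℂ) : ℝ :=
  bt z ^ 2 * ‖deriv f z‖ ^ 2 * ‖deriv f z - 1‖ ^ 2 * Real.exp (-2 * lphi (deriv f z))

/-- third term of the potential -/
noncomputable def ww (e : ℝ) (f : ℂ → ℂ) (z : ℂ) : ℝ := e ^ 2 * ‖f z‖ ^ 2 * ‖deriv f z - 1‖ ^ 2

/-- the potential of the refined second main theorem -/
noncomputable def ZZ (n : ℕ) (e : ℝ) (f : ℂ → ℂ) (z : ℂ) : ℝ :=
  Real.log (pq f z ^ n + qq f z ^ n + ww e f z ^ n) / (2 * n)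

/-- a smooth majorant of the negative part of `kk` -/
noncomputable def Ph (f : ℂ → ℂ) (z : ℂ) : ℝ := 4 * Real.log (1 + Real.exp (-kk f z / 4))

/-- the negative part of `kk` -/
noncomputable def km (f : ℂ → ℂ) (z : ℂ) : ℝ := max (-kk f z) 0

/-- the error term in the upper bound of the potential -/
noncomputable def err (f : ℂ → ℂ) (z : ℂ) : ℝ :=
  3 + log⁺ (‖deriv (deriv f) z / f z‖ / bt z ^ 2) + log⁺ (‖deriv f z / f z‖ / bt z) +
    log⁺ (‖deriv (deriv f) z / (deriv f z - 1)‖ / bt z) +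
      Real.log (1 + Real.log (1 + ‖deriv f z‖ ^ 2))

/-- points where small values of `f` are created -/
def SA (k1 : ℝ) (f : ℂ → ℂ) : Set ℂ :=
  {z | z ∈ ball (0 : ℂ) 1 ∧ |kk f z| ≤ k1 ∧ 2 * bt z * ‖f z‖ ≤ ‖deriv f z‖}

/-- points where the derivative contracts -/
def Bad (c0 : ℝ) (f : ℂ → ℂ) : Set ℂ :=
  {z | z ∈ ball (0 : ℂ) 1 ∧ pq f z ≤ qq f z / 2 ∧
    c0 ≤ ‖deriv f z‖ * Real.exp (-lphi (deriv f z))}

/-- the band which has to be crossed -/
def Band (c k0 : ℝ) (f : ℂ → ℂ) : Set ℂ :=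
  {z | z ∈ ball (0 : ℂ) 1 ∧ k0 ≤ kk f z ∧ -(c * kk f z) ≤ yy f z ∧ yy f z ≤ -(c * kk f z) / 2}

/-- points where `f` is large and almost constant -/
def SS (c k0 k3 : ℝ) (f : ℂ → ℂ) : Set ℂ :=
  {z | z ∈ ball (0 : ℂ) 1 ∧ k0 + 1 ≤ kk f z ∧ kk f z ≤ k3 ∧ yy f z ≤ -(c * kk f z)}

/-- a closed annulus -/
def ann (a r : ℝ) : Set ℂ := {z | a ≤ ‖z‖ ∧ ‖z‖ ≤ r}

/-- the time spent in a set -/
noncomputable def tm (E : Set ℂ) (a r : ℝ) : ℝ := ∫ z in E ∩ ann a r, (1 - ‖z‖)⁻¹

/-- points at bounded hyperbolic distance -/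
def near (R : ℝ) (z1 : ℂ) : Set ℂ :=
  {z | ‖z - z1‖ ≤ R * (1 - ‖z1‖) ∧ 1 - ‖z1‖ ≤ R * (1 - ‖z‖)}

/-- directional derivative -/
noncomputable def pd (v : ℂ) (u : ℂ → ℝ) (z : ℂ) : ℝ := fderiv ℝ u z v

/-- the Laplacian -/
noncomputable def Lap (u : ℂ → ℝ) (z : ℂ) : ℝ := pd 1 (pd 1 u) z + pd I (pd I u) z

/-- the square of the gradient -/
noncomputable def Gr2 (u : ℂ → ℝ) (z : ℂ) : ℝ := pd 1 u z ^ 2 + pd I u z ^ 2

/-- nonnegative functions whose logarithm has Laplacian at least `a / u` -/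
def LSub (u : ℂ → ℝ) (z : ℂ) (a : ℝ) : Prop :=
  ContDiffAt ℝ 2 u z ∧ 0 ≤ u z ∧ a ≤ Lap u z ∧ Gr2 u z ≤ u z * (Lap u z - a)

variable {f : ℂ → ℂ} {z : ℂ}

lemma t_pos (hz : z ∈ ball (0 : ℂ) 1) : 0 < 1 - ‖z‖ := by
  have := mem_ball_zero_iff.1 hz
  linarith only [this]

lemma one_le_bt (hz : z ∈ ball (0 : ℂ) 1) : 1 ≤ bt z := by
  have h := mem_ball_zero_iff.1 hz
  have h0 := norm_nonneg z
  unfold bt
  exact (one_le_inv₀ (by linarith only [h, h0, mul_nonneg_of_nonpos_of_nonpos (le_of_lt (Mathlib.Tactic.Linarith.sub_neg_of_lt h)) (Mathlib.Tactic.Linarith.sub_nonpos_of_le h0)])).2 (by nlinarith)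

lemma bt_pos (hz : z ∈ ball (0 : ℂ) 1) : 0 < bt z := lt_of_lt_of_le one_pos (one_le_bt hz)

lemma bt_mul_t_le (hz : z ∈ ball (0 : ℂ) 1) : bt z * (1 - ‖z‖) ≤ 1 := by
  have h := mem_ball_zero_iff.1 hz
  have h0 := norm_nonneg z
  unfold bt
  rw [inv_mul_le_iff₀ (by linarith only [h, h0, mul_nonneg_of_nonpos_of_nonpos (le_of_lt (Mathlib.Tactic.Linarith.sub_neg_of_lt h)) (Mathlib.Tactic.Linarith.sub_nonpos_of_le h0)])]
  nlinarith

lemma one_le_two_bt_mul_t (hz : z ∈ ball (0 : ℂ) 1) : 1 ≤ 2 * (bt z * (1 - ‖z‖)) := by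
  have h := mem_ball_zero_iff.1 hz
  have h0 := norm_nonneg z
  have h1 : 0 < 1 - ‖z‖ ^ 2 := by linarith only [h, h0, mul_nonneg_of_nonpos_of_nonpos (le_of_lt (Mathlib.Tactic.Linarith.sub_neg_of_lt h)) (Mathlib.Tactic.Linarith.sub_nonpos_of_le h0)]
  have e : bt z * (1 - ‖z‖ ^ 2) = 1 := inv_mul_cancel₀ h1.ne'
  have := bt_pos hz
  (refine le_of_not_gt fun h_nl => ?_; linarith only [h_nl, h, e, h0, mul_nonneg_of_nonpos_of_nonpos (Mathlib.Tactic.Linarith.sub_nonpos_of_le h0) (le_of_lt (Mathlib.Tactic.Linarith.sub_neg_of_lt h_nl))])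

lemma Cl.an (hf : Cl f 0 1) : AnalyticOnNhd ℂ f (ball 0 1) := hf.1.analyticOnNhd isOpen_ball

lemma Cl.exp_kk (hf : Cl f 0 1) (hz : z ∈ ball (0 : ℂ) 1) :
    Real.exp (kk f z) = ‖f z‖ * bt z :=
  Real.exp_log (mul_pos (norm_pos_iff.2 (hf.2.1 z hz)) (bt_pos hz))

lemma near_ball {R : ℝ} {z1 : ℂ} (hR : 1 ≤ R) (h1 : z1 ∈ ball (0 : ℂ) 1) (h : z ∈ near R z1) :
    z ∈ ball (0 : ℂ) 1 := by
  have := t_pos h1
  have h2 := h.2
  rw [mem_ball_zero_iff]
  by_contra hc
  linarith only [this, h2, hc, hR, not_lt.1 hc, mul_nonneg_of_nonpos_of_nonpos (Mathlib.Tactic.Linarith.sub_nonpos_of_le hR) (Mathlib.Tactic.Linarith.sub_nonpos_of_le (le_of_not_gt hc))]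

lemma near_self {R : ℝ} (hR : 1 ≤ R) (h1 : z ∈ ball (0 : ℂ) 1) : z ∈ near R z := by
  have := t_pos h1
  refine ⟨by simp only [sub_self, norm_zero]; positivity, by linarith only [hR, this, mul_nonneg_of_nonpos_of_nonpos (Mathlib.Tactic.Linarith.sub_nonpos_of_le hR) (le_of_lt (Mathlib.Tactic.Linarith.sub_neg_of_lt this))]⟩

lemma near_t_le {R : ℝ} {z1 : ℂ} (h : z ∈ near R z1) : 1 - ‖z‖ ≤ (1 + R) * (1 - ‖z1‖) := by
  have h1 := h.1
  have h2 : ‖z1‖ ≤ ‖z‖ + ‖z - z1‖ := by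
    have := norm_sub_le z (z - z1)
    rwa [sub_sub_cancel] at this
  linarith only [h1, h2]

lemma near_trans {R S : ℝ} {z1 z2 : ℂ} (hR : 1 ≤ R) (hS : 1 ≤ S) (h1 : z1 ∈ ball (0 : ℂ) 1)
    (h2 : z2 ∈ near R z1) (h3 : z ∈ near S z2) : z ∈ near (R + S * (1 + R)) z1 := by
  have p1 := t_pos h1
  have p2 := t_pos (near_ball hR h1 h2)
  have p3 := t_pos (near_ball hS (near_ball hR h1 h2) h3)
  have a := near_t_le h2
  have e : ‖z - z1‖ ≤ ‖z - z2‖ + ‖z2 - z1‖ := norm_sub_le_norm_sub_add_norm_sub _ _ _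
  refine ⟨?_, ?_⟩
  · linarith only [e, a, hS, h2.1, h3.1, mul_le_mul_of_nonneg_left a (by linarith only [hS] : 0 ≤ S)]
  · have := mul_le_mul_of_nonneg_left h3.2 (by linarith : 0 ≤ R)
    linarith only [this, hR, p3, hS, h2.2, mul_pos (by linarith only [hR] : 0 < R) p3, mul_pos (by linarith only [hS] : 0 < S) p3]

lemma near_mono {R S : ℝ} {z1 : ℂ} (hR : 1 ≤ R) (hS : R ≤ S) (h1 : z1 ∈ ball (0 : ℂ) 1)
    (h : z ∈ near R z1) : z ∈ near S z1 := by
  have p1 := t_pos h1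
  have p2 := t_pos (near_ball hR h1 h)
  exact ⟨by linarith only [h, hS, p1, h.1, mul_nonneg_of_nonpos_of_nonpos (Mathlib.Tactic.Linarith.sub_nonpos_of_le hS) (le_of_lt (Mathlib.Tactic.Linarith.sub_neg_of_lt p1))], by linarith only [h, hS, p2, h.2, mul_nonneg_of_nonpos_of_nonpos (Mathlib.Tactic.Linarith.sub_nonpos_of_le hS) (le_of_lt (Mathlib.Tactic.Linarith.sub_neg_of_lt p2))]⟩

end Pool.Agent.Work.MP_6ac3f6_an.PF
end

-- merged part: Pool.Agent.Work.MP_6ac3f6_an.PF.LapA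
section
/-!
# Calculus for the Laplacian

A function which is C^2 at z is C^2 (in particular differentiable) near z
(ContDiffAt.eventually), so the first order rules hold eventually and can be differentiated again;
pd v u is C^1 at z.
-/

set_option autoImplicit false

namespace Pool.Agent.Work.MP_6ac3f6_an.PF

open Complex Metric Set Filter Topology Real MeasureTheory ComplexConjugate

variable {u v : ℂ → ℝ} {z e : ℂ}

lemma pd_congr (h : u =ᶠ[𝓝 z] v) : pd e u z = pd e v z := by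
  rw [pd, pd, h.fderiv_eq]

lemma LapA_congr (h : u =ᶠ[𝓝 z] v) : pd e u =ᶠ[𝓝 z] pd e v :=
  h.eventuallyEq_nhds.mono fun _ hw => pd_congr hw

lemma Lap_congr (h : u =ᶠ[𝓝 z] v) : Lap u z = Lap v z := by
  rw [Lap, Lap, pd_congr (LapA_congr h), pd_congr (e := I) (LapA_congr h)]

lemma Gr2_congr (h : u =ᶠ[𝓝 z] v) : Gr2 u z = Gr2 v z := by
  rw [Gr2, Gr2, pd_congr h, pd_congr (e := I) h]

lemma pd_const (c : ℝ) : pd e (fun _ => c) z = 0 := by
  simp [pd]

lemma pd_add (hu : DifferentiableAt ℝ u z) (hv : DifferentiableAt ℝ v z) :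
    pd e (fun w => u w + v w) z = pd e u z + pd e v z := by
  rw [pd, fderiv_fun_add hu hv]
  rfl

lemma pd_cmul (hu : DifferentiableAt ℝ u z) (c : ℝ) :
    pd e (fun w => c * u w) z = c * pd e u z := by
  rw [pd, fderiv_const_mul hu]
  rfl

lemma pd_mul (hu : DifferentiableAt ℝ u z) (hv : DifferentiableAt ℝ v z) :
    pd e (fun w => u w * v w) z = u z * pd e v z + v z * pd e u z := by
  rw [pd, fderiv_fun_mul hu hv]
  rfl

lemma pd_comp {Φ : ℝ → ℝ} (hu : DifferentiableAt ℝ u z) (hΦ : DifferentiableAt ℝ Φ (u z)) :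
    pd e (fun w => Φ (u w)) z = deriv Φ (u z) * pd e u z := by
  exact congrArg (fun L : ℂ →L[ℝ] ℝ => L e) (hΦ.hasDerivAt.comp_hasFDerivAt z hu.hasFDerivAt).fderiv

lemma contDiffAt_pd (hu : ContDiffAt ℝ 2 u z) : ContDiffAt ℝ 1 (pd e u) z := by
  exact (hu.fderiv_right (m := 1) le_rfl).clm_apply contDiffAt_const

lemma continuousAt_Lap (hu : ContDiffAt ℝ 2 u z) : ContinuousAt (Lap u) z := by
  have h : ∀ e, ContinuousAt (pd e (pd e u)) z := fun e =>
    (((contDiffAt_pd hu).fderiv_right (m := 0) le_rfl).clm_apply contDiffAt_const).continuousAt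
  exact (h 1).add (h I)

lemma LapA_ev {E : Type} [NormedAddCommGroup E] [NormedSpace ℝ E] {g : E → ℝ} {x : E}
    (h : ContDiffAt ℝ 2 g x) : ∀ᶠ w in 𝓝 x, DifferentiableAt ℝ g w :=
  (h.eventually (by simp)).mono fun _ hw => hw.differentiableAt (by simp)

lemma LapA_d (hu : ContDiffAt ℝ 2 u z) : DifferentiableAt ℝ (pd e u) z :=
  (contDiffAt_pd hu).differentiableAt (by simp)

lemma Lap_const (c : ℝ) : Lap (fun _ => c) z = 0 := by
  have h : ∀ e, pd e (fun _ => c) = fun _ => 0 := fun e => funext fun _ => pd_const c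
  rw [Lap, h, h, pd_const, pd_const, add_zero]

lemma Lap_add (hu : ContDiffAt ℝ 2 u z) (hv : ContDiffAt ℝ 2 v z) :
    Lap (fun w => u w + v w) z = Lap u z + Lap v z := by
  have h : ∀ e, pd e (pd e fun w => u w + v w) z = pd e (pd e u) z + pd e (pd e v) z := fun e => by
    rw [← pd_add (LapA_d hu) (LapA_d hv)]
    refine pd_congr ?_
    filter_upwards [LapA_ev hu, LapA_ev hv] with w h1 h2 using pd_add h1 h2
  simp only [Lap, h]
  ring

lemma Lap_cmul (hu : ContDiffAt ℝ 2 u z) (c : ℝ) : Lap (fun w => c * u w) z = c * Lap u z := by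
  have h : ∀ e, pd e (pd e fun w => c * u w) z = c * pd e (pd e u) z := fun e => by
    rw [← pd_cmul (LapA_d hu)]
    refine pd_congr ?_
    filter_upwards [LapA_ev hu] with w h1 using pd_cmul h1 c
  simp only [Lap, h]
  ring

lemma Lap_mul (hu : ContDiffAt ℝ 2 u z) (hv : ContDiffAt ℝ 2 v z) :
    Lap (fun w => u w * v w) z = u z * Lap v z + v z * Lap u z +
      2 * (pd 1 u z * pd 1 v z + pd I u z * pd I v z) := by
  have h1 := (LapA_ev hu).self_of_nhds
  have h2 := (LapA_ev hv).self_of_nhds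
  have h : ∀ e, pd e (pd e fun w => u w * v w) z = u z * pd e (pd e v) z + pd e v z * pd e u z +
      (v z * pd e (pd e u) z + pd e u z * pd e v z) := fun e => by
    rw [← pd_mul h1 (LapA_d hv), ← pd_mul h2 (LapA_d hu),
      ← pd_add (h1.fun_mul (LapA_d hv)) (h2.fun_mul (LapA_d hu))]
    refine pd_congr ?_
    filter_upwards [LapA_ev hu, LapA_ev hv] with w h1 h2 using pd_mul h1 h2
  simp only [Lap, h]
  ring

lemma Lap_comp {Φ : ℝ → ℝ} (hu : ContDiffAt ℝ 2 u z) (hΦ : ContDiffAt ℝ 2 Φ (u z)) :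
    Lap (fun w => Φ (u w)) z = deriv Φ (u z) * Lap u z + deriv (deriv Φ) (u z) * Gr2 u z := by
  have h1 := (LapA_ev hu).self_of_nhds
  have h2 : DifferentiableAt ℝ (deriv Φ) (u z) :=
    ((hΦ.fderiv_right (m := 1) le_rfl).clm_apply
      (contDiffAt_const (c := (1 : ℝ)))).differentiableAt (by simp)
  have h3 : DifferentiableAt ℝ (fun w => deriv Φ (u w)) z := h2.comp z h1
  have h : ∀ e, pd e (pd e fun w => Φ (u w)) z = deriv Φ (u z) * pd e (pd e u) z +
      pd e u z * (deriv (deriv Φ) (u z) * pd e u z) := fun e => by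
    rw [← pd_comp h1 h2, ← pd_mul h3 (LapA_d hu)]
    refine pd_congr ?_
    filter_upwards [LapA_ev hu, h1.continuousAt.eventually (LapA_ev hΦ)] with w h4 h5 using pd_comp h4 h5
  simp only [Lap, Gr2, h]
  ring

/-- chain rule with explicit derivatives -/
lemma Lap_comp' {Φ Φ' : ℝ → ℝ} {b : ℝ} (hu : ContDiffAt ℝ 2 u z) (hΦ : ContDiffAt ℝ 2 Φ (u z))
    (h1 : ∀ᶠ x in 𝓝 (u z), HasDerivAt Φ (Φ' x) x) (h2 : HasDerivAt Φ' b (u z)) :
    Lap (fun w => Φ (u w)) z = Φ' (u z) * Lap u z + b * Gr2 u z := by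
  have h : deriv Φ =ᶠ[𝓝 (u z)] Φ' := h1.mono fun _ hx => hx.deriv
  rw [Lap_comp hu hΦ, h.deriv_eq, h2.deriv, h.self_of_nhds]

end Pool.Agent.Work.MP_6ac3f6_an.PF
end

-- merged part: Pool.Agent.Work.MP_6ac3f6_an.PF.LapB
section
/-!
# The Laplacian of the basic functions

For A analytic at z the real derivative of A at w near z is multiplication by deriv A w.
|A|^2 = Re (A conj A); pd e (Re B) = Re (B' e) for analytic B. log |A| = (1/2) log |A|^2 with Lap_comp'.
log bt = - log (1 - |z|^2) with nsq for the identity.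
-/

set_option autoImplicit false

namespace Pool.Agent.Work.MP_6ac3f6_an.PF

open Complex Metric Set Filter Topology Real MeasureTheory ComplexConjugate

variable {A f : ℂ → ℂ} {z : ℂ}

lemma LapB_cd (L : ℂ →L[ℝ] ℝ) (hA : AnalyticAt ℂ A z) : ContDiffAt ℝ 2 (fun w => L (A w)) z :=
  L.contDiff.contDiffAt.comp z (hA.contDiffAt.restrict_scalars ℝ)

lemma LapB_pd (L : ℂ →L[ℝ] ℝ) (hA : DifferentiableAt ℂ A z) (v : ℂ) :
    pd v (fun w => L (A w)) z = L (deriv A z * v) := by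
  have h := L.hasFDerivAt.comp z (hA.hasDerivAt.hasFDerivAt.restrictScalars ℝ)
  have e := congrArg (fun M : ℂ →L[ℝ] ℝ => M v) h.fderiv
  refine e.trans ?_
  simp [mul_comm]

lemma LapB_lap (L : ℂ →L[ℝ] ℝ) (hA : AnalyticAt ℂ A z) : Lap (fun w => L (A w)) z = 0 := by
  have h : ∀ v, pd v (pd v fun w => L (A w)) z = L (deriv (deriv A) z * v * v) := fun v => by
    have e : pd v (fun w => L (A w)) =ᶠ[𝓝 z] fun w => L (deriv A w * v) :=
      hA.eventually_analyticAt.mono fun w hw => LapB_pd L hw.differentiableAt v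
    rw [pd_congr e, LapB_pd L (A := fun w => deriv A w * v)
      (hA.deriv.differentiableAt.mul_const v), deriv_mul_const hA.deriv.differentiableAt]
  rw [Lap, h, h, ← map_add, mul_assoc _ I, I_mul_I]
  simp

lemma nsq (hA : AnalyticAt ℂ A z) :
    ContDiffAt ℝ 2 (fun w => ‖A w‖ ^ 2) z ∧
    pd 1 (fun w => ‖A w‖ ^ 2) z = 2 * (deriv A z * conj (A z)).re ∧
    pd I (fun w => ‖A w‖ ^ 2) z = -2 * (deriv A z * conj (A z)).im ∧
    Lap (fun w => ‖A w‖ ^ 2) z = 4 * ‖deriv A z‖ ^ 2 ∧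
    Gr2 (fun w => ‖A w‖ ^ 2) z = 4 * ‖A z‖ ^ 2 * ‖deriv A z‖ ^ 2 := by
  have e : (fun w => ‖A w‖ ^ 2) =
      fun w => reCLM (A w) * reCLM (A w) + imCLM (A w) * imCLM (A w) :=
    funext fun w => by rw [Complex.sq_norm, normSq_apply]; rfl
  have c1 := LapB_cd reCLM hA
  have c2 := LapB_cd imCLM hA
  have d1 := c1.differentiableAt (by simp)
  have d2 := c2.differentiableAt (by simp)
  have hp : ∀ v, pd v (fun w => ‖A w‖ ^ 2) z =
      2 * ((A z).re * (deriv A z * v).re + (A z).im * (deriv A z * v).im) := fun v => by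
    rw [e, pd_add (d1.fun_mul d1) (d2.fun_mul d2), pd_mul d1 d1, pd_mul d2 d2,
      LapB_pd _ hA.differentiableAt, LapB_pd _ hA.differentiableAt]
    simp only [reCLM_apply, imCLM_apply]
    ring
  refine ⟨e ▸ (c1.mul c1).add (c2.mul c2), ?_, ?_, ?_, ?_⟩
  · rw [hp]
    simp
    ring
  · rw [hp]
    simp
    ring
  · rw [e, Lap_add (c1.mul c1) (c2.mul c2), Lap_mul c1 c1, Lap_mul c2 c2, LapB_lap _ hA,
      LapB_lap _ hA, Complex.sq_norm, normSq_apply]
    simp only [LapB_pd _ hA.differentiableAt]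
    simp
    ring
  · rw [Gr2, hp, hp, mul_assoc 4, Complex.sq_norm, Complex.sq_norm, normSq_apply, normSq_apply]
    simp
    ring

lemma lognorm (hA : AnalyticAt ℂ A z) (h0 : A z ≠ 0) :
    ContDiffAt ℝ 2 (fun w => Real.log ‖A w‖) z ∧
    pd 1 (fun w => Real.log ‖A w‖) z = (deriv A z / A z).re ∧
    pd I (fun w => Real.log ‖A w‖) z = -(deriv A z / A z).im ∧
    Lap (fun w => Real.log ‖A w‖) z = 0 := by
  obtain ⟨c, p1, p2, l, g⟩ := nsq hA
  have hN : ‖A z‖ ^ 2 ≠ 0 := pow_ne_zero 2 (norm_ne_zero_iff.2 h0)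
  have e : (fun w => Real.log ‖A w‖) = fun w => (fun x => Real.log x / 2) (‖A w‖ ^ 2) :=
    funext fun w => by simp
  have c' : ContDiffAt ℝ 2 (fun x => Real.log x / 2) (‖A z‖ ^ 2) :=
    (Real.contDiffAt_log.2 hN).div_const 2
  have d := ((Real.hasDerivAt_log hN).div_const 2)
  have hp : ∀ v, pd v (fun w => Real.log ‖A w‖) z =
      (‖A z‖ ^ 2)⁻¹ / 2 * pd v (fun w => ‖A w‖ ^ 2) z := fun v => by
    rw [e, pd_comp (c.differentiableAt (by simp)) d.differentiableAt, d.deriv]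
  have c3 := ContDiffAt.comp (f := fun w => ‖A w‖ ^ 2) z c' c
  refine ⟨by rw [e]; exact c3, ?_, ?_, ?_⟩
  · rw [hp, p1, div_re, Complex.sq_norm]
    simp
    ring
  · rw [hp, p2, div_im, Complex.sq_norm]
    simp
    ring
  · rw [e, Lap_comp' (Φ' := fun x => x⁻¹ / 2) c c'
      ((eventually_ne_nhds hN).mono fun x hx => (Real.hasDerivAt_log hx).div_const 2)
      ((hasDerivAt_inv hN).div_const 2), l, g]
    field_simp
    ring

lemma logbt (hz : z ∈ ball (0 : ℂ) 1) :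
    ContDiffAt ℝ 2 (fun w => Real.log (bt w)) z ∧
    pd 1 (fun w => Real.log (bt w)) z = 2 * bt z * z.re ∧
    pd I (fun w => Real.log (bt w)) z = 2 * bt z * z.im ∧
    Lap (fun w => Real.log (bt w)) z = 4 * bt z ^ 2 := by
  obtain ⟨c, p1, p2, l, g⟩ := nsq (A := fun w => w) (z := z) analyticAt_id
  have hN : ‖z‖ ^ 2 ≠ 1 := by
    have h := mem_ball_zero_iff.1 hz
    have h0 := norm_nonneg z
    nlinarith
  have hN' : 1 - ‖z‖ ^ 2 ≠ 0 := sub_ne_zero.2 hN.symm
  have e : (fun w => Real.log (bt w)) = fun w => (fun x => -Real.log (1 - x)) (‖w‖ ^ 2) :=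
    funext fun w => Real.log_inv _
  have c' : ContDiffAt ℝ 2 (fun x => -Real.log (1 - x)) (‖z‖ ^ 2) :=
    ((contDiffAt_const.sub contDiffAt_id).log hN').neg
  have d : ∀ x : ℝ, x ≠ 1 → HasDerivAt (fun x => -Real.log (1 - x)) (1 - x)⁻¹ x := fun x hx => by
    have h := (((hasDerivAt_id x).const_sub 1).log (sub_ne_zero.2 hx.symm)).neg
    rwa [neg_div, neg_neg, one_div] at h
  have d2 := ((hasDerivAt_id (‖z‖ ^ 2)).const_sub 1).fun_inv hN'
  have hp : ∀ v, pd v (fun w => Real.log (bt w)) z = bt z * pd v (fun w => ‖w‖ ^ 2) z :=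
    fun v => by
      rw [e, pd_comp (c.differentiableAt (by simp)) (d _ hN).differentiableAt, (d _ hN).deriv]
      rfl
  have c3 := ContDiffAt.comp (f := fun w : ℂ => ‖w‖ ^ 2) z c' c
  refine ⟨by rw [e]; exact c3, ?_, ?_, ?_⟩
  · rw [hp, p1]
    simp
    ring
  · rw [hp, p2]
    simp
    ring
  · rw [e, Lap_comp' (Φ' := fun x => (1 - x)⁻¹) c c' ((eventually_ne_nhds hN).mono d) d2, l, g, bt]
    simp only [deriv_id'', norm_one, id]
    field_simp
    ring

lemma kk_lap (hf : Cl f 0 1) (hz : z ∈ ball (0 : ℂ) 1) :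
    ContDiffAt ℝ 2 (kk f) z ∧ Lap (kk f) z = 4 * bt z ^ 2 ∧
    Gr2 (kk f) z ≤ (‖deriv f z‖ / ‖f z‖ + 2 * bt z) ^ 2 := by
  obtain ⟨c1, a1, b1, l1⟩ := lognorm (hf.an z hz) (hf.2.1 z hz)
  obtain ⟨c2, a2, b2, l2⟩ := logbt hz
  have e : kk f =ᶠ[𝓝 z] fun w => Real.log ‖f w‖ + Real.log (bt w) := by
    filter_upwards [isOpen_ball.mem_nhds hz] with w hw
    exact Real.log_mul (norm_ne_zero_iff.2 (hf.2.1 w hw)) (bt_pos hw).ne'
  have d1 := c1.differentiableAt (by simp)
  have d2 := c2.differentiableAt (by simp)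
  refine ⟨(c1.add c2).congr_of_eventuallyEq e, by rw [Lap_congr e, Lap_add c1 c2, l1, l2, zero_add],
    ?_⟩
  have h1 : Gr2 (kk f) z = ‖conj (deriv f z / f z) + (2 * bt z : ℝ) * z‖ ^ 2 := by
    rw [Gr2_congr e, Gr2, pd_add d1 d2, pd_add d1 d2, a1, a2, b1, b2, Complex.sq_norm,
      normSq_apply]
    simp only [add_re, add_im, conj_re, conj_im, re_ofReal_mul, im_ofReal_mul]
    ring
  rw [h1]
  refine pow_le_pow_left₀ (norm_nonneg _) ((norm_add_le _ _).trans ?_) 2
  have h2 := bt_pos hz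
  have h3 := mem_ball_zero_iff.1 hz
  rw [Complex.norm_conj, norm_div, norm_mul, Complex.norm_real,
    Real.norm_of_nonneg (by positivity)]
  linarith only [h2, h3, mul_pos_of_neg_of_neg (Mathlib.Tactic.Linarith.sub_neg_of_lt h2) (Mathlib.Tactic.Linarith.sub_neg_of_lt h3)]

end Pool.Agent.Work.MP_6ac3f6_an.PF
end

-- merged part: Pool.Agent.Work.MP_6ac3f6_an.PF.LapC
section
/-!
# Sums of logarithmically subharmonic terms

add: with P = u z, Q = Lap u z - a and so on, |grad u + grad v|^2 ≤ (P + P')(Q + Q') follows from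
2 grad u . grad v ≤ 2 sqrt (P Q P' Q') ≤ P Q' + P' Q.
mul_exp: Lap (u e^n) = e^n (Lap u + 2 grad u . grad n + u (Lap n + |grad n|^2)) and
|grad (u e^n)|^2 = e^(2n) |grad u + u grad n|^2; the form Q + 2 grad u . grad n + u |grad n|^2 is
nonnegative since |grad u|^2 ≤ u Q (treat u z = 0 separately: then grad u = 0).
log: Lap (log u) = Lap u / u - Gr2 u / u^2.
-/

set_option autoImplicit false

namespace Pool.Agent.Work.MP_6ac3f6_an.PF

open Complex Metric Set Filter Topology Real MeasureTheory ComplexConjugate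

variable {u v ν : ℂ → ℝ} {A : ℂ → ℂ} {z : ℂ} {a b : ℝ}

lemma LapC_cs {x y x' y' P Q P' Q' : ℝ} (hP : 0 ≤ P) (hQ : 0 ≤ Q) (hP' : 0 ≤ P') (hQ' : 0 ≤ Q')
    (h : x ^ 2 + y ^ 2 ≤ P * Q) (h' : x' ^ 2 + y' ^ 2 ≤ P' * Q') :
    2 * (x * x' + y * y') ≤ P * Q' + P' * Q := by
  refine (abs_le_of_sq_le_sq' ?_ (by positivity)).2
  have h1 := mul_le_mul h h' (by positivity) (by positivity)
  linarith only [h1, sq_nonneg (x * y' - y * x'), sq_nonneg (P * Q' - P' * Q)]

lemma LSub.add (hu : LSub u z a) (hv : LSub v z b) : LSub (fun w => u w + v w) z (a + b) := by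
  obtain ⟨h1, h2, h3, h4⟩ := hu
  obtain ⟨k1, k2, k3, k4⟩ := hv
  have d1 := (LapA_ev h1).self_of_nhds
  have d2 := (LapA_ev k1).self_of_nhds
  refine ⟨h1.add k1, add_nonneg h2 k2, ?_, ?_⟩
  · rw [Lap_add h1 k1]
    exact add_le_add h3 k3
  · rw [Lap_add h1 k1, Gr2, pd_add d1 d2, pd_add d1 d2]
    have := LapC_cs h2 (sub_nonneg.2 h3) k2 (sub_nonneg.2 k3) h4 k4
    rw [Gr2] at h4 k4
    linarith only [h4, k4, this]

lemma LSub.nsq (hA : AnalyticAt ℂ A z) : LSub (fun w => ‖A w‖ ^ 2) z 0 := by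
  obtain ⟨h1, -, -, h2, h3⟩ := PF.nsq hA
  refine ⟨h1, by positivity, ?_, ?_⟩
  · rw [h2]
    positivity
  · rw [h2, h3]
    exact le_of_eq (by ring)

lemma LSub.mul_exp (hu : LSub u z a) (hν : ContDiffAt ℝ 2 ν z) :
    LSub (fun w => u w * Real.exp (ν w)) z (Real.exp (ν z) * (a + u z * Lap ν z)) := by
  obtain ⟨h1, h2, h3, h4⟩ := hu
  have d1 := (LapA_ev h1).self_of_nhds
  have d2 := (LapA_ev hν).self_of_nhds
  have k1 : ContDiffAt ℝ 2 (fun w => Real.exp (ν w)) z := hν.exp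
  have k2 : ∀ e, pd e (fun w => Real.exp (ν w)) z = Real.exp (ν z) * pd e ν z := fun e => by
    rw [pd_comp d2 Real.differentiableAt_exp, Real.deriv_exp]
  have k3 : Lap (fun w => Real.exp (ν w)) z =
      Real.exp (ν z) * Lap ν z + Real.exp (ν z) * Gr2 ν z := by
    rw [Lap_comp hν Real.contDiff_exp.contDiffAt, Real.deriv_exp, Real.deriv_exp]
  have hE := Real.exp_pos (ν z)
  have k4 : Lap (fun w => u w * Real.exp (ν w)) z - Real.exp (ν z) * (a + u z * Lap ν z) =
      Real.exp (ν z) * (u z * Gr2 ν z + (Lap u z - a) +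
        2 * (pd 1 u z * pd 1 ν z + pd I u z * pd I ν z)) := by
    rw [Lap_mul h1 k1, k2, k2, k3]
    ring
  have k5 := LapC_cs (x' := -pd 1 ν z) (y' := -pd I ν z) (Q' := Gr2 ν z) h2 (sub_nonneg.2 h3)
    zero_le_one (by rw [Gr2]; positivity) h4 (by rw [Gr2, neg_sq, neg_sq, one_mul])
  refine ⟨h1.mul k1, mul_nonneg h2 hE.le, ?_, ?_⟩
  · rw [← sub_nonneg, k4]
    exact mul_nonneg hE.le (by linarith only [k5])
  · rw [k4, Gr2, pd_mul d1 d2.exp, pd_mul d1 d2.exp, k2, k2]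
    have := mul_le_mul_of_nonneg_left h4 (sq_nonneg (Real.exp (ν z)))
    rw [Gr2] at this ⊢
    linarith only [this]

lemma LSub.congr (hu : LSub u z a) (h : u =ᶠ[𝓝 z] v) : LSub v z a := by
  obtain ⟨h1, h2, h3, h4⟩ := hu
  rw [LSub, ← Lap_congr h, ← Gr2_congr h, ← h.self_of_nhds]
  exact ⟨h1.congr_of_eventuallyEq h.symm, h2, h3, h4⟩

lemma LSub.log (hu : LSub u z a) (h0 : 0 < u z) :
    ContDiffAt ℝ 2 (fun w => Real.log (u w)) z ∧ a / u z ≤ Lap (fun w => Real.log (u w)) z := by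
  obtain ⟨h1, -, -, h4⟩ := hu
  refine ⟨h1.log h0.ne', ?_⟩
  rw [Lap_comp' (Φ' := fun x => x⁻¹) h1 (Real.contDiffAt_log.2 h0.ne')
    ((eventually_ne_nhds h0.ne').mono fun x hx => Real.hasDerivAt_log hx) (hasDerivAt_inv h0.ne')]
  have h5 := mul_le_mul_of_nonneg_left h4 (inv_pos.2 (pow_pos h0 2)).le
  have e : (u z ^ 2)⁻¹ * (u z * (Lap u z - a)) = (u z)⁻¹ * Lap u z - a / u z := by
    field_simp
  linarith only [h5, e]

end Pool.Agent.Work.MP_6ac3f6_an.PF
end

-- merged part: Pool.Agent.Work.MP_6ac3f6_an.PF.GreA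
section
/-!
# Derivatives of circle averages

avg_deriv: differentiate under the integral sign (hasDerivAt_integral_of_dominated_loc_of_deriv_le;
the derivative of s ↦ V (circleMap 0 s x) is fderiv V z z / s at z = circleMap 0 s x; it is continuous,
hence bounded, on a compact annulus inside the disc).
avg_cont: continuity of a parametric interval integral.
avg_ang: x ↦ V (circleMap 0 r x) has derivative fderiv V z (I z) and period 2 pi.
-/

set_option autoImplicit false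

namespace Pool.Agent.Work.MP_6ac3f6_an.PF

open Complex Metric Set Filter Topology Real MeasureTheory ComplexConjugate

variable {V : ℂ → ℝ} {r : ℝ}

lemma avg_cont (hV : ContinuousOn V (ball 0 1)) :
    ContinuousOn (fun ρ => circleAverage V 0 ρ) (Ioo 0 1) := by
  exact Real.ContinuousOn.circleAverage (hV.mono fun z hz => by simpa using hz.2)
    fun _ h => h.1.le

lemma GreA_mem (h0 : 0 < r) (h1 : r < 1) (x : ℝ) : circleMap 0 r x ∈ ball (0 : ℂ) 1 := by
  rwa [mem_ball_zero_iff, norm_circleMap_zero, abs_of_pos h0]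

lemma GreA_cont (hV : ∀ z ∈ ball (0 : ℂ) 1, ContDiffAt ℝ 1 V z) :
    ContinuousOn (fderiv ℝ V) (ball 0 1) :=
  ContDiffOn.continuousOn_fderiv_of_isOpen (fun z hz => (hV z hz).contDiffWithinAt) isOpen_ball
    le_rfl

lemma GreA_cont2 (hV : ∀ z ∈ ball (0 : ℂ) 1, ContDiffAt ℝ 1 V z) (h0 : 0 < r) (h1 : r < 1)
    {w : ℝ → ℂ} (hw : Continuous w) : Continuous fun x => fderiv ℝ V (circleMap 0 r x) (w x) :=
  ((GreA_cont hV).comp_continuous (continuous_circleMap 0 r) (GreA_mem h0 h1)).clm_apply hw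

lemma avg_deriv (hV : ∀ z ∈ ball (0 : ℂ) 1, ContDiffAt ℝ 1 V z) (h0 : 0 < r) (h1 : r < 1) :
    HasDerivAt (fun ρ => circleAverage V 0 ρ)
      (circleAverage (fun z => fderiv ℝ V z z) 0 r / r) r := by
  have hc : ∀ s, 0 < s → s < 1 → Continuous fun x => V (circleMap 0 s x) := fun s k0 k1 =>
    ContinuousOn.comp_continuous (s := ball 0 1)
      (fun z hz => (hV z hz).continuousAt.continuousWithinAt) (continuous_circleMap 0 s)
      (GreA_mem k0 k1)
  obtain ⟨M, hM⟩ := (isCompact_closedBall (0 : ℂ) ((1 + r) / 2)).exists_bound_of_continuousOn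
    ((GreA_cont hV).mono (closedBall_subset_ball (by linarith only [h1])))
  have hs : Ioo 0 ((1 + r) / 2) ∈ 𝓝 r := Ioo_mem_nhds h0 (by linarith only [h1])
  have e : ∀ s x : ℝ, circleMap 0 s x = s • circleMap 0 1 x := fun s x => by simp [circleMap]
  have key := (intervalIntegral.hasDerivAt_integral_of_dominated_loc_of_deriv_le (μ := volume)
    (a := 0) (b := 2 * π) (F := fun s x => V (circleMap 0 s x))
    (F' := fun s x => fderiv ℝ V (circleMap 0 s x) (circleMap 0 1 x)) (bound := fun _ => M) hs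
    (mem_of_superset hs fun s k => (hc s k.1 (by linarith only [h1, k, k.2])).aestronglyMeasurable)
    ((hc r h0 h1).intervalIntegrable _ _)
    (GreA_cont2 hV h0 h1 (continuous_circleMap 0 1)).aestronglyMeasurable
    (ae_of_all _ fun x _ s k => ?_) intervalIntegrable_const (ae_of_all _ fun x _ s k => ?_)).2
  · have e2 : circleAverage (fun z => fderiv ℝ V z z) 0 r / r = (2 * π)⁻¹ •
        ∫ x in (0 : ℝ)..2 * π, fderiv ℝ V (circleMap 0 r x) (circleMap 0 1 x) := by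
      rw [div_eq_iff h0.ne', circleAverage_def, smul_eq_mul, smul_eq_mul, mul_assoc,
        ← intervalIntegral.integral_mul_const]
      refine congrArg _ (intervalIntegral.integral_congr fun x _ => ?_)
      rw [mul_comm, ← smul_eq_mul, ← map_smul, ← e]
    rw [e2]
    exact key.const_smul (2 * π)⁻¹
  · refine ((fderiv ℝ V _).le_opNorm _).trans ?_
    rw [norm_circleMap_zero, abs_one, mul_one]
    refine hM _ ?_
    rw [mem_closedBall_zero_iff, norm_circleMap_zero, abs_of_pos k.1]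
    exact k.2.le
  · have h2 : HasDerivAt (fun s : ℝ => circleMap 0 s x) (circleMap 0 1 x) s := by
      simpa only [← e, one_smul, id] using (hasDerivAt_id s).smul_const (circleMap 0 1 x)
    exact ((hV _ (GreA_mem k.1 (by linarith only [h1, k, k.2]) x)).differentiableAt
      one_ne_zero).hasFDerivAt.comp_hasDerivAt s h2

lemma avg_ang (hV : ∀ z ∈ ball (0 : ℂ) 1, ContDiffAt ℝ 1 V z) (h0 : 0 < r) (h1 : r < 1) :
    circleAverage (fun z => fderiv ℝ V z (I * z)) 0 r = 0 := by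
  rw [circleAverage_def, intervalIntegral.integral_eq_sub_of_hasDerivAt
    (f := fun x => V (circleMap 0 r x)) (fun x _ => ?_)
    ((GreA_cont2 hV h0 h1 (w := fun x => I * circleMap 0 r x)
      (continuous_const.mul (continuous_circleMap 0 r))).intervalIntegrable _ _)]
  · have := periodic_circleMap 0 r 0
    rw [zero_add] at this
    rw [this, sub_self, smul_zero]
  · rw [mul_comm]
    exact ((hV _ (GreA_mem h0 h1 x)).differentiableAt one_ne_zero).hasFDerivAt.comp_hasDerivAt x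
      (hasDerivAt_circleMap 0 r x)

end Pool.Agent.Work.MP_6ac3f6_an.PF
end

-- merged part: Pool.Agent.Work.MP_6ac3f6_an.PF.GreB
section
/-!
# The formula of Green for circle averages

V z = fderiv W z z, T z = fderiv W z (I z), both C^1. With B = fderiv (fderiv W) z (bilinear):
fderiv V z z = B z z + fderiv W z z, fderiv T z (I z) = B (I z) (I z) - fderiv W z z, and
B z z + B (I z) (I z) = |z|^2 (B 1 1 + B I I) = |z|^2 Lap W z (expand z = x + y I). So by avg_ang for T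
the average of fderiv V z z over |z| = s is s^2 times the average of Lap W. Put A s, Bv s for the
averages of W and V: A' = Bv / s, Bv' = s avg (Lap W). The function s ↦ A s + Bv s log (r / s) has
derivative s log (r / s) avg (Lap W); apply the fundamental theorem on [a, r].
-/

set_option autoImplicit false

namespace Pool.Agent.Work.MP_6ac3f6_an.PF

open Complex Metric Set Filter Topology Real MeasureTheory ComplexConjugate

lemma GreB_fd {W : ℂ → ℝ} {z : ℂ} (h : ContDiffAt ℝ 2 W z) : ContDiffAt ℝ 1 (fderiv ℝ W) z :=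
  h.fderiv_right (by norm_num)

lemma GreB_app {W : ℂ → ℝ} {z : ℂ} (h : ContDiffAt ℝ 2 W z) {g : ℂ → ℂ} {g' : ℂ →L[ℝ] ℂ}
    (hg : HasFDerivAt g g' z) (v : ℂ) : fderiv ℝ (fun w => fderiv ℝ W w (g w)) z v =
      fderiv ℝ W z (g' v) + fderiv ℝ (fderiv ℝ W) z v (g z) := by
  rw [(((GreB_fd h).differentiableAt one_ne_zero).hasFDerivAt.clm_apply hg).fderiv]
  rfl

lemma GreB_key {W : ℂ → ℝ} {z : ℂ} (h : ContDiffAt ℝ 2 W z) :
    fderiv ℝ (fun w => fderiv ℝ W w w) z z = ‖z‖ ^ 2 * Lap W z -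
      fderiv ℝ (fun w => fderiv ℝ W w (I * w)) z (I * z) := by
  have h1 := GreB_app h (hasFDerivAt_id z) z
  have h2 := GreB_app h ((hasFDerivAt_id z).const_mul I) (I * z)
  have h3 : ∀ e, pd e (pd e W) z = fderiv ℝ (fderiv ℝ W) z e e := fun e => by
    have := GreB_app h (hasFDerivAt_const e z) e
    rwa [ContinuousLinearMap.zero_apply, map_zero, zero_add] at this
  simp only [id, ContinuousLinearMap.smul_apply, ContinuousLinearMap.id_apply, smul_eq_mul] at h1 h2
  rw [h1, h2, Lap, h3, h3, ← mul_assoc, I_mul_I, neg_one_mul, map_neg, Complex.sq_norm,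
    normSq_apply]
  generalize fderiv ℝ (fderiv ℝ W) z = B
  have e1 : z = z.re • (1 : ℂ) + z.im • I := by simp
  have e2 : I * z = (-z.im) • (1 : ℂ) + z.re • I := by
    apply Complex.ext <;> simp
  have e3 : B z z = B (z.re • (1 : ℂ) + z.im • I) (z.re • (1 : ℂ) + z.im • I) := by rw [← e1]
  rw [e3, e2]
  simp only [map_add, map_smul, ContinuousLinearMap.add_apply, ContinuousLinearMap.smul_apply,
    smul_eq_mul]
  ring

lemma GreB_avg {W : ℂ → ℝ} (hW : ∀ z ∈ ball (0 : ℂ) 1, ContDiffAt ℝ 2 W z) {s : ℝ} (h0 : 0 < s)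
    (h1 : s < 1) : circleAverage (fun z => fderiv ℝ (fun w => fderiv ℝ W w w) z z) 0 s =
      s ^ 2 * circleAverage (Lap W) 0 s := by
  have hT : ∀ z ∈ ball (0 : ℂ) 1, ContDiffAt ℝ 1 (fun w => fderiv ℝ W w (I * w)) z :=
    fun z hz => (GreB_fd (hW z hz)).clm_apply (contDiffAt_const.mul contDiffAt_id)
  have hs : sphere (0 : ℂ) s ⊆ ball 0 1 := sphere_subset_ball h1
  have i1 : CircleIntegrable (fun z => s ^ 2 • Lap W z) 0 s :=
    ContinuousOn.circleIntegrable h0.le fun z hz =>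
      ((continuousAt_Lap (hW z (hs hz))).const_smul (s ^ 2)).continuousWithinAt
  have i2 : CircleIntegrable
      (fun z => fderiv ℝ (fun w => fderiv ℝ W w (I * w)) z (I * z)) 0 s :=
    ContinuousOn.circleIntegrable h0.le fun z hz =>
      (((hT z (hs hz)).fderiv_right (m := 0) (by norm_num)).continuousAt.clm_apply
        (continuousAt_const.mul continuousAt_id)).continuousWithinAt
  rw [circleAverage_congr_sphere (f₂ := fun z => s ^ 2 • Lap W z -
      fderiv ℝ (fun w => fderiv ℝ W w (I * w)) z (I * z)) fun z hz => ?_,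
    circleAverage_fun_sub i1 i2, avg_ang hT h0 h1, sub_zero, circleAverage_fun_smul, smul_eq_mul]
  rw [abs_of_pos h0] at hz
  have := GreB_key (hW z (hs hz))
  rwa [mem_sphere_zero_iff_norm.1 hz] at this

lemma green_polar {W : ℂ → ℝ} (hW : ∀ z ∈ ball (0 : ℂ) 1, ContDiffAt ℝ 2 W z) {a r : ℝ}
    (ha : 0 < a) (har : a ≤ r) (hr : r < 1) :
    circleAverage W 0 r - circleAverage W 0 a =
      circleAverage (fun z => fderiv ℝ W z z) 0 a * Real.log (r / a) +
        ∫ ρ in a..r, ρ * Real.log (r / ρ) * circleAverage (Lap W) 0 ρ := by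
  have hV : ∀ z ∈ ball (0 : ℂ) 1, ContDiffAt ℝ 1 (fun w => fderiv ℝ W w w) z :=
    fun z hz => (GreB_fd (hW z hz)).clm_apply contDiffAt_id
  have hr0 := ha.trans_le har
  have hI : uIcc a r ⊆ Ioo 0 1 := by
    rw [uIcc_of_le har]
    exact fun s hs => ⟨ha.trans_le hs.1, hs.2.trans_lt hr⟩
  have h1 := intervalIntegral.integral_eq_sub_of_hasDerivAt (a := a) (b := r)
    (f := fun s => circleAverage W 0 s +
      circleAverage (fun z => fderiv ℝ W z z) 0 s * Real.log (r / s))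
    (f' := fun ρ => ρ * Real.log (r / ρ) * circleAverage (Lap W) 0 ρ) (fun s hs => by
      obtain ⟨s0, s1⟩ := hI hs
      have d1 := avg_deriv (fun z hz => (hW z hz).of_le one_le_two) s0 s1
      have d2 := avg_deriv hV s0 s1
      have d3 := ((hasDerivAt_const s r).fun_div (hasDerivAt_id' s) s0.ne').log
        (div_pos hr0 s0).ne'
      rw [GreB_avg hW s0 s1] at d2
      refine (d1.fun_add (d2.fun_mul d3)).congr_deriv ?_
      field_simp
      ring)
    (ContinuousOn.intervalIntegrable ((continuousOn_id.mul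
      ((continuousOn_const.div continuousOn_id fun s hs => (hI hs).1.ne').log
        fun s hs => (div_pos hr0 (hI hs).1).ne')).mul
      ((avg_cont fun z hz => (continuousAt_Lap (hW z hz)).continuousWithinAt).mono hI)))
  rw [h1, div_self hr0.ne', Real.log_one]
  ring

end Pool.Agent.Work.MP_6ac3f6_an.PF
end

-- merged part: Pool.Agent.Work.MP_6ac3f6_an.PF.LapF
section
/-!
# The Laplacian of the majorant of the negative part

Ph = Phi (kk), Phi x = 4 log (1 + exp (-x/4)), Phi' = -s, s = exp (-x/4) / (1 + exp (-x/4)),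
Phi'' = s (1 - s) / 4 ≤ exp (-|x|/4) / 4. By kk_lap, with h = |f'|/|f|:
if h ≤ 2 bt then Lap ≤ -4 s bt^2 + s (1-s) 16 bt^2 / 4 ≤ 0; otherwise Gr2 ≤ 4 h^2 ≤ 4 C^2 (1+|k|)^2 bt^2
and Lap ≤ C^2 (1+|k|)^2 exp (-|k|/4) bt^2. Use exp (x/4) ≥ (1 + x/8)^2 (C1 = 64 C^2) and
exp (x/4) ≥ (1 + x/12)^3 (k1 = 1728 C^2).
-/

set_option autoImplicit false

namespace Pool.Agent.Work.MP_6ac3f6_an.PF

open Complex Metric Set Filter Topology Real MeasureTheory ComplexConjugate

lemma km_le_Ph (f : ℂ → ℂ) (z : ℂ) : km f z ≤ Ph f z := by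
  unfold km Ph
  have h0 := Real.exp_pos (-kk f z / 4)
  refine max_le ?_ (mul_nonneg (by norm_num) (Real.log_nonneg (by linarith only [h0])))
  have h1 := Real.log_le_log h0 (by linarith only [] : Real.exp (-kk f z / 4) ≤ 1 + Real.exp (-kk f z / 4))
  rw [Real.log_exp] at h1
  linarith only [h1]

lemma LapF_e (x : ℝ) :
    HasDerivAt (fun x : ℝ => 1 + Real.exp (-x / 4)) (Real.exp (-x / 4) * (-1 / 4)) x :=
  (((hasDerivAt_neg x).div_const 4).exp).const_add 1

lemma LapF_d1 (x : ℝ) : HasDerivAt (fun x : ℝ => 4 * Real.log (1 + Real.exp (-x / 4)))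
    ((1 + Real.exp (-x / 4))⁻¹ - 1) x := by
  have h0 : 0 < 1 + Real.exp (-x / 4) := by positivity
  have h := ((LapF_e x).log h0.ne').const_mul 4
  have e : 4 * (Real.exp (-x / 4) * (-1 / 4) / (1 + Real.exp (-x / 4))) =
      (1 + Real.exp (-x / 4))⁻¹ - 1 := by
    field_simp
    ring
  rw [e] at h
  exact h

lemma LapF_d2 (x : ℝ) : HasDerivAt (fun x : ℝ => (1 + Real.exp (-x / 4))⁻¹ - 1)
    (Real.exp (-x / 4) / (4 * (1 + Real.exp (-x / 4)) ^ 2)) x := by
  have h0 : 0 < 1 + Real.exp (-x / 4) := by positivity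
  have h := ((LapF_e x).fun_inv h0.ne').sub_const 1
  have e : -(Real.exp (-x / 4) * (-1 / 4)) / (1 + Real.exp (-x / 4)) ^ 2 =
      Real.exp (-x / 4) / (4 * (1 + Real.exp (-x / 4)) ^ 2) := by
    field_simp
  rw [e] at h
  exact h

lemma LapF_b (x : ℝ) :
    Real.exp (-x / 4) / (4 * (1 + Real.exp (-x / 4)) ^ 2) * Real.exp (|x| / 4) ≤ 1 / 4 := by
  have h0 := Real.exp_pos (-x / 4)
  rw [div_mul_eq_mul_div, div_le_div_iff₀ (by positivity) (by norm_num)]
  rcases le_total 0 x with h | h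
  · rw [abs_of_nonneg h, ← Real.exp_add, show -x / 4 + x / 4 = 0 by ring, Real.exp_zero]
    linarith only [h0, mul_pos_of_neg_of_neg (Mathlib.Tactic.Linarith.sub_neg_of_lt h0) (Mathlib.Tactic.Linarith.sub_neg_of_lt h0)]
  · rw [abs_of_nonpos h]
    linarith only [h0]

lemma LapF_pow {x : ℝ} (hx : 0 ≤ x) :
    (1 + x) ^ 2 ≤ 64 * Real.exp (x / 4) ∧ (1 + x) ^ 3 ≤ 1728 * Real.exp (x / 4) := by
  have h1 : (1 + x) / 8 ≤ Real.exp (x / 8) := by linarith only [Real.add_one_le_exp (x / 8)]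
  have h2 : (1 + x) / 12 ≤ Real.exp (x / 12) := by linarith only [Real.add_one_le_exp (x / 12)]
  have h3 := pow_le_pow_left₀ (by positivity) h1 2
  have h4 := pow_le_pow_left₀ (by positivity) h2 3
  rw [← Real.exp_nat_mul] at h3 h4
  have e1 : ((2 : ℕ) : ℝ) * (x / 8) = x / 4 := by push_cast; ring
  have e2 : ((3 : ℕ) : ℝ) * (x / 12) = x / 4 := by push_cast; ring
  rw [e1] at h3
  rw [e2] at h4
  constructor <;> linarith only [h3, h4]

lemma Ph_lap {C : ℝ} (hC : 1 ≤ C) : ∃ k1 C1 : ℝ, 0 ≤ k1 ∧ 0 ≤ C1 ∧ ∀ f : ℂ → ℂ, Mir C f →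
    ∀ z ∈ ball (0 : ℂ) 1, ContDiffAt ℝ 2 (Ph f) z ∧ Lap (Ph f) z ≤ C1 * bt z ^ 2 ∧
      (z ∉ SA k1 f → Lap (Ph f) z ≤ bt z ^ 2) := by
  refine ⟨1728 * C ^ 2, 64 * C ^ 2, by positivity, by positivity, fun f hf z hz => ?_⟩
  obtain ⟨k1, k2, k3⟩ := kk_lap hf.1 hz
  have hΦ : ContDiffAt ℝ 2 (fun x : ℝ => 4 * Real.log (1 + Real.exp (-x / 4))) (kk f z) :=
    contDiffAt_const.mul
      ((contDiffAt_const.add (contDiffAt_id.neg.div_const 4).exp).log (by positivity))
  have hL := Lap_comp' k1 hΦ (Eventually.of_forall LapF_d1) (LapF_d2 (kk f z))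
  change Lap (Ph f) z = _ at hL
  have hb := LapF_b (kk f z)
  obtain ⟨p2, p3⟩ := LapF_pow (abs_nonneg (kk f z))
  have b0 := bt_pos hz
  have f0 : 0 < ‖f z‖ := norm_pos_iff.2 (hf.1.2.1 z hz)
  have hm : ‖deriv f z‖ / ‖f z‖ ≤ C * bt z * (1 + |kk f z|) := by
    rw [div_le_iff₀ f0]
    linarith only [hf, hz, hf.2 z hz]
  have hE := Real.exp_pos (-kk f z / 4)
  have hX := Real.exp_pos (|kk f z| / 4)
  have hx0 := abs_nonneg (kk f z)
  rw [k2] at hL
  have hs : (1 + Real.exp (-kk f z / 4))⁻¹ - 1 ≤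
      -(4 * (Real.exp (-kk f z / 4) / (4 * (1 + Real.exp (-kk f z / 4)) ^ 2))) := by
    have e : (1 + Real.exp (-kk f z / 4))⁻¹ - 1 =
        -(4 * (Real.exp (-kk f z / 4) / (4 * (1 + Real.exp (-kk f z / 4)) ^ 2))) -
          Real.exp (-kk f z / 4) ^ 2 / (1 + Real.exp (-kk f z / 4)) ^ 2 := by
      field_simp
      ring
    rw [e]
    exact sub_le_self _ (by positivity)
  obtain ⟨b, hbd⟩ : ∃ b, b = Real.exp (-kk f z / 4) / (4 * (1 + Real.exp (-kk f z / 4)) ^ 2) :=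
    ⟨_, rfl⟩
  have hb0 : 0 ≤ b := by rw [hbd]; positivity
  rw [← hbd] at hL hb hs
  have hbt : 0 < bt z ^ 2 := by positivity
  have hs' := mul_le_mul_of_nonneg_right hs (by positivity : 0 ≤ 4 * bt z ^ 2)
  have c1 : ‖deriv f z‖ / ‖f z‖ ≤ 2 * bt z → Lap (Ph f) z ≤ 0 := by
    intro h
    have h1 : Gr2 (kk f) z ≤ (4 * bt z) ^ 2 :=
      k3.trans (pow_le_pow_left₀ (by positivity) (by linarith only [h]) 2)
    have h2 := mul_le_mul_of_nonneg_left h1 hb0
    rw [hL]
    linarith only [h2, hs']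
  have c2 : 2 * bt z ≤ ‖deriv f z‖ / ‖f z‖ →
      Lap (Ph f) z ≤ bt z ^ 2 * (C ^ 2 * (4 * b * (1 + |kk f z|) ^ 2)) := by
    intro h
    have h1 : Gr2 (kk f) z ≤ (2 * (C * bt z * (1 + |kk f z|))) ^ 2 :=
      k3.trans (pow_le_pow_left₀ (by positivity) (by linarith only [hm, h]) 2)
    have h2 := mul_le_mul_of_nonneg_left h1 hb0
    have h3 := mul_nonneg hb0 hbt.le
    rw [hL]
    linarith only [h2, h3, hs']
  have c3 : 4 * b * (1 + |kk f z|) ^ 2 ≤ 64 := by
    have := mul_le_mul_of_nonneg_left p2 hb0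
    linarith only [this, hb]
  have c4 : 4 * b * (1 + |kk f z|) ^ 2 * (1 + |kk f z|) ≤ 1728 := by
    have := mul_le_mul_of_nonneg_left p3 hb0
    linarith only [this, hb]
  refine ⟨hΦ.comp z k1, ?_, fun hn => ?_⟩
  · rcases le_total (‖deriv f z‖ / ‖f z‖) (2 * bt z) with h | h
    · exact (c1 h).trans (by positivity)
    · refine (c2 h).trans ?_
      calc bt z ^ 2 * (C ^ 2 * (4 * b * (1 + |kk f z|) ^ 2)) ≤ bt z ^ 2 * (C ^ 2 * 64) := by gcongr
        _ = _ := by ring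
  · rcases le_total (‖deriv f z‖ / ‖f z‖) (2 * bt z) with h | h
    · exact (c1 h).trans hbt.le
    · have h1 : 1728 * C ^ 2 < |kk f z| := by
        by_contra h2
        exact hn ⟨hz, not_lt.1 h2, (le_div_iff₀ f0).1 h⟩
      refine (c2 h).trans (mul_le_of_le_one_right hbt.le ?_)
      have h2 : 0 ≤ 4 * b * (1 + |kk f z|) ^ 2 := by positivity
      have h3 := mul_le_mul_of_nonneg_left (by linarith only [h1] : 1728 * C ^ 2 ≤ 1 + |kk f z|) h2
      linarith only [h3, c4]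

end Pool.Agent.Work.MP_6ac3f6_an.PF
end

-- merged part: Pool.Agent.Work.MP_6ac3f6_an.PF.Lift
section
/-!
# Lifting a segment

t1 = 1 - |z1|, S = segment (F z1) w, psi v = |v - w| + N infDist v S with N = l / eta,
E z = log ((t1 + |z - z1|)^2 / (t1 (1 - |z|))) ≥ 0, E z1 = 0, lam = m / 24, R = exp (l / lam + 1).
The set K of z in the disc with (t1 + |z - z1|)^2 ≤ R t1 (1 - |z|) is compact, contains z1 and lies in
near R z1. Minimise psi (F z) + lam E z on K, at z0. The value is ≤ psi (F z1) ≤ l, so E z0 ≤ l / lam < log R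
(z0 is an interior point of K) and infDist (F z0) S ≤ eta. Suppose F z0 ≠ w and |F' z0| ≥ m bt z0.
Put v = (w - F z0) / F' z0, d = |w - F z0|. Then F (z0 + s v) = F z0 + s (w - F z0) + o(s),
psi (w + (1-s)(x - w)) ≤ (1-s) psi x (homothety keeps S), psi is (1+N)-Lipschitz, psi (F z0) ≥ d, and
E (z0 + s v) ≤ E z0 + 2 s |v| / t + (s |v| / (t - s |v|)) with t = 1 - |z0| ≤ t1 + |z0 - z1|,
|v| / t ≤ 2 d / m. So the sum decreases like s d (1 - 1/3) for small s > 0, a contradiction.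
-/

set_option autoImplicit false

namespace Pool.Agent.Work.MP_6ac3f6_an.PF

open Complex Metric Set Filter Topology Real MeasureTheory ComplexConjugate

lemma Lift_hom {a w x : ℂ} {s : ℝ} (hs0 : 0 ≤ s) (hs1 : s ≤ 1) :
    infDist (x + s • (w - x)) (segment ℝ a w) ≤ (1 - s) * infDist x (segment ℝ a w) := by
  have hc : IsCompact (segment ℝ a w) := by
    rw [segment_eq_image]
    exact isCompact_Icc.image (by fun_prop)
  obtain ⟨y, hy, e⟩ := hc.exists_infDist_eq_dist ⟨a, left_mem_segment _ _ _⟩ x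
  have hy' : y + s • (w - y) ∈ segment ℝ a w :=
    (convex_segment a w).add_smul_sub_mem hy (right_mem_segment _ _ _) ⟨hs0, hs1⟩
  refine (infDist_le_dist_of_mem hy').trans (le_of_eq ?_)
  rw [e, dist_eq_norm, dist_eq_norm]
  have : x + s • (w - x) - (y + s • (w - y)) = (1 - s) • (x - y) := by
    simp only [real_smul]
    push_cast
    ring
  rw [this, norm_smul, Real.norm_of_nonneg (by linarith only [hs1])]

lemma Lift_log {a b x : ℝ} (ha : 0 < a) (hb : 0 < b) (h : b ≤ a + x) :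
    Real.log b ≤ Real.log a + x / a := by
  have h1 := Real.log_le_sub_one_of_pos (div_pos hb ha)
  rw [Real.log_div hb.ne' ha.ne'] at h1
  have h2 : b / a ≤ (a + x) / a := div_le_div_of_nonneg_right h ha.le
  rw [add_div, div_self ha.ne'] at h2
  linarith only [h1, h2]

/-- the penalty -/
noncomputable def Lift_E (z1 z : ℂ) : ℝ :=
  2 * Real.log (1 - ‖z1‖ + ‖z - z1‖) - Real.log (1 - ‖z1‖) - Real.log (1 - ‖z‖)

lemma Lift_t_le (z z1 : ℂ) : 1 - ‖z‖ ≤ 1 - ‖z1‖ + ‖z - z1‖ := by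
  have := norm_sub_le z (z - z1)
  rw [sub_sub_cancel] at this
  linarith only [this]

lemma Lift_E_nonneg {z z1 : ℂ} (h1 : z1 ∈ ball (0 : ℂ) 1) (h : z ∈ ball (0 : ℂ) 1) :
    0 ≤ Lift_E z1 z := by
  have a := Real.log_le_log (t_pos h) (Lift_t_le z z1)
  have b : Real.log (1 - ‖z1‖) ≤ Real.log (1 - ‖z1‖ + ‖z - z1‖) :=
    Real.log_le_log (t_pos h1) (by linarith only [norm_nonneg (z - z1)])
  unfold Lift_E
  linarith

lemma Lift_E_step {z z1 u : ℂ} (h1 : z1 ∈ ball (0 : ℂ) 1) (h : z ∈ ball (0 : ℂ) 1)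
    (hu : ‖u‖ ≤ (1 - ‖z‖) / 2) : Lift_E z1 (z + u) ≤ Lift_E z1 z + 4 * (‖u‖ / (1 - ‖z‖)) := by
  have p1 := t_pos h1
  have p := t_pos h
  have n0 := norm_nonneg (z - z1)
  have n1 := norm_nonneg (z + u - z1)
  have n2 := norm_nonneg u
  have a1 : ‖z + u - z1‖ ≤ ‖z - z1‖ + ‖u‖ := by
    have := norm_add_le (z - z1) u
    rwa [show z - z1 + u = z + u - z1 by ring] at this
  have a2 : ‖z + u‖ ≤ ‖z‖ + ‖u‖ := norm_add_le _ _
  have b1 := Lift_log (a := 1 - ‖z1‖ + ‖z - z1‖) (b := 1 - ‖z1‖ + ‖z + u - z1‖) (x := ‖u‖)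
    (by linarith only [p1, n0]) (by linarith only [p1, n1]) (by linarith only [a1])
  have b2 := Lift_log (a := 1 - ‖z + u‖) (b := 1 - ‖z‖) (x := ‖u‖) (by linarith only [hu, p, a2]) p (by linarith only [a2])
  have c1 : ‖u‖ / (1 - ‖z1‖ + ‖z - z1‖) ≤ ‖u‖ / (1 - ‖z‖) :=
    div_le_div_of_nonneg_left n2 p (Lift_t_le z z1)
  have c2 : ‖u‖ / (1 - ‖z + u‖) ≤ ‖u‖ / ((1 - ‖z‖) / 2) :=
    div_le_div_of_nonneg_left n2 (by linarith only [p]) (by linarith only [hu, a2])
  rw [div_div_eq_mul_div, mul_comm, mul_div_assoc] at c2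
  unfold Lift_E
  linarith only [b1, b2, c1, c2]

lemma lift {l η m : ℝ} (hl : 0 < l) (hη : 0 < η) (hm : 0 < m) : ∃ R : ℝ, 1 ≤ R ∧
    ∀ F : ℂ → ℂ, DifferentiableOn ℂ F (ball 0 1) → ∀ z1 ∈ ball (0 : ℂ) 1, ∀ w : ℂ,
      ‖F z1 - w‖ ≤ l → ∃ z ∈ near R z1, F z = w ∨
        (infDist (F z) (segment ℝ (F z1) w) ≤ η ∧ ‖deriv F z‖ < m * bt z) := by
  set lam := m / 24 with hlam
  have lam0 : 0 < lam := by positivity
  set R := Real.exp (l / lam + 1) with hR
  have R1 : 1 ≤ R := Real.one_le_exp (by positivity)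
  refine ⟨R, R1, fun F hF z1 h1 w hw => ?_⟩
  have p1 := t_pos h1
  set S := segment ℝ (F z1) w with hS
  set N := l / η with hN
  have N0 : 0 < N := by positivity
  set K : Set ℂ := {z | (1 - ‖z1‖ + ‖z - z1‖) ^ 2 ≤ R * (1 - ‖z1‖) * (1 - ‖z‖)} with hK
  have Kb : ∀ z ∈ K, z ∈ ball (0 : ℂ) 1 := fun z hz => by
    have h : (1 - ‖z1‖ + ‖z - z1‖) ^ 2 ≤ R * (1 - ‖z1‖) * (1 - ‖z‖) := hz
    have n0 := norm_nonneg (z - z1)
    rw [mem_ball_zero_iff]
    by_contra hc
    have : R * (1 - ‖z1‖) * (1 - ‖z‖) ≤ 0 :=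
      mul_nonpos_of_nonneg_of_nonpos (by positivity) (by linarith only [hc, not_lt.1 hc])
    have : 0 < (1 - ‖z1‖ + ‖z - z1‖) ^ 2 := by positivity
    linarith
  have Kc : IsCompact K := (isCompact_closedBall (0 : ℂ) 1).of_isClosed_subset
    (isClosed_le (by fun_prop) (by fun_prop)) fun z hz => ball_subset_closedBall (Kb z hz)
  have K1 : z1 ∈ K := by
    show (1 - ‖z1‖ + ‖z1 - z1‖) ^ 2 ≤ R * (1 - ‖z1‖) * (1 - ‖z1‖)
    simp only [sub_self, norm_zero, add_zero]
    linarith only [mul_le_mul_of_nonneg_right R1 (mul_pos p1 p1).le]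
  have Kn : ∀ z ∈ K, z ∈ near R z1 := fun z hz => by
    have h : (1 - ‖z1‖ + ‖z - z1‖) ^ 2 ≤ R * (1 - ‖z1‖) * (1 - ‖z‖) := hz
    have n0 := norm_nonneg (z - z1)
    have a := Lift_t_le z z1
    have p := t_pos (Kb z hz)
    have b : R * (1 - ‖z1‖) * (1 - ‖z‖) ≤ R * (1 - ‖z1‖) * (1 - ‖z1‖ + ‖z - z1‖) :=
      mul_le_mul_of_nonneg_left a (by positivity)
    refine ⟨?_, ?_⟩
    · have : 1 - ‖z1‖ + ‖z - z1‖ ≤ R * (1 - ‖z1‖) :=
        le_of_mul_le_mul_right (by linarith only [h, b])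
          (by linarith only [p1, n0] : 0 < 1 - ‖z1‖ + ‖z - z1‖)
      linarith only [this, p1]
    · exact le_of_mul_le_mul_left
        (by linarith only [h, mul_nonneg p1.le n0, sq_nonneg ‖z - z1‖]) p1
  set ψ : ℂ → ℝ := fun v => ‖v - w‖ + N * infDist v S with hψ
  have ψc : Continuous ψ := (by fun_prop : Continuous fun v : ℂ => ‖v - w‖).add
    (continuous_const.mul (continuous_infDist_pt S))
  have Gc : ContinuousOn (fun z => ψ (F z) + lam * Lift_E z1 z) K := by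
    refine (ψc.comp_continuousOn (hF.continuousOn.mono Kb)).add (continuousOn_const.mul ?_)
    unfold Lift_E
    refine ((continuousOn_const.mul (ContinuousOn.log (by fun_prop) fun z _ => ?_)).sub
      continuousOn_const).sub (ContinuousOn.log (by fun_prop) fun z hz => (t_pos (Kb z hz)).ne')
    linarith only [p1, norm_nonneg (z - z1)]
  obtain ⟨z0, hz0, hmin⟩ := Kc.exists_isMinOn ⟨z1, K1⟩ Gc
  have b0 := Kb z0 hz0
  have p0 := t_pos b0
  have v1 : ψ (F z0) + lam * Lift_E z1 z0 ≤ l := by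
    have h : ψ (F z0) + lam * Lift_E z1 z0 ≤ ψ (F z1) + lam * Lift_E z1 z1 := hmin K1
    have e1 : Lift_E z1 z1 = 0 := by
      simp only [Lift_E, sub_self, norm_zero, add_zero]
      ring
    have e2 : infDist (F z1) S = 0 := infDist_zero_of_mem (left_mem_segment _ _ _)
    simp only [hψ, e1, e2, mul_zero, add_zero] at h ⊢
    linarith only [hw, h]
  have E0 := Lift_E_nonneg h1 b0
  have i0 : 0 ≤ infDist (F z0) S := infDist_nonneg
  have n0 := norm_nonneg (F z0 - w)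
  have ψ0 : ψ (F z0) = ‖F z0 - w‖ + N * infDist (F z0) S := rfl
  have d1 : infDist (F z0) S ≤ η := by
    have : N * infDist (F z0) S ≤ l := by linarith only [v1, ψ0, n0, mul_nonneg lam0.le E0]
    rw [hN, div_mul_eq_mul_div, div_le_iff₀ hη] at this
    exact le_of_mul_le_mul_left this hl
  refine ⟨z0, Kn z0 hz0, ?_⟩
  by_contra hc
  rw [not_or, not_and, not_lt] at hc
  have hd := hc.2 d1
  have bt0 := bt_pos b0
  have D0 : 0 < ‖deriv F z0‖ := lt_of_lt_of_le (by positivity) hd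
  have D1 : deriv F z0 ≠ 0 := norm_pos_iff.1 D0
  set d := ‖F z0 - w‖ with hdd
  have d0 : 0 < d := norm_pos_iff.2 (sub_ne_zero.2 hc.1)
  set v := (w - F z0) / deriv F z0 with hv
  have nv : ‖v‖ = d / ‖deriv F z0‖ := by rw [hv, norm_div, norm_sub_rev]
  have nv2 : ‖v‖ / (1 - ‖z0‖) ≤ 2 * d / m := by
    rw [nv, div_div, div_le_div_iff₀ (by positivity) hm]
    have := one_le_two_bt_mul_t b0
    have h2 : m * bt z0 * (1 - ‖z0‖) ≤ ‖deriv F z0‖ * (1 - ‖z0‖) :=
      mul_le_mul_of_nonneg_right hd p0.le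
    have h3 : m ≤ 2 * (‖deriv F z0‖ * (1 - ‖z0‖)) := by
      linarith only [mul_le_mul_of_nonneg_left this hm.le, h2]
    linarith only [mul_le_mul_of_nonneg_left h3 d0.le]
  have hF0 : HasDerivAt F (deriv F z0) z0 :=
    (hF.differentiableAt (isOpen_ball.mem_nhds b0)).hasDerivAt
  have hl1 : HasDerivAt (fun s : ℝ => z0 + (s : ℂ) * v) v 0 := by
    simpa using ((Complex.ofRealCLM.hasDerivAt (x := (0 : ℝ))).mul_const v).const_add z0
  have hγ : HasDerivAt (fun s : ℝ => F (z0 + (s : ℂ) * v)) (w - F z0) 0 := by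
    have h0 : HasDerivAt F (deriv F z0) (z0 + ((0 : ℝ) : ℂ) * v) := by simpa using hF0
    have := h0.scomp (0 : ℝ) hl1
    have e : v • deriv F z0 = w - F z0 := by
      rw [smul_eq_mul, hv, div_mul_cancel₀ _ D1]
    rw [e] at this
    exact this
  have ev1 := (hasDerivAt_iff_isLittleO.1 hγ).def (c := d / (4 * (1 + N))) (by positivity)
  have cv : ContinuousAt (fun s : ℝ => z0 + (s : ℂ) * v) 0 := hl1.continuousAt
  have strict : (1 - ‖z1‖ + ‖z0 - z1‖) ^ 2 < R * (1 - ‖z1‖) * (1 - ‖z0‖) := by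
    have a : Lift_E z1 z0 ≤ l / lam := by
      rw [le_div_iff₀ lam0]
      linarith only [v1, ψ0, n0, mul_nonneg N0.le i0]
    have q : 0 < 1 - ‖z1‖ + ‖z0 - z1‖ := by linarith only [p1, norm_nonneg (z0 - z1)]
    rw [← Real.log_lt_log_iff (by positivity) (by positivity), Real.log_mul (by positivity) p0.ne',
      Real.log_mul (by positivity) p1.ne', hR, Real.log_exp, Real.log_pow]
    unfold Lift_E at a
    push_cast
    linarith only [a]
  have ev2 : ∀ᶠ s : ℝ in 𝓝 0, z0 + (s : ℂ) * v ∈ K := by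
    have o : ∀ᶠ z in 𝓝 z0, (1 - ‖z1‖ + ‖z - z1‖) ^ 2 < R * (1 - ‖z1‖) * (1 - ‖z‖) :=
      ContinuousAt.eventually_lt (by fun_prop) (by fun_prop) strict
    have : Tendsto (fun s : ℝ => z0 + (s : ℂ) * v) (𝓝 0) (𝓝 z0) := by
      simpa using cv.tendsto
    exact (this.eventually o).mono fun s hs => le_of_lt hs
  have ev3 : ∀ᶠ s : ℝ in 𝓝 0, s * ‖v‖ < (1 - ‖z0‖) / 2 :=
    ContinuousAt.eventually_lt (by fun_prop) (by fun_prop) (by simpa using p0)
  have ev4 : ∀ᶠ s : ℝ in 𝓝 0, s < 1 := Iio_mem_nhds one_pos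
  obtain ⟨s, ⟨⟨⟨k1, k2⟩, k3⟩, k4⟩, s0⟩ :=
    ((((ev1.and ev2).and ev3).and ev4).filter_mono (nhdsWithin_le_nhds (s := Ioi 0))).and
      self_mem_nhdsWithin |>.exists
  have s0 : 0 < s := s0
  have m1 : ψ (F z0) + lam * Lift_E z1 z0 ≤
      ψ (F (z0 + (s : ℂ) * v)) + lam * Lift_E z1 (z0 + (s : ℂ) * v) := hmin k2
  have ns : ‖(s : ℂ) * v‖ = s * ‖v‖ := by rw [norm_mul, Complex.norm_real, Real.norm_of_nonneg s0.le]
  have m2 := Lift_E_step h1 b0 (u := (s : ℂ) * v) (by rw [ns]; exact k3.le)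
  rw [ns, mul_div_assoc] at m2
  have m3 : s * (‖v‖ / (1 - ‖z0‖)) ≤ s * (2 * d / m) := mul_le_mul_of_nonneg_left nv2 s0.le
  simp only [ofReal_zero, zero_mul, add_zero, sub_zero, Real.norm_of_nonneg s0.le] at k1
  set y := F (z0 + (s : ℂ) * v) with hy
  set x := F z0 + s • (w - F z0) with hx
  have k5 : ‖y - x‖ ≤ d / (4 * (1 + N)) * s := by
    rw [hx, ← sub_sub]
    exact k1
  have x1 : ‖x - w‖ = (1 - s) * d := by
    have : x - w = (1 - s) • (F z0 - w) := by
      simp only [hx, real_smul]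
      push_cast
      ring
    rw [this, norm_smul, Real.norm_of_nonneg (sub_nonneg.2 k4.le)]
  have x2 : infDist x S ≤ (1 - s) * infDist (F z0) S := Lift_hom s0.le k4.le
  have y1 : ‖y - w‖ ≤ ‖y - x‖ + ‖x - w‖ := norm_sub_le_norm_sub_add_norm_sub _ _ _
  have y2 : infDist y S ≤ infDist x S + ‖y - x‖ := by
    have := infDist_le_infDist_add_dist (s := S) (x := y) (y := x)
    rwa [dist_eq_norm] at this
  have y3 : (1 + N) * ‖y - x‖ ≤ d / 4 * s := by
    refine (mul_le_mul_of_nonneg_left k5 (by positivity)).trans (le_of_eq ?_)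
    field_simp
  have y4 : N * infDist y S ≤ N * (infDist (F z0) S + ‖y - x‖) :=
    mul_le_mul_of_nonneg_left (by linarith only [y2, x2, mul_nonneg s0.le i0]) N0.le
  have y5 : lam * (4 * (s * (2 * d / m))) = s * d / 3 := by
    rw [hlam]
    field_simp
    norm_num
  have y6 : lam * Lift_E z1 (z0 + (s : ℂ) * v) ≤ lam * (Lift_E z1 z0 + 4 * (s * (2 * d / m))) :=
    mul_le_mul_of_nonneg_left (by linarith only [m2, m3]) lam0.le
  have ψy : ψ y = ‖y - w‖ + N * infDist y S := rfl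
  have sd := mul_pos s0 d0
  rw [ψ0, ψy] at m1
  linarith only [m1, y1, x1, y3, y4, y5, y6, sd]

end Pool.Agent.Work.MP_6ac3f6_an.PF
end

-- merged part: Pool.Agent.Work.MP_6ac3f6_an.PF.Bas
section
/-!
# Logarithms, the inequalities of Caratheodory and Harnack

exists_log: primitive of g'/g on a ball (Mathlib HasPrimitives), or a continuous branch.
cara, harnack: for s > 0 put H = G + s, a = H c, apply the Schwarz lemma to (H - a) / (H + conj a),
which maps the ball to the unit disc and c to 0 (derivative at c is G' c / (2 Re a);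
if |(H z - a)/(H z + conj a)| ≤ q < 1 then Re H z ≥ Re a (1 - q)/(1 + q)); let s tend to 0.
The two multiplicative forms: G = log M - log g.
-/

set_option autoImplicit false

namespace Pool.Agent.Work.MP_6ac3f6_an.PF

open Complex Metric Set Filter Topology Real MeasureTheory ComplexConjugate

variable {g G : ℂ → ℂ} {c z : ℂ} {R M : ℝ}

lemma exists_log (hg : DifferentiableOn ℂ g (ball c R)) (h0 : ∀ z ∈ ball c R, g z ≠ 0) :
    ∃ G : ℂ → ℂ, DifferentiableOn ℂ G (ball c R) ∧ (∀ z ∈ ball c R, Complex.exp (G z) = g z) ∧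
      (∀ z ∈ ball c R, deriv g z = deriv G z * g z) ∧
      ∀ z ∈ ball c R, (G z).re = Real.log ‖g z‖ := by
  have hd : DifferentiableOn ℂ (fun w => deriv g w / g w) (ball c R) :=
    (hg.deriv isOpen_ball).div hg h0
  obtain ⟨G, hc, hG⟩ := hd.isExactOn_ball.with_val_at c (Complex.log (g c))
  have hgd : ∀ w ∈ ball c R, HasDerivAt g (deriv g w) w := fun w hw =>
    (hg.differentiableAt (isOpen_ball.mem_nhds hw)).hasDerivAt
  have hk : ∀ w ∈ ball c R, HasDerivAt (fun w => g w * Complex.exp (-G w)) 0 w := by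
    intro w hw
    have h1 := (hgd w hw).mul (hG w hw).neg.cexp
    have h2 := h0 w hw
    refine h1.congr_deriv ?_
    simp only [Pi.neg_apply]
    field_simp
    ring
  have he : ∀ w ∈ ball c R, Complex.exp (G w) = g w := by
    intro w hw
    have hcm : c ∈ ball c R := mem_ball_self (pos_of_mem_ball hw)
    have h1 : g w * Complex.exp (-G w) = g c * Complex.exp (-G c) :=
      isOpen_ball.is_const_of_deriv_eq_zero (convex_ball c R).isPreconnected
        (fun x hx => (hk x hx).differentiableAt.differentiableWithinAt)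
        (fun x hx => (hk x hx).deriv) hw hcm
    rw [hc, Complex.exp_neg, Complex.exp_neg, Complex.exp_log (h0 c hcm),
      mul_inv_cancel₀ (h0 c hcm), mul_inv_eq_one₀ (Complex.exp_ne_zero _)] at h1
    exact h1.symm
  refine ⟨G, fun w hw => (hG w hw).differentiableAt.differentiableWithinAt, he, fun w hw => ?_,
    fun w hw => ?_⟩
  · rw [(hG w hw).deriv, div_mul_cancel₀ _ (h0 w hw)]
  · rw [← he w hw, Complex.norm_exp, Real.log_exp]

lemma Bas_cay (hG : DifferentiableOn ℂ G (ball c R)) (h : ∀ z ∈ ball c R, 0 ≤ (G z).re)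
    (hc : c ∈ ball c R) {s : ℝ} (hs : 0 < s) :
    (∀ w ∈ ball c R, G w + conj (G c) + ((2 * s : ℝ) : ℂ) ≠ 0) ∧
    DifferentiableOn ℂ (fun w => (G w - G c) / (G w + conj (G c) + ((2 * s : ℝ) : ℂ))) (ball c R) ∧
    MapsTo (fun w => (G w - G c) / (G w + conj (G c) + ((2 * s : ℝ) : ℂ))) (ball c R)
      (closedBall ((G c - G c) / (G c + conj (G c) + ((2 * s : ℝ) : ℂ))) 1) := by
  have h1 : ∀ w ∈ ball c R, G w + conj (G c) + ((2 * s : ℝ) : ℂ) ≠ 0 := by
    intro w hw h0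
    have := congrArg Complex.re h0
    simp only [Complex.add_re, Complex.conj_re, Complex.ofReal_re, Complex.zero_re] at this
    linarith only [hs, this, h, hw, hc, h w hw, h c hc]
  refine ⟨h1, (hG.sub_const _).div ((hG.add_const _).add_const _) h1, fun w hw => ?_⟩
  rw [sub_self, zero_div, mem_closedBall_zero_iff, norm_div,
    div_le_one (norm_pos_iff.2 (h1 w hw)), ← sq_le_sq₀ (norm_nonneg _) (norm_nonneg _),
    Complex.sq_norm, Complex.sq_norm, Complex.normSq_apply, Complex.normSq_apply]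
  simp only [Complex.add_re, Complex.conj_re, Complex.ofReal_re, Complex.sub_re, Complex.add_im,
    Complex.conj_im, Complex.ofReal_im, Complex.sub_im]
  linarith only [h, hw, hc, hs, h w hw, h c hc, mul_nonneg (h w hw) (h c hc), mul_nonneg (h w hw) hs.le,
    mul_nonneg (h c hc) hs.le, mul_pos_of_neg_of_neg (Mathlib.Tactic.Linarith.sub_neg_of_lt hs) (Mathlib.Tactic.Linarith.sub_neg_of_lt hs)]

lemma cara (hR : 0 < R) (hG : DifferentiableOn ℂ G (ball c R))
    (h : ∀ z ∈ ball c R, 0 ≤ (G z).re) : R * ‖deriv G c‖ ≤ 2 * (G c).re := by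
  have hc : c ∈ ball c R := mem_ball_self hR
  refine le_of_forall_pos_le_add fun e he => ?_
  have hs : 0 < e / 2 := by positivity
  obtain ⟨h1, h2, h3⟩ := Bas_cay hG h hc hs
  have h4 := Complex.norm_deriv_le_div_of_mapsTo_ball h2 h3 hR
  have hGc := (hG.differentiableAt (isOpen_ball.mem_nhds hc)).hasDerivAt
  have h5 := (hGc.sub_const (G c)).div ((hGc.add_const (conj (G c))).add_const ((2 * (e / 2) : ℝ) : ℂ))
    (h1 c hc)
  have h6 : G c + conj (G c) + ((2 * (e / 2) : ℝ) : ℂ) = ((2 * (G c).re + e : ℝ) : ℂ) := by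
    rw [Complex.add_conj]
    push_cast
    ring
  have h7 : 0 < 2 * (G c).re + e := by linarith only [he, h, hc, h c hc]
  have h8 : deriv (fun w => (G w - G c) / (G w + conj (G c) + ((2 * (e / 2) : ℝ) : ℂ))) c =
      deriv G c / ((2 * (G c).re + e : ℝ) : ℂ) := by
    refine h5.deriv.trans ?_
    have h9 : ((2 * (G c).re + e : ℝ) : ℂ) ≠ 0 := Complex.ofReal_ne_zero.2 h7.ne'
    rw [h6, sub_self, zero_mul, sub_zero]
    field_simp
  rw [h8, norm_div, Complex.norm_real, Real.norm_of_nonneg h7.le, div_le_div_iff₀ h7 hR] at h4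
  linarith only [h4]

lemma harnack (hG : DifferentiableOn ℂ G (ball c R)) (h : ∀ z ∈ ball c R, 0 ≤ (G z).re)
    (hz : z ∈ ball c R) : (G c).re * (R - ‖z - c‖) ≤ (G z).re * (R + ‖z - c‖) := by
  have hR : 0 < R := pos_of_mem_ball hz
  have hc : c ∈ ball c R := mem_ball_self hR
  have hr : ‖z - c‖ < R := mem_ball_iff_norm.1 hz
  have hr0 := norm_nonneg (z - c)
  refine le_of_forall_pos_le_add fun e he => ?_
  have hs : 0 < e / (2 * R) := by positivity
  have hes : 2 * (e / (2 * R)) * R = e := by field_simp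
  generalize e / (2 * R) = s at hs hes
  obtain ⟨h1, h2, h3⟩ := Bas_cay hG h hc hs
  have h4 := Complex.dist_le_div_mul_dist_of_mapsTo_ball h2 h3 hz
  rw [sub_self, zero_div, dist_zero_right, norm_div, dist_eq_norm,
    div_le_iff₀ (norm_pos_iff.2 (h1 z hz))] at h4
  have h5 : R * ‖G z - G c‖ ≤ ‖z - c‖ * ‖G z + conj (G c) + ((2 * s : ℝ) : ℂ)‖ := by
    have := mul_le_mul_of_nonneg_left h4 hR.le
    rwa [show R * (1 / R * ‖z - c‖ * ‖G z + conj (G c) + ((2 * s : ℝ) : ℂ)‖) =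
      ‖z - c‖ * ‖G z + conj (G c) + ((2 * s : ℝ) : ℂ)‖ by field_simp] at this
  rw [← sq_le_sq₀ (by positivity) (by positivity), mul_pow, mul_pow,
    Complex.sq_norm (G z - G c), Complex.sq_norm (G z + _ + _), Complex.normSq_apply,
    Complex.normSq_apply] at h5
  simp only [Complex.add_re, Complex.conj_re, Complex.ofReal_re, Complex.sub_re, Complex.add_im,
    Complex.conj_im, Complex.ofReal_im, Complex.sub_im] at h5
  have hx := h z hz
  have ha := h c hc
  generalize ‖z - c‖ = r at *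
  generalize (G z).re = x at *
  generalize (G c).re = a at *
  have h6 : r ^ 2 * (((G z).im - (G c).im) ^ 2) ≤ R ^ 2 * (((G z).im - (G c).im) ^ 2) :=
    mul_le_mul_of_nonneg_right (pow_le_pow_left₀ hr0 hr.le 2) (sq_nonneg _)
  have h7 : (R * (a - x)) ^ 2 ≤ (r * (x + a + 2 * s)) ^ 2 := by linarith only [h5, h6]
  have h8 : R * (a - x) ≤ r * (x + a + 2 * s) :=
    (abs_le_of_sq_le_sq' h7 (by positivity)).2
  linarith only [hes, h8, hr, hs, mul_le_mul_of_nonneg_left hr.le hs.le]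

lemma Bas_re (h0 : ∀ z ∈ ball c R, g z ≠ 0) (hM : ∀ z ∈ ball c R, ‖g z‖ ≤ M)
    (h : ∀ z ∈ ball c R, (G z).re = Real.log ‖g z‖) (w : ℂ) (hw : w ∈ ball c R) :
    ((Real.log M : ℂ) - G w).re = Real.log (M / ‖g w‖) ∧ 0 ≤ Real.log (M / ‖g w‖) := by
  have h1 : 0 < ‖g w‖ := norm_pos_iff.2 (h0 w hw)
  have h2 := hM w hw
  refine ⟨?_, Real.log_nonneg ((one_le_div h1).2 h2)⟩
  rw [Complex.sub_re, Complex.ofReal_re, h w hw, Real.log_div (h1.trans_le h2).ne' h1.ne']

lemma cara_log (hR : 0 < R) (hg : DifferentiableOn ℂ g (ball c R)) (h0 : ∀ z ∈ ball c R, g z ≠ 0)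
    (hM : ∀ z ∈ ball c R, ‖g z‖ ≤ M) :
    R * ‖deriv g c‖ ≤ 2 * ‖g c‖ * Real.log (M / ‖g c‖) := by
  have hc : c ∈ ball c R := mem_ball_self hR
  obtain ⟨G, h1, -, h2, h3⟩ := exists_log hg h0
  have h4 := Bas_re h0 hM h3
  have h5 := cara (G := fun w => (Real.log M : ℂ) - G w) hR (h1.const_sub _)
    fun w hw => by rw [(h4 w hw).1]; exact (h4 w hw).2
  rw [deriv_const_sub, norm_neg, (h4 c hc).1] at h5
  rw [h2 c hc, norm_mul]
  linarith only [h5, mul_le_mul_of_nonneg_right h5 (norm_nonneg (g c))]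

lemma harnack_log (hg : DifferentiableOn ℂ g (ball c R)) (h0 : ∀ z ∈ ball c R, g z ≠ 0)
    (hM : ∀ z ∈ ball c R, ‖g z‖ ≤ M) (hz : z ∈ ball c R) :
    Real.log (M / ‖g c‖) * (R - ‖z - c‖) ≤ Real.log (M / ‖g z‖) * (R + ‖z - c‖) := by
  have hc : c ∈ ball c R := mem_ball_self (pos_of_mem_ball hz)
  obtain ⟨G, h1, -, -, h3⟩ := exists_log hg h0
  have h4 := Bas_re h0 hM h3
  have h5 := harnack (G := fun w => (Real.log M : ℂ) - G w) (h1.const_sub _)
    (fun w hw => by rw [(h4 w hw).1]; exact (h4 w hw).2) hz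
  rwa [(h4 c hc).1, (h4 z hz).1] at h5

end Pool.Agent.Work.MP_6ac3f6_an.PF
end

-- merged part: Pool.Agent.Work.MP_6ac3f6_an.PF.MirA
section
/-!
# Bounded spherical derivative gives a bounded logarithmic derivative

u = Re G. First u has a zero in ball 0 1: otherwise u has one sign there (the ball is preconnected),
cara for G or -G gives |G' 0| ≤ 2 |u 0| < 2 cosh (u 0). For z in ball 0 (R/4) let z0 be a zero of u
nearest to z among the zeros in closedBall z (R/4+1), d = |z - z0|. If d = 0 then |G' z| ≤ 4.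
Otherwise u has one sign on ball z d; harnack at w = z0 + s (z - z0) gives |u z| s ≤ 2 |u w|,
and |u w| / s tends to at most |G' z0| d ≤ 4 d, so |u z| ≤ 8 d; cara gives d |G' z| ≤ 2 |u z| ≤ 16 d.
-/

set_option autoImplicit false

namespace Pool.Agent.Work.MP_6ac3f6_an.PF

open Complex Metric Set Filter Topology Real MeasureTheory ComplexConjugate

lemma MirA_abs_lt_cosh (x : ℝ) : |x| < Real.cosh x := by
  rw [← Real.cosh_abs, Real.cosh_eq]
  have h1 := Real.quadratic_le_exp_of_nonneg (abs_nonneg x)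
  have h2 := Real.exp_pos (-|x|)
  linarith only [h1, h2, sq_nonneg (|x| - 1)]

lemma MirA_sign {G : ℂ → ℂ} {c : ℂ} {r : ℝ} (hG : DifferentiableOn ℂ G (ball c r))
    (h : ∀ z ∈ ball c r, (G z).re ≠ 0) :
    (∀ z ∈ ball c r, 0 ≤ (G z).re) ∨ ∀ z ∈ ball c r, (G z).re ≤ 0 := by
  by_contra hc
  rw [not_or] at hc
  obtain ⟨h1, h2⟩ := hc
  push Not at h1 h2
  obtain ⟨a, ha, ha'⟩ := h1
  obtain ⟨b, hb, hb'⟩ := h2
  have hc : ContinuousOn (fun z => (G z).re) (ball c r) :=
    Complex.continuous_re.comp_continuousOn hG.continuousOn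
  have := (convex_ball c r).isPreconnected.intermediate_value ha hb hc
  obtain ⟨w, hw, hw'⟩ := this ⟨ha'.le, hb'.le⟩
  exact h w hw hw'

lemma MirA_cara {G : ℂ → ℂ} {c : ℂ} {r : ℝ} (hr : 0 < r) (hG : DifferentiableOn ℂ G (ball c r))
    (h : ∀ z ∈ ball c r, (G z).re ≠ 0) : r * ‖deriv G c‖ ≤ 2 * |(G c).re| := by
  rcases MirA_sign hG h with h1 | h1
  · have := cara hr hG h1
    linarith only [this, le_abs_self (G c).re]
  · have := cara (G := fun z => -G z) hr hG.neg (fun z hz => by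
      have := h1 z hz
      simp only [Complex.neg_re]
      linarith)
    rw [deriv.fun_neg, norm_neg, Complex.neg_re] at this
    linarith only [this, neg_le_abs (G c).re]

lemma MirA_harnack {G : ℂ → ℂ} {c z : ℂ} {r : ℝ} (hG : DifferentiableOn ℂ G (ball c r))
    (h : ∀ z ∈ ball c r, (G z).re ≠ 0) (hz : z ∈ ball c r) :
    |(G c).re| * (r - ‖z - c‖) ≤ |(G z).re| * (r + ‖z - c‖) := by
  have hr : 0 < r := lt_of_le_of_lt dist_nonneg hz
  rcases MirA_sign hG h with h1 | h1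
  · have := harnack hG h1 hz
    rwa [abs_of_nonneg (h1 c (mem_ball_self hr)), abs_of_nonneg (h1 z hz)]
  · have := harnack (G := fun z => -G z) hG.neg (fun z hz => by
      have := h1 z hz
      simp only [Complex.neg_re]
      linarith) hz
    simp only [Complex.neg_re] at this
    rwa [abs_of_nonpos (h1 c (mem_ball_self hr)), abs_of_nonpos (h1 z hz)]

lemma MirA_near {G : ℂ → ℂ} {z z0 : ℂ} (hd : 0 < ‖z - z0‖)
    (hG : DifferentiableOn ℂ G (ball z ‖z - z0‖)) (hG0 : DifferentiableAt ℂ G z0)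
    (h : ∀ w ∈ ball z ‖z - z0‖, (G w).re ≠ 0) (h0 : (G z0).re = 0) (h4 : ‖deriv G z0‖ ≤ 4) :
    |(G z).re| ≤ 8 * ‖z - z0‖ := by
  have h1 : HasDerivAt (fun s : ℂ => z0 + s * (z - z0)) (z - z0) ((0 : ℝ) : ℂ) := by
    simpa using ((hasDerivAt_id ((0 : ℝ) : ℂ)).mul_const (z - z0)).const_add z0
  have h2 : HasDerivAt G (deriv G z0) (z0 + ((0 : ℝ) : ℂ) * (z - z0)) := by
    simpa using hG0.hasDerivAt
  have h3 := (h2.comp ((0 : ℝ) : ℂ) h1).real_of_complex
  have h5 := (continuous_abs.tendsto _).comp h3.tendsto_slope_zero_right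
  have h6 : |(G z).re| / 2 ≤ |(deriv G z0 * (z - z0)).re| := by
    refine ge_of_tendsto h5 ?_
    filter_upwards [Ioo_mem_nhdsGT (zero_lt_one' ℝ)] with s hs
    have hn : ‖z0 + (s : ℂ) * (z - z0) - z‖ = (1 - s) * ‖z - z0‖ := by
      have e : z0 + (s : ℂ) * (z - z0) - z = -(((1 - s : ℝ) : ℂ) * (z - z0)) := by
        push_cast
        ring
      rw [e, norm_neg, norm_mul, Complex.norm_real, Real.norm_eq_abs,
        abs_of_pos (by linarith [hs.2])]
    have hw : z0 + (s : ℂ) * (z - z0) ∈ ball z ‖z - z0‖ := by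
      rw [mem_ball_iff_norm, hn]
      linarith only [hd, hs, hs.1, mul_pos_of_neg_of_neg (Mathlib.Tactic.Linarith.sub_neg_of_lt hd) (Mathlib.Tactic.Linarith.sub_neg_of_lt hs.left)]
    have h7 := MirA_harnack hG h hw
    rw [hn] at h7
    simp only [Function.comp, zero_add, Complex.ofReal_zero, zero_mul, add_zero, h0, sub_zero,
      smul_eq_mul, abs_mul, abs_inv, abs_of_pos hs.1]
    rw [le_inv_mul_iff₀ hs.1]
    have h8 := abs_nonneg (G (z0 + (s : ℂ) * (z - z0))).re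
    have h9 : ‖z - z0‖ * (s * |(G z).re|) ≤ ‖z - z0‖ * (2 * |(G (z0 + (s : ℂ) * (z - z0))).re|) := by
      linarith only [h7, h8, hd, mul_nonneg (mul_nonneg h8 hs.1.le) hd.le]
    have := le_of_mul_le_mul_left h9 hd
    linarith only [this]
  have h7 : |(deriv G z0 * (z - z0)).re| ≤ 4 * ‖z - z0‖ := by
    refine (Complex.abs_re_le_norm _).trans ?_
    rw [norm_mul]
    exact mul_le_mul_of_nonneg_right h4 hd.le
  linarith only [h6, h7]

lemma bonk {G : ℂ → ℂ} {R : ℝ} (hR : 8 ≤ R) (hG : DifferentiableOn ℂ G (ball 0 R))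
    (hb : ∀ z ∈ ball (0 : ℂ) R, ‖deriv G z‖ ≤ 4 * Real.cosh (G z).re)
    (h0 : ‖deriv G 0‖ = 2 * Real.cosh (G 0).re) :
    ∀ z ∈ ball (0 : ℂ) (R / 4), ‖deriv G z‖ ≤ 16 := by
  obtain ⟨a, ha, ha0⟩ : ∃ a ∈ ball (0 : ℂ) 1, (G a).re = 0 := by
    by_contra hc
    push Not at hc
    have := MirA_cara one_pos (hG.mono (ball_subset_ball (by linarith only [hR]))) hc
    linarith [MirA_abs_lt_cosh (G 0).re]
  intro z hz
  have hz' := mem_ball_zero_iff.1 hz
  have hsub : closedBall z (R / 4 + 1) ⊆ ball (0 : ℂ) R := by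
    intro w hw
    rw [mem_closedBall_iff_norm] at hw
    rw [mem_ball_zero_iff]
    have : ‖w‖ ≤ ‖w - z‖ + ‖z‖ := by simpa using norm_add_le (w - z) z
    linarith only [hR, hz', hw, this]
  have hc : ContinuousOn (fun w => (G w).re) (closedBall z (R / 4 + 1)) :=
    Complex.continuous_re.comp_continuousOn (hG.continuousOn.mono hsub)
  have hK : IsCompact (closedBall z (R / 4 + 1) ∩ (fun w => (G w).re) ⁻¹' {0}) :=
    (isCompact_closedBall z _).of_isClosed_subset
      (hc.preimage_isClosed_of_isClosed isClosed_closedBall isClosed_singleton) inter_subset_left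
  have hne : (closedBall z (R / 4 + 1) ∩ (fun w => (G w).re) ⁻¹' {0}).Nonempty := by
    refine ⟨a, ?_, ha0⟩
    rw [mem_closedBall_iff_norm]
    have := norm_sub_le a z
    have := mem_ball_zero_iff.1 ha
    linarith
  obtain ⟨z0, ⟨hz0, hz0'⟩, hmin⟩ := hK.exists_isMinOn hne
    (f := fun w => ‖z - w‖) (by fun_prop)
  have hz00 : (G z0).re = 0 := hz0'
  have h4 : ‖deriv G z0‖ ≤ 4 := by
    have := hb z0 (hsub hz0)
    rwa [hz00, Real.cosh_zero, mul_one] at this
  rcases (norm_nonneg (z - z0)).eq_or_lt with hd | hd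
  · have : z = z0 := sub_eq_zero.1 (norm_eq_zero.1 hd.symm)
    rw [this]
    linarith only [h4]
  · have hd' : ‖z - z0‖ ≤ R / 4 + 1 := by
      rw [norm_sub_rev]
      exact mem_closedBall_iff_norm.1 hz0
    have hsub' : ball z ‖z - z0‖ ⊆ closedBall z (R / 4 + 1) :=
      ball_subset_closedBall.trans (closedBall_subset_closedBall hd')
    have hG' : DifferentiableOn ℂ G (ball z ‖z - z0‖) := hG.mono (hsub'.trans hsub)
    have hne0 : ∀ w ∈ ball z ‖z - z0‖, (G w).re ≠ 0 := by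
      intro w hw hw0
      have h1 : ‖z - z0‖ ≤ ‖z - w‖ := hmin (a := w) ⟨hsub' hw, hw0⟩
      rw [mem_ball_iff_norm, norm_sub_rev] at hw
      linarith only [hw, h1]
    have h8 := MirA_near hd hG' (hG.differentiableAt (isOpen_ball.mem_nhds (hsub hz0))) hne0 hz00 h4
    have h9 := MirA_cara hd hG' hne0
    have : ‖z - z0‖ * ‖deriv G z‖ ≤ ‖z - z0‖ * 16 := by linarith only [h8, h9]
    exact le_of_mul_le_mul_left this hd

end Pool.Agent.Work.MP_6ac3f6_an.PF
end

-- merged part: Pool.Agent.Work.MP_6ac3f6_an.PF.MirB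
section
/-!
# An almost linear exponent gives a root

a = G' 0. Cauchy estimate: |G''| ≤ 32 / R on ball 0 6, so |G' - a| ≤ 2e-4 and
|G z - G 0 - a z| ≤ 2e-3 there (mean value inequality). Let b = Complex.log (1 / (a exp (G 0)))
(real part at most 3 + log 16 in absolute value, imaginary part at most pi) and z0 = b / a, |z0| ≤ 5,
a exp (G 0 + a z0) = 1. Put E z = G' z exp (G z) - 1. With w = a (z - z0),
G' z exp (G z) = (G' z / a) exp (G z - G 0 - a z) exp w, so |E z - (exp w - 1)| ≤ 1/100 for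
|z - z0| ≤ 1/32; on the circle |w| is between 1/16 and 1/2 and |exp w - 1| ≥ |w|/4 (or better),
while |E z0| ≤ 1/200. If E had no zero, the maximum principle for 1/E on the disc would fail.
-/

set_option autoImplicit false

namespace Pool.Agent.Work.MP_6ac3f6_an.PF

open Complex Metric Set Filter Topology Real MeasureTheory ComplexConjugate

lemma MirB_lin {G : ℂ → ℂ} {R : ℝ} (hR : 10 ^ 6 ≤ R) (hG : DifferentiableOn ℂ G (ball 0 R))
    (hb : ∀ z ∈ ball (0 : ℂ) R, ‖deriv G z‖ ≤ 16) {z : ℂ} (hz : z ∈ ball (0 : ℂ) 6) :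
    ‖deriv G z - deriv G 0‖ ≤ 1 / 5000 ∧ ‖G z - G 0 - deriv G 0 * z‖ ≤ 6 / 5000 := by
  have hR0 : 0 < R := by linarith only [hR]
  have hsub : ball (0 : ℂ) 6 ⊆ ball 0 R := ball_subset_ball (by linarith only [hR])
  have h1 : ∀ z ∈ ball (0 : ℂ) 6, ‖deriv G z - deriv G 0‖ ≤ 1 / 5000 := fun z hz => by
    have h := Complex.dist_le_div_mul_dist_of_mapsTo_ball (R₂ := 32) (hG.deriv isOpen_ball)
      (fun w hw => by
        rw [mem_closedBall, dist_eq_norm]
        linarith only [hb, hw, hR0, norm_sub_le (deriv G w) (deriv G 0), hb w hw, hb 0 (mem_ball_self hR0)]) (hsub hz)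
    rw [dist_eq_norm] at h
    refine h.trans ?_
    have h2 : 32 / R ≤ 32 / 10 ^ 6 := div_le_div_of_nonneg_left (by norm_num) (by norm_num) hR
    have h3 := (mem_ball.1 hz).le
    calc 32 / R * dist z 0 ≤ 32 / 10 ^ 6 * 6 := mul_le_mul h2 h3 dist_nonneg (by norm_num)
      _ ≤ 1 / 5000 := by norm_num
  refine ⟨h1 z hz, ?_⟩
  have h := (convex_ball (0 : ℂ) 6).norm_image_sub_le_of_norm_hasDerivWithin_le
    (f := fun z => G z - deriv G 0 * z) (f' := fun z => deriv G z - deriv G 0)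
    (fun w hw => by
      have h2 := (hG.differentiableAt (isOpen_ball.mem_nhds (hsub hw))).hasDerivAt
      simpa using (h2.fun_sub ((hasDerivAt_id' w).const_mul (deriv G 0))).hasDerivWithinAt)
    h1 (mem_ball_self (by norm_num)) hz
  rw [mul_zero, sub_zero, sub_zero, sub_right_comm] at h
  linarith only [h, hz, mem_ball_zero_iff.1 hz]

lemma MirB_err {u H w : ℂ} (hu : ‖u‖ ≤ 1 / 10000) (hH : ‖H‖ ≤ 6 / 5000) (hw : ‖w‖ ≤ 1 / 2) :
    ‖(1 + u) * Complex.exp H * Complex.exp w - Complex.exp w‖ ≤ 1 / 100 := by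
  have h1 := Complex.norm_exp_sub_one_le (x := H) (by linarith only [hH])
  have h2 := Complex.norm_exp_sub_one_le (x := w) (by linarith only [hw])
  have h3 : ‖Complex.exp w‖ ≤ 2 := by
    have := norm_add_le (Complex.exp w - 1) 1
    rw [sub_add_cancel, norm_one] at this
    linarith only [hw, h2, this]
  have h4 : ‖1 + u‖ ≤ 1.1 := by
    have := norm_add_le 1 u
    rw [norm_one] at this
    linarith only [hu, this]
  have h5 : ‖(1 + u) * (Complex.exp H - 1)‖ ≤ 1.1 * (12 / 5000) := by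
    rw [norm_mul]
    exact mul_le_mul h4 (by linarith only [hH, h1]) (norm_nonneg _) (by norm_num)
  rw [show (1 + u) * Complex.exp H * Complex.exp w - Complex.exp w =
    ((1 + u) * (Complex.exp H - 1) + u) * Complex.exp w by ring, norm_mul]
  have h6 := norm_add_le ((1 + u) * (Complex.exp H - 1)) u
  calc _ ≤ 1 / 200 * 2 := mul_le_mul (by linarith only [hu, h5, h6]) h3 (norm_nonneg _) (by norm_num)
    _ = 1 / 100 := by norm_num

lemma root {G : ℂ → ℂ} {R : ℝ} (hR : 10 ^ 6 ≤ R) (hG : DifferentiableOn ℂ G (ball 0 R))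
    (hb : ∀ z ∈ ball (0 : ℂ) R, ‖deriv G z‖ ≤ 16) (h0 : 2 ≤ ‖deriv G 0‖) (h1 : |(G 0).re| ≤ 3) :
    ∃ z ∈ ball (0 : ℂ) R, deriv G z * Complex.exp (G z) = 1 := by
  have hR0 : 0 < R := by linarith only [hR]
  set a := deriv G 0 with ha
  have ha16 : ‖a‖ ≤ 16 := hb 0 (mem_ball_self hR0)
  have ha0 : a ≠ 0 := norm_pos_iff.1 (by linarith only [h0])
  set b := Complex.log (a * Complex.exp (G 0))⁻¹ with hbd
  have hexp : Complex.exp b = (a * Complex.exp (G 0))⁻¹ :=
    Complex.exp_log (inv_ne_zero (mul_ne_zero ha0 (Complex.exp_ne_zero _)))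
  have hbn : ‖b‖ ≤ 10 := by
    have e1 : b.re = -(Real.log ‖a‖ + (G 0).re) := by
      rw [hbd, Complex.log_re, norm_inv, Real.log_inv, norm_mul, Complex.norm_exp,
        Real.log_mul (by linarith only [h0]) (Real.exp_pos _).ne', Real.log_exp]
    have e2 : |b.im| ≤ π := by rw [hbd, Complex.log_im]; exact Complex.abs_arg_le_pi _
    have e3 : 0 ≤ Real.log ‖a‖ := Real.log_nonneg (by linarith)
    have e4 : Real.log ‖a‖ ≤ 3 := by
      have := Real.log_le_log (by linarith only [h0]) ha16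
      rw [show (16 : ℝ) = 2 ^ 4 by norm_num, Real.log_pow] at this
      have h2 := Real.log_two_lt_d9
      push_cast at this
      linarith only [this, h2]
    have e5 : |b.re| ≤ 6 := by
      rw [e1, abs_le]
      have := abs_le.1 h1
      constructor <;> linarith only [e4, this, e3, this.1, this.2]
    linarith only [e2, e5, Complex.norm_le_abs_re_add_abs_im b, Real.pi_le_four]
  set z0 := b / a with hz0
  have hz5 : ‖z0‖ ≤ 5 := by
    rw [hz0, norm_div, div_le_iff₀ (by linarith only [h0])]; linarith only [h0, hbn]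
  have hin : ∀ z ∈ closedBall z0 (1 / 32), z ∈ ball (0 : ℂ) 6 := fun z hz => by
    rw [mem_closedBall, dist_eq_norm] at hz
    rw [mem_ball_zero_iff]
    have := norm_add_le (z - z0) z0
    rw [sub_add_cancel] at this
    linarith only [hz5, hz, this]
  have hsub : ball (0 : ℂ) 6 ⊆ ball 0 R := ball_subset_ball (by linarith only [hR])
  have hw : ∀ z ∈ closedBall z0 (1 / 32), ‖a * (z - z0)‖ ≤ 1 / 2 := fun z hz => by
    rw [mem_closedBall, dist_eq_norm] at hz
    rw [norm_mul]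
    exact (mul_le_mul ha16 hz (norm_nonneg _) (by norm_num)).trans (by norm_num)
  have key : ∀ z ∈ closedBall z0 (1 / 32),
      ‖deriv G z * Complex.exp (G z) - Complex.exp (a * (z - z0))‖ ≤ 1 / 100 := fun z hz => by
    obtain ⟨k1, k2⟩ := MirB_lin hR hG hb (hin z hz)
    have k3 : ‖(deriv G z - a) / a‖ ≤ 1 / 10000 := by
      rw [norm_div, div_le_iff₀ (by linarith only [h0])]; linarith only [h0, k1]
    have e : deriv G z * Complex.exp (G z) = (1 + (deriv G z - a) / a) *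
        Complex.exp (G z - G 0 - a * z) * Complex.exp (a * (z - z0)) := by
      have e1 : G z = G z - G 0 - a * z + a * (z - z0) + b + G 0 := by
        rw [hz0]; field_simp; ring
      have e2 := Complex.exp_ne_zero (G 0)
      conv_lhs => rw [e1, Complex.exp_add, Complex.exp_add, Complex.exp_add, hexp]
      field_simp
      ring
    rw [e]
    exact MirB_err k3 k2 (hw z hz)
  by_contra hc
  push Not at hc
  have hd : DifferentiableOn ℂ (fun z => (deriv G z * Complex.exp (G z) - 1)⁻¹) (ball 0 R) :=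
    (((hG.deriv isOpen_ball).mul hG.cexp).sub_const 1).inv fun z hz => sub_ne_zero.2 (hc z hz)
  have hm := Complex.norm_le_of_forall_mem_frontier_norm_le (isBounded_ball (x := z0) (r := 1 / 32))
    (C := 50) (hd.diffContOnCl_ball fun z hz => hsub (hin z hz)) (fun z hz => by
      rw [frontier_ball _ (by norm_num)] at hz
      have k1 := key z (sphere_subset_closedBall hz)
      have k2 := hw z (sphere_subset_closedBall hz)
      have k3 : 1 / 16 ≤ ‖a * (z - z0)‖ := by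
        rw [norm_mul, mem_sphere_iff_norm.1 hz]; linarith only [h0]
      have k4 := Complex.norm_exp_sub_one_sub_id_le (x := a * (z - z0)) (by linarith only [k2])
      generalize a * (z - z0) = w at k1 k2 k3 k4
      generalize deriv G z * Complex.exp (G z) = E at k1
      have k5 : ‖w‖ ≤ ‖E - 1‖ + ‖E - Complex.exp w‖ + ‖Complex.exp w - 1 - w‖ := by
        have e : w = E - 1 - (E - Complex.exp w) - (Complex.exp w - 1 - w) := by ring
        conv_lhs => rw [e]
        exact (norm_sub_le _ _).trans (add_le_add_left (norm_sub_le _ _) _)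
      rw [norm_inv, inv_le_comm₀ (by linarith only [k3, k4, k1, k5, k2, mul_nonneg_of_nonpos_of_nonpos (Mathlib.Tactic.Linarith.sub_nonpos_of_le k2) (Mathlib.Tactic.Linarith.sub_nonpos_of_le k3)]) (by norm_num)]
      linarith only [k3, k4, k1, k5, k2, mul_nonneg_of_nonpos_of_nonpos (Mathlib.Tactic.Linarith.sub_nonpos_of_le k2) (Mathlib.Tactic.Linarith.sub_nonpos_of_le k3)]) (subset_closure (mem_ball_self (by norm_num)))
  have k1 := key z0 (mem_closedBall_self (by norm_num))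
  rw [sub_self, mul_zero, Complex.exp_zero] at k1
  have k2 : 0 < ‖deriv G z0 * Complex.exp (G z0) - 1‖ :=
    norm_pos_iff.2 (sub_ne_zero.2 (hc z0 (hsub (hin z0 (mem_closedBall_self (by norm_num))))))
  rw [norm_inv, inv_le_comm₀ k2 (by norm_num)] at hm
  linarith only [hm, k1]

end Pool.Agent.Work.MP_6ac3f6_an.PF
end
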